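import Pool.Agent.Y715.Z.Glo
import Pool.Agent.Y699.Qp
import Pool.Agent.Y682.Crv
import Pool.Agent.Y699.Chi
import Pool.Agent.D0H92.Q4.Coc

/-!
Project Q4, block D1, module CONV1: the place `1 + i`.
-/

set_option autoImplicit false
set_option linter.unusedSectionVars false

open NumberField IsDedekindDomain

namespace Pool.Agent.D0H76.Q4

open Pool.Agent.Y682 (vv vv_coe exists_sqrt)
open Pool.Agent.Y699
open Pool.Agent.Y715.Z
open Pool.Agent.D0H92.Q4 (LocB WB)
open H385 (ZI RQ im1 nrm)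

lemma locB_mul {L : Type} [Field L] {b d d' c : L} (h : LocB b d) (hc : c ≠ 0) (hd : d' = d * c ^ 2) :
    LocB b d' := by
  obtain ⟨X, Y, r, h1, h2, h3⟩ := h
  refine ⟨X, Y, r / c, h1, h2, ?_⟩
  rw [h3, hd]
  field_simp

section

variable {K : Type} [Field K] [NumberField K] (e : ZI ≃+* 𝓞 K)

/-- the point of abscissa `5` -/
lemma loc5 {D : ZI} (hD : ¬ pi1 ∣ D) : LocB (ph e pi1_prime (em0 e D)) 5 := by
  have h5 : (5 : (plc e pi1_prime).adicCompletion K) ≠ 0 := by
    have := Pool.Agent.Y682.charZero_adic (plc e pi1_prime)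
    norm_num
  have h4 : (4 : (plc e pi1_prime).adicCompletion K) ≠ 0 := by
    have := Pool.Agent.Y682.charZero_adic (plc e pi1_prime)
    norm_num
  obtain ⟨Y, hY⟩ := exists_sqrt (plc e pi1_prime) (ph e pi1_prime (em0 e (4 * (31 - 5 * D)))) (by
    have e4 : (4 : (plc e pi1_prime).adicCompletion K) = ph e pi1_prime (em0 e 4) := by
      rw [map_ofNat, map_ofNat]
    rw [map_mul, map_mul, map_mul, ← e4]
    have h1 : vv (plc e pi1_prime) (ph e pi1_prime (em0 e (31 - 5 * D))) < 1 := by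
      rw [vv_coe]
      apply (val_lt e pi1_prime _).2
      by_contra h2
      rw [odd_iff] at h2 hD
      have e1 : (31 - 5 * D : ZI).re = 31 - 5 * D.re := by
        simp
      have e2 : (31 - 5 * D : ZI).im = - 5 * D.im := by
        simp
      rw [e1, e2] at h2
      omega
    calc vv (plc e pi1_prime) 4 * vv (plc e pi1_prime) (ph e pi1_prime (em0 e (31 - 5 * D)))
        < vv (plc e pi1_prime) 4 * 1 :=
          mul_lt_mul_of_pos_left h1 (zero_lt_iff.2 ((Valuation.ne_zero_iff _).2 h4))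
      _ = _ := mul_one _)
  refine ⟨5, Y, 1, h5, ?_, by rw [one_pow, mul_one]⟩
  rw [hY]
  simp only [map_mul, map_sub, map_ofNat]
  ring

/-- the classes of the elements `≡ 1 mod 4` -/
lemma cls5 {d z : ZI} (hd : d = 1 + 4 * z) :
    (∃ c, c ≠ 0 ∧ ph e pi1_prime (em0 e d) = c ^ 2) ∨
      ∃ c, c ≠ 0 ∧ ph e pi1_prime (em0 e d) = 5 * c ^ 2 := by
  have hcz := Pool.Agent.Y682.charZero_adic (plc e pi1_prime)
  have h4 : (4 : (plc e pi1_prime).adicCompletion K) ≠ 0 := by norm_num
  have h5 : (5 : (plc e pi1_prime).adicCompletion K) ≠ 0 := by norm_num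
  have e4 : (4 : (plc e pi1_prime).adicCompletion K) = ph e pi1_prime (em0 e 4) := by
    rw [map_ofNat, map_ofNat]
  have e5 : (5 : (plc e pi1_prime).adicCompletion K) = ph e pi1_prime (em0 e 5) := by
    rw [map_ofNat, map_ofNat]
  have hv5 : vv (plc e pi1_prime) 5 = 1 := by
    rw [e5, vv_coe]
    exact val_one e _ (by rw [odd_iff]; decide)
  have hd0 : ph e pi1_prime (em0 e d) ≠ 0 := by
    refine (map_ne_zero _).2 (em0_ne e ?_)
    rintro rfl
    have h1 := congrArg Zsqrtd.re hd
    simp at h1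
    omega
  have key : ∀ w : ZI, pi1 ∣ w → vv (plc e pi1_prime) (4 * ph e pi1_prime (em0 e w)) <
      vv (plc e pi1_prime) 4 := by
    intro w hw
    rw [map_mul]
    have h1 : vv (plc e pi1_prime) (ph e pi1_prime (em0 e w)) < 1 := by
      rw [vv_coe]
      exact (val_lt e pi1_prime _).2 hw
    calc vv (plc e pi1_prime) 4 * vv (plc e pi1_prime) (ph e pi1_prime (em0 e w))
        < vv (plc e pi1_prime) 4 * 1 :=
          mul_lt_mul_of_pos_left h1 (zero_lt_iff.2 ((Valuation.ne_zero_iff _).2 h4))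
      _ = _ := mul_one _
  by_cases hz : pi1 ∣ z
  · left
    obtain ⟨c, hc⟩ := exists_sqrt (plc e pi1_prime) _ (key z hz)
    have h1 : ph e pi1_prime (em0 e d) = c ^ 2 := by
      rw [hc, hd]
      simp only [map_mul, map_add, map_one, map_ofNat]
    refine ⟨c, ?_, h1⟩
    rintro rfl
    rw [h1] at hd0
    exact hd0 (zero_pow two_ne_zero)
  · right
    have hz1 : pi1 ∣ z - 1 := by
      by_contra h2
      rw [odd_iff] at h2 hz
      have e1 : (z - 1 : ZI).re = z.re - 1 := by simp
      have e2 : (z - 1 : ZI).im = z.im := by simp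
      rw [e1, e2] at h2
      omega
    obtain ⟨c, hc⟩ := exists_sqrt (plc e pi1_prime) (4 * ph e pi1_prime (em0 e (z - 1)) / 5) (by
      rw [map_div₀, hv5, div_one]
      exact key _ hz1)
    have h1 : ph e pi1_prime (em0 e d) = 5 * c ^ 2 := by
      rw [hc, hd]
      simp only [map_mul, map_add, map_sub, map_one, map_ofNat]
      field_simp
      ring
    refine ⟨c, ?_, h1⟩
    rintro rfl
    rw [h1] at hd0
    exact hd0 (by rw [zero_pow two_ne_zero, mul_zero])

end

end Pool.Agent.D0H76.Q4
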