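import Pool.Agent.D0H10.Q4.StmB
import Pool.Agent.Y699.Qk

/-!
Project Q4, block D1, module CONV1: a kernel vector.
-/

set_option autoImplicit false
set_option linter.unusedSectionVars false

open NumberField IsDedekindDomain

namespace Pool.Agent.D0H76.Q4

open Pool.Agent.Y699
open Pool.Agent.D0H10.Q4 (MQ dq dD)
open H385 (ZI RQ im1 nrm)

section

variable {ι : Type} [DecidableEq ι] [Fintype ι] {pr : ι → ZI}

lemma mq_row (t : ι → ZMod 2) (A : ι → ι → ZMod 2) (z : ι → ZMod 2) (v : ι) :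
    (MQ t A Finset.univ).mulVec (fun v => z v.1) ⟨v, Finset.mem_univ v⟩ =
      t v * z v + ∑ u, A u v * (z u + z v) := by
  classical
  unfold MQ Matrix.mulVec dotProduct
  simp only [Matrix.of_apply]
  rw [← Finset.add_sum_erase _ _ (Finset.mem_univ (⟨v, Finset.mem_univ v⟩ : (Finset.univ : Finset ι))),
    if_pos rfl]
  have e1 : ∑ x ∈ Finset.univ.erase (⟨v, Finset.mem_univ v⟩ : (Finset.univ : Finset ι)),
      (if (⟨v, Finset.mem_univ v⟩ : (Finset.univ : Finset ι)) = x then
        t v + ∑ l ∈ Finset.univ.erase v, A l v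
        else A x.1 v) * z x.1 = ∑ x ∈ Finset.univ.erase v, A x v * z x := by
    refine Finset.sum_bij' (fun a _ => a.1) (fun a _ => ⟨a, Finset.mem_univ a⟩) ?_ ?_ ?_ ?_ ?_
    · intro a ha
      rw [Finset.mem_erase] at ha ⊢
      exact ⟨fun h' => ha.1 (Subtype.ext h'), Finset.mem_univ _⟩
    · intro a ha
      rw [Finset.mem_erase] at ha ⊢
      refine ⟨fun h' => ha.1 ?_, Finset.mem_univ _⟩
      exact congrArg Subtype.val h'
    · intro a _; rfl
    · intro a _; rfl
    · intro a ha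
      rw [Finset.mem_erase] at ha
      rw [if_neg (fun h' => ha.1 h'.symm)]
  rw [e1, ← Finset.add_sum_erase Finset.univ (fun u => A u v * (z u + z v)) (Finset.mem_univ v)]
  have e2 : ∀ a : ZMod 2, a + a = 0 := by decide
  rw [e2, mul_zero, zero_add, add_mul, Finset.sum_mul, add_assoc, ← Finset.sum_add_distrib]
  congr 1
  refine Finset.sum_congr rfl fun x _ => ?_
  ring

/-- a kernel vector -/
theorem ker_exists (hp : PF pr) (hd : dq pr Finset.univ = 0) :
    ∃ S : Finset ι, S.Nonempty ∧ (∀ j, j ∉ S → qr (pr j) (DD pr S) = 1) ∧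
      (∀ j, j ∈ S → qr (pr j) im1 * qr (pr j) (DD pr Sᶜ) = 1) ∧ ∑ j ∈ S, wt pr j = 0 := by
  classical
  obtain ⟨x, hx0, hx⟩ := Matrix.exists_mulVec_eq_zero_iff.2 hd
  set z : ι → ZMod 2 := fun i => x ⟨i, Finset.mem_univ i⟩ with hz
  have hzx : (fun v : (Finset.univ : Finset ι) => z v.1) = x := by
    funext v
    rfl
  have hrow : ∀ v, wt pr v * z v + ∑ u, em pr u v * (z u + z v) = 0 := by
    intro v
    rw [← mq_row (wt pr) (em pr) z v, hzx]
    exact congrFun hx _
  have e2 : ∀ a : ZMod 2, a + a = 0 := by decide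
  have h01 : ∀ a : ZMod 2, a = 0 ∨ a = 1 := by decide
  set S : Finset ι := Finset.univ.filter (fun i => z i = 1) with hS
  have hz1 : ∀ i ∈ S, z i = 1 := fun i hi => (Finset.mem_filter.1 hi).2
  have hz0 : ∀ i, i ∉ S → z i = 0 := by
    intro i hi
    rcases h01 (z i) with h | h
    · exact h
    · exact absurd (Finset.mem_filter.2 ⟨Finset.mem_univ i, h⟩) hi
  have hsg : ∀ a : ZMod 2, a = 0 → sg a = 1 := by decide
  refine ⟨S, ?_, ?_, ?_, ?_⟩
  · by_contra hne
    rw [Finset.not_nonempty_iff_eq_empty] at hne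
    apply hx0
    rw [← hzx]
    funext v
    exact hz0 v.1 (by rw [hne]; exact Finset.notMem_empty _)
  · intro j hj
    rw [qr_DD_sg hp S hj]
    apply hsg
    have h1 := hrow j
    rw [hz0 j hj, mul_zero, zero_add, ← Finset.sum_add_sum_compl S] at h1
    have h5 : ∑ i ∈ Sᶜ, em pr i j * (z i + 0) = 0 :=
      Finset.sum_eq_zero fun i hi => by rw [hz0 i (Finset.mem_compl.1 hi), add_zero, mul_zero]
    rw [h5, add_zero] at h1
    rw [← h1]
    exact Finset.sum_congr rfl fun i hi => by rw [hz1 i hi, add_zero, mul_one]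
  · intro j hj
    rw [qr_unit_sg hp j (by decide), qr_DD_sg hp Sᶜ (fun h => (Finset.mem_compl.1 h) hj), ← sg_add]
    apply hsg
    have hue : ue im1 = 1 := by
      unfold ue
      rw [if_neg (by decide)]
    have h1 := hrow j
    rw [hz1 j hj, mul_one, ← Finset.sum_add_sum_compl S] at h1
    have h5 : ∑ i ∈ S, em pr i j * (z i + 1) = 0 :=
      Finset.sum_eq_zero fun i hi => by rw [hz1 i hi, e2, mul_zero]
    rw [h5, zero_add] at h1
    rw [hue, one_mul, ← h1]
    congr 1
    exact Finset.sum_congr rfl fun i hi => by rw [hz0 i (Finset.mem_compl.1 hi), zero_add, mul_one]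
  · have h1 : ∑ v, (wt pr v * z v + ∑ u, em pr u v * (z u + z v)) = 0 :=
      Finset.sum_eq_zero fun v _ => hrow v
    rw [Finset.sum_add_distrib] at h1
    have h2 : ∑ v, ∑ u, em pr u v * (z u + z v) = 0 := by
      have e1 : ∑ v, ∑ u, em pr u v * (z u + z v) =
          ∑ v, ∑ u, em pr u v * z u + ∑ v, ∑ u, em pr u v * z v := by
        rw [← Finset.sum_add_distrib]
        refine Finset.sum_congr rfl fun v _ => ?_
        rw [← Finset.sum_add_distrib]
        exact Finset.sum_congr rfl fun u _ => by ring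
      rw [e1, Finset.sum_comm]
      have e3 : ∑ u, ∑ v, em pr u v * z u = ∑ v, ∑ u, em pr u v * z v :=
        Finset.sum_congr rfl fun u _ => Finset.sum_congr rfl fun v _ => by rw [em_symm hp]
      rw [e3]
      exact e2 _
    rw [h2, add_zero, ← Finset.sum_add_sum_compl S] at h1
    have h3 : ∑ i ∈ Sᶜ, wt pr i * z i = 0 :=
      Finset.sum_eq_zero fun i hi => by rw [hz0 i (Finset.mem_compl.1 hi), mul_zero]
    rw [h3, add_zero] at h1
    rw [← h1]
    exact Finset.sum_congr rfl fun i hi => by rw [hz1 i hi, mul_one]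

end

/-- the norm of the product -/
theorem norm_ker {Δ : ZI} (hg : PS Δ) {S : Finset {π : ZI // π ∈ PD Δ}}
    (h : ∑ j ∈ S, wt (fam Δ) j = 0) : ∃ z : ZI, DD (fam Δ) S = 1 + 4 * z := by
  have h1 := norm_prod16 hg S
  have hp := fam_PF hg.ne
  have hw : ∀ j, wt (fam Δ) j = ((wq (fam Δ j) : ℕ) : ZMod 2) := by
    intro j
    have h2 := (hp.pp j).norm_mod
    have h3 : ((nrm (fam Δ j) : ℕ) : ℤ) = (fam Δ j).norm := by
      have h4 := nrm_cast (fam Δ j)
      exact_mod_cast h4
    unfold wt wq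
    split_ifs with h5
    · have : nrm (fam Δ j) / 4 % 2 = 1 := by omega
      have := (ZMod.natCast_eq_natCast_iff' (nrm (fam Δ j) / 4) 1 2).2 (by omega)
      rw [this, Nat.cast_one]
    · have := (ZMod.natCast_eq_natCast_iff' (nrm (fam Δ j) / 4) 0 2).2 (by omega)
      rw [this, Nat.cast_zero]
  have h6 : (∑ i ∈ S, wq (fam Δ i)) % 2 = 0 := by
    have h7 : (((∑ i ∈ S, wq (fam Δ i) : ℕ)) : ZMod 2) = ((0 : ℕ) : ZMod 2) := by
      rw [Nat.cast_sum, Nat.cast_zero, ← h]
      exact Finset.sum_congr rfl fun j _ => (hw j).symm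
    have := (ZMod.natCast_eq_natCast_iff' _ 0 2).1 h7
    omega
  have hpr := DD_prim hp S
  have e : (∏ i ∈ S, fam Δ i) = DD (fam Δ) S := rfl
  rw [e] at h1
  generalize DD (fam Δ) S = D at h1 hpr
  generalize (∑ i ∈ S, wq (fam Δ i)) = w at h1 h6
  obtain ⟨h8, h9⟩ := hpr
  obtain ⟨a, b⟩ := D
  rw [Pool.Agent.H304R2.EC.A1.norm_def'] at h1
  simp only at h1 h8 h9
  have h10 : (a ^ 2 + b ^ 2) % 8 = 1 := by
    have : (1 + 4 * (w : ℤ)) % 16 % 8 = 1 := by omega
    omega
  have hb : b % 4 = 0 := by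
    obtain ⟨c, rfl⟩ : ∃ c, b = 2 * c := ⟨b / 2, by omega⟩
    have ha : a ^ 2 % 8 = 1 := by
      have ha2 : a % 8 = 1 ∨ a % 8 = 3 ∨ a % 8 = 5 ∨ a % 8 = 7 := by omega
      rcases ha2 with h | h | h | h <;> rw [sq, Int.mul_emod, h] <;> norm_num
    have h11 : (4 * c ^ 2) % 8 = 0 := by
      have : (2 * c) ^ 2 = 4 * c ^ 2 := by ring
      rw [this] at h10
      omega
    have h12 : c ^ 2 % 2 = 0 := by omega
    have h13 : c % 2 = 0 := by
      rcases Int.emod_two_eq_zero_or_one c with h | h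
      · exact h
      · rw [sq, Int.mul_emod, h] at h12
        norm_num at h12
    omega
  refine ⟨⟨(a - 1) / 4, b / 4⟩, ?_⟩
  ext
  · simp
    omega
  · simp
    omega

end Pool.Agent.D0H76.Q4
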