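import Pool.Agent.D0H43.Q4.Stm2
import Pool.Agent.D0H92.Q4.Lc
import Pool.Agent.D0H76.Q4.Ker
import Pool.Agent.D0H76.Q4.Ell

/-!
Project Q4, block D1, module CONV1.
-/

set_option autoImplicit false
set_option linter.unusedSectionVars false

open NumberField IsDedekindDomain

namespace Pool.Agent.D0H76.Q4

open Pool.Agent.Y682 (vv vv_coe exists_sqrt)
open Pool.Agent.Y699
open Pool.Agent.Y715.Z (em0 ph val_z val_one val_lt em0_ne em0_inj em0_apply exp_sq)
open Pool.Agent.D0H92.Q4 (LocB WB sha_ex loc_one loc_two loc_good sq_of_qr em0_im)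
open Pool.Agent.D0H43.Q4 (S_CONV1 cI)
open Pool.Agent.D0H10.Q4 (dD)
open H385 (ZI RQ im1 nrm)

lemma locB_map {L L' : Type} [Field L] [Field L'] (φ : L →+* L') {b d : L} (h : LocB b d) :
    LocB (φ b) (φ d) := by
  obtain ⟨X, Y, r, h1, h2, h3⟩ := h
  refine ⟨φ X, φ Y, φ r, (map_ne_zero φ).2 h1, ?_, ?_⟩
  · rw [← map_pow, h2, map_sub, map_mul, map_mul, map_pow, map_ofNat]
  · rw [h3, map_mul, map_pow]

lemma locB_complex {b d : ℂ} (hd : d ≠ 0) : LocB b d := by
  obtain ⟨Y, hY⟩ := IsAlgClosed.exists_pow_nat_eq (d ^ 3 - 4 * b * d) two_pos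
  exact ⟨d, Y, 1, hd, hY, by ring⟩

section

variable {K : Type} [Field K] [NumberField K] (e : ZI ≃+* 𝓞 K)

include e in
/-- the infinite places -/
lemma locB_inf (v : InfinitePlace K) {b d : K} (hd : d ≠ 0) :
    LocB (algebraMap K v.Completion b) (algebraMap K v.Completion d) := by
  rcases v.isReal_or_isComplex with h | h
  · exfalso
    have h1 : (em0 e im1 : K) ^ 2 = -1 := em0_im e
    have h2 := congrArg (InfinitePlace.embedding_of_isReal h) h1
    rw [map_pow, map_neg, map_one] at h2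
    nlinarith [sq_nonneg (InfinitePlace.embedding_of_isReal h (em0 e im1))]
  · set φ := InfinitePlace.Completion.ringEquivComplexOfIsComplex h
    have h1 : LocB (φ (algebraMap K v.Completion b)) (φ (algebraMap K v.Completion d)) := by
      apply locB_complex
      rw [Ne, EmbeddingLike.map_eq_zero_iff, map_eq_zero]
      exact hd
    have h2 := locB_map φ.symm.toRingHom h1
    have e1 : ∀ x, φ.symm.toRingHom (φ x) = x := fun x => φ.symm_apply_apply x
    rwa [e1, e1] at h2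

/-- squares of Gaussian integers -/
lemma sq_int {x : ZI} (h : IsSquare (em0 e x)) : ∃ a : ZI, a * a = x := by
  obtain ⟨r, hr⟩ := h
  have hint : IsIntegral (𝓞 K) r := by
    refine IsIntegral.of_pow (n := 2) (by norm_num) ?_
    rw [sq, ← hr, em0_apply]
    exact isIntegral_algebraMap
  obtain ⟨a', ha'⟩ := IsIntegrallyClosed.isIntegral_iff.1 hint
  obtain ⟨a, rfl⟩ := e.surjective a'
  refine ⟨a, ?_⟩
  apply em0_inj e
  rw [map_mul, hr, em0_apply, ha']

lemma not_sq_unit {u : ZI} (hu : u = im1 ∨ u = -im1) : ¬ IsSquare (em0 e u) := by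
  intro h
  obtain ⟨a, ha⟩ := sq_int e h
  have h1 : a.norm = 1 := by
    have h2 := congrArg Zsqrtd.norm ha
    rw [Zsqrtd.norm_mul] at h2
    have h3 : u.norm = 1 := by rcases hu with rfl | rfl <;> decide
    rw [h3] at h2
    have h4 : 0 ≤ a.norm := by
      rw [Pool.Agent.H304R2.EC.A1.norm_def']
      positivity
    nlinarith
  rcases Pool.Agent.W164.RC.unit_cases h1 with h2 | h2 | h2 | h2 <;> rcases hu with rfl | rfl <;>
    rw [h2] at ha <;> revert ha <;> decide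

/-- odd primes and squares -/
lemma not_sq_of_dvd {x π : ZI} (hπ : Prime π) (h1 : π ∣ x) (h2 : ¬ π ^ 2 ∣ x) :
    ¬ IsSquare (em0 e x) := by
  intro h
  obtain ⟨a, rfl⟩ := sq_int e h
  apply h2
  have h3 : π ∣ a := (hπ.dvd_or_dvd h1).elim id id
  rw [sq]
  exact mul_dvd_mul h3 h3

end

/-- **D1-CONV** -/
theorem conv1 : S_CONV1 := by
  classical
  intro σ hσ K _ _ e Δ hg hdt hf
  obtain ⟨S, hne, hk1, hk2, hk3⟩ := ker_exists (fam_PF hg.ne) hdt
  obtain ⟨z, hz⟩ := norm_ker hg hk3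
  have hp := fam_PF hg.ne
  set κ : ZI := im1 ^ σ with hκ
  have hκc : κ = im1 ∨ κ = -im1 := by
    obtain ⟨k, rfl⟩ : ∃ k, σ = 2 * k + 1 := ⟨σ / 2, by omega⟩
    have h1 : (im1 : ZI) ^ 2 = -1 := by decide
    rw [hκ, pow_succ, pow_mul, h1]
    rcases neg_one_pow_eq_or ZI k with h2 | h2 <;> rw [h2]
    · left; ring
    · right; ring
  have hκn : κ.norm = 1 := by rcases hκc with h | h <;> rw [h] <;> decide
  have hκ4 : κ ^ 4 = 1 := by rcases hκc with h | h <;> rw [h] <;> decide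
  set d : ZI := DD (fam Δ) S with hd
  set d' : ZI := DD (fam Δ) Sᶜ with hd'
  have hΔ : Δ = d * d' := by
    have h1 : DD (fam Δ) Finset.univ = Δ := hg.DD
    refine h1.symm.trans ?_
    rw [hd, hd']
    unfold DD
    exact (Finset.prod_mul_prod_compl S _).symm
  have hd0 : d ≠ 0 := by
    intro h0
    apply hg.ne
    rw [hΔ, h0, zero_mul]
  have hκ0 : κ ≠ 0 := by rcases hκc with h | h <;> rw [h] <;> decide
  have hD0 : κ * Δ ≠ 0 := mul_ne_zero hκ0 hg.ne
  -- divisibility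
  have hΔsq : ∀ π : ZI, Prime π → ¬ π ^ 2 ∣ Δ := by
    intro π hπ h
    rw [sq] at h
    exact hπ.not_isUnit (hg.sqf _ h)
  have hκdvd : ∀ x y : ZI, x ∣ κ * y → x ∣ y := by
    intro x y h
    have h1 : x ∣ κ ^ 3 * (κ * y) := h.mul_left _
    have h2 : κ ^ 3 * (κ * y) = y := by
      have : κ ^ 3 * (κ * y) = κ ^ 4 * y := by ring
      rw [this, hκ4, one_mul]
    rwa [h2] at h1
  have hndS : ∀ (T : Finset {π : ZI // π ∈ PD Δ}) (j : {π : ZI // π ∈ PD Δ}), j ∉ T →
      ¬ fam Δ j ∣ DD (fam Δ) T := by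
    intro T j hT h
    unfold DD at h
    obtain ⟨i, hi, hji⟩ := ((hp.pp j).pr.dvd_finsetProd_iff _).1 h
    exact not_dvd_of_ne hp (fun h' => hT (by rw [h']; exact hi)) hji
  have h4odd : ∀ π : ZI, PP π → ¬ π ∣ 4 := by
    intro π hπ h
    have h4 : (4 : ZI) = 2 * 2 := by decide
    rw [h4] at h
    rcases hπ.pr.dvd_or_dvd h with h1 | h1 <;> exact not_dvd_two hπ h1
  have hem4 : (em0 e (-4) : K) = -4 := by
    rw [map_neg, map_ofNat]
  -- squares
  have hdsq : ∀ j ∈ S, ¬ fam Δ j ^ 2 ∣ d := by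
    intro j _ h
    exact hΔsq _ (hp.pp j).pr (h.trans ⟨d', hΔ⟩)
  have hdj : ∀ j ∈ S, fam Δ j ∣ d := fun j hj => by
    rw [hd]; unfold DD
    exact Finset.dvd_prod_of_mem _ hj
  have hΔj : ∀ j, fam Δ j ∣ Δ := fun j => ((mem_PD hg.ne).1 j.2).2
  obtain ⟨j0, hj0⟩ := hne
  have nb : ¬ IsSquare (em0 e (κ * Δ)) :=
    not_sq_of_dvd e (hp.pp j0).pr ((hΔj j0).mul_left _) (fun h => hΔsq _ (hp.pp j0).pr (hκdvd _ _ h))
  have hcop4 : ∀ π : ZI, PP π → ∀ y : ZI, π ^ 2 ∣ -4 * y → π ^ 2 ∣ y := by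
    intro π hπ y h
    have h1 : IsCoprime (π ^ 2) (-4) :=
      (((hπ.pr.irreducible.coprime_iff_not_dvd).2 (by rw [dvd_neg]; exact h4odd π hπ))).pow_left
    exact h1.dvd_of_dvd_mul_left h
  have nab : ¬ IsSquare (-4 * em0 e (κ * Δ)) := by
    rw [← hem4, ← map_mul]
    exact not_sq_of_dvd e (hp.pp j0).pr (((hΔj j0).mul_left _).mul_left _)
      (fun h => hΔsq _ (hp.pp j0).pr (hκdvd _ _ (hcop4 _ (hp.pp j0) _ h)))
  have n1 : ¬ IsSquare (em0 e d) := not_sq_of_dvd e (hp.pp j0).pr (hdj j0 hj0) (hdsq j0 hj0)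
  have hi2 : (em0 e im1 : K) ^ 2 = -1 := em0_im e
  have hi0 : (em0 e im1 : K) ≠ 0 := em0_ne e (by decide)
  have n2 : ¬ IsSquare (em0 e d * (-4 * em0 e (κ * Δ))) := by
    by_cases hSu : S = Finset.univ
    · -- `d = Δ`
      have hdΔ : d = Δ := by rw [hd, hSu]; exact hg.DD
      rintro ⟨s, hs⟩
      refine not_sq_unit e hκc ⟨s / (2 * em0 e im1 * em0 e Δ), ?_⟩
      have hΔ0 : (em0 e Δ : K) ≠ 0 := em0_ne e hg.ne
      have h20 : (2 : K) ≠ 0 := two_ne_zero
      rw [hdΔ, map_mul] at hs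
      rw [div_mul_div_comm, ← hs, eq_div_iff (by positivity)]
      linear_combination (4 * em0 e κ * em0 e Δ ^ 2) * hi2
    · obtain ⟨j1, hj1⟩ : ∃ j, j ∉ S := by
        by_contra hcon
        push Not at hcon
        exact hSu (Finset.eq_univ_iff_forall.2 hcon)
      rw [← hem4, ← map_mul, ← map_mul]
      refine not_sq_of_dvd e (hp.pp j1).pr ((((hΔj j1).mul_left _).mul_left _).mul_left _) (fun h => ?_)
      have h1 : IsCoprime (fam Δ j1 ^ 2) d :=
        (((hp.pp j1).pr.irreducible.coprime_iff_not_dvd).2 (hndS S j1 hj1)).pow_left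
      exact hΔsq _ (hp.pp j1).pr (hκdvd _ _ (hcop4 _ (hp.pp j1) _ (h1.dvd_of_dvd_mul_left h)))
  -- the local points
  have hl : ∀ v : HeightOneSpectrum (𝓞 K),
      LocB (algebraMap K (v.adicCompletion K) (em0 e (κ * Δ)))
        (algebraMap K (v.adicCompletion K) (em0 e d)) := by
    intro v
    obtain ⟨w, hw, hwc, rfl⟩ : ∃ (w : ZI) (hw : Prime w), (w = pi1 ∨ PP w) ∧ v = plc e hw := by
      refine ⟨pg e v, pg_prime e v, ?_, HeightOneSpectrum.ext (pg_span e v)⟩
      rcases pg_cases e v with ⟨h1, h2⟩ | ⟨h1, h2⟩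
      · exact Or.inl h2
      · right
        have h3 := Pool.Agent.W164.RC.Ip_spec (Pool.Agent.H921R2.TatePole.below v).2 h2
        exact ⟨h3.2.1, h3.1⟩
    rcases hwc with rfl | hP
    · -- the place `1 + i`
      have hΔo : ¬ pi1 ∣ κ * Δ := fun h => pi1_prim hg.prm (hκdvd _ _ h)
      have hd0' : ph (K := K) e hw (em0 e d) ≠ 0 := (map_ne_zero _).2 (em0_ne e hd0)
      rcases cls5 (K := K) e hz with ⟨c, hc, h1⟩ | ⟨c, hc, h1⟩
      · exact loc_one e hw ⟨c, by rw [← sq]; exact h1⟩ hd0'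
      · exact locB_mul (loc5 e hΔo) hc h1
    · have hd0' : ph (K := K) e hw (em0 e d) ≠ 0 := (map_ne_zero _).2 (em0_ne e hd0)
      have hD0' : ph (K := K) e hw (em0 e (κ * Δ)) ≠ 0 := (map_ne_zero _).2 (em0_ne e hD0)
      by_cases hwΔ : w ∣ Δ
      · set j : {π : ZI // π ∈ PD Δ} := ⟨w, (mem_PD hg.ne).2 ⟨hP, hwΔ⟩⟩ with hj
        by_cases hjS : j ∈ S
        · have h1 : qr w im1 * qr w d' = 1 := hk2 j hjS
          have h2 : qr w (κ * d') = 1 := by
            rw [qr_mul hP]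
            rcases hκc with h | h
            · rw [h]; exact h1
            · rw [h, qr_neg hP]; exact h1
          obtain ⟨s, hs⟩ := sq_of_qr (K := K) e hP h2
          refine loc_two e hw ⟨2 * ph e hw (em0 e im1) * ph e hw (em0 e d) * s, ?_⟩ hd0' hD0'
          have hi : (ph (K := K) e hw (em0 e im1)) ^ 2 = -1 := by
            rw [← map_pow, hi2, map_neg, map_one]
          change ph (K := K) e hw (em0 e d) * (-4 * ph e hw (em0 e (κ * Δ))) = _
          have e1 : ph (K := K) e hw (em0 e (κ * Δ)) =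
              ph e hw (em0 e d) * ph e hw (em0 e (κ * d')) := by
            rw [← map_mul, ← map_mul, hΔ]
            congr 2
            ring
          rw [e1]
          have hs' : ph (K := K) e hw (em0 e (κ * d')) = s * s := hs
          rw [hs']
          linear_combination (-4 * ph e hw (em0 e d) ^ 2 * s ^ 2) * hi
        · have h1 : qr w d = 1 := hk1 j hjS
          exact loc_one e hw (sq_of_qr e hP h1) hd0'
      · refine loc_good e hP (fun h => hwΔ (hκdvd _ _ h)) (fun h => hwΔ (h.trans ⟨d', hΔ⟩))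
  exact sha_ex (em0_ne e hD0) nb nab (em0_ne e hd0) n1 n2 hl
    (fun v => locB_inf e v (em0_ne e hd0)) hf

end Pool.Agent.D0H76.Q4
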