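import Mathlib

/-!
Project Q4, descent over `ℚ`: linear algebra.
-/

set_option autoImplicit false

namespace Pool.Agent.D0H76.Q4

open Finset

open Classical in
/-- `1` if `a` is not a square modulo `p` -/
noncomputable def nq (p a : ℕ) : ZMod 2 := if IsSquare (a : ZMod p) then 0 else 1

/-- the matrix -/
noncomputable def mtQ (m : ℕ) : Matrix m.primeFactors m.primeFactors (ZMod 2) := Matrix.of fun p q =>
  if p = q then nq p 2 + ∑ l ∈ m.primeFactors.erase p, nq p l else nq p q

lemma nq_zero {p a : ℕ} : nq p a = 0 ↔ IsSquare (a : ZMod p) := by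
  unfold nq
  split_ifs with h
  · simp [h]
  · simp [h]

lemma nq_one {p a : ℕ} : nq p a = 1 ↔ ¬ IsSquare (a : ZMod p) := by
  unfold nq
  split_ifs with h
  · simp [h]
  · simp [h]

lemma z01 : ∀ z : ZMod 2, z = 0 ∨ z = 1 := by decide

lemma zadd : ∀ z : ZMod 2, z + z = 0 := by decide

lemma nq_mul {p a b : ℕ} (hp : p.Prime) (hp2 : p ≠ 2) (ha : ¬ p ∣ a) (hb : ¬ p ∣ b) :
    nq p (a * b) = nq p a + nq p b := by
  have : Fact p.Prime := ⟨hp⟩
  have hF : ringChar (ZMod p) ≠ 2 := by
    rw [ZMod.ringChar_zmod_n]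
    exact hp2
  have ha0 : (a : ZMod p) ≠ 0 := by rwa [Ne, ZMod.natCast_eq_zero_iff]
  have hb0 : (b : ZMod p) ≠ 0 := by rwa [Ne, ZMod.natCast_eq_zero_iff]
  have hab0 : ((a * b : ℕ) : ZMod p) ≠ 0 := by
    rw [Nat.cast_mul]
    exact mul_ne_zero ha0 hb0
  have key : ∀ x : ℕ, (x : ZMod p) ≠ 0 →
      (nq p x = 0 ∧ quadraticChar (ZMod p) x = 1) ∨ (nq p x = 1 ∧ quadraticChar (ZMod p) x = -1) := by
    intro x hx
    by_cases h : IsSquare (x : ZMod p)
    · left
      exact ⟨nq_zero.2 h, (quadraticChar_one_iff_isSquare hx).2 h⟩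
    · right
      exact ⟨nq_one.2 h, quadraticChar_neg_one_iff_not_isSquare.2 h⟩
  have hmul : quadraticChar (ZMod p) ((a * b : ℕ) : ZMod p) =
      quadraticChar (ZMod p) a * quadraticChar (ZMod p) b := by
    rw [Nat.cast_mul, map_mul]
  rcases key a ha0 with ⟨h1, h2⟩ | ⟨h1, h2⟩ <;> rcases key b hb0 with ⟨h3, h4⟩ | ⟨h3, h4⟩ <;>
    rcases key (a * b) hab0 with ⟨h5, h6⟩ | ⟨h5, h6⟩ <;> rw [h2, h4, h6] at hmul <;>
    rw [h1, h3, h5] <;> first | rfl | (exfalso; revert hmul; norm_num)

lemma not_dvd_prod {p : ℕ} (hp : p.Prime) {S : Finset ℕ} (hS : ∀ q ∈ S, q.Prime) (hpS : p ∉ S) :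
    ¬ p ∣ ∏ q ∈ S, q := by
  intro h
  obtain ⟨q, hq, hpq⟩ := (hp.prime.dvd_finsetProd_iff _).1 h
  exact hpS (by rwa [(Nat.prime_dvd_prime_iff_eq hp (hS q hq)).1 hpq])

lemma nq_prod {p : ℕ} (hp : p.Prime) (hp2 : p ≠ 2) {S : Finset ℕ} (hS : ∀ q ∈ S, q.Prime)
    (hpS : p ∉ S) : nq p (∏ q ∈ S, q) = ∑ q ∈ S, nq p q := by
  classical
  induction S using Finset.induction_on with
  | empty =>
    rw [prod_empty, sum_empty]
    exact nq_zero.2 ⟨1, by norm_num⟩
  | insert a S ha ih =>
    rw [prod_insert ha, sum_insert ha, nq_mul hp hp2]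
    · rw [ih (fun q hq => hS q (mem_insert_of_mem hq)) (fun h => hpS (mem_insert_of_mem h))]
    · intro h
      exact hpS (by
        rw [(Nat.prime_dvd_prime_iff_eq hp (hS a (mem_insert_self a S))).1 h]
        exact mem_insert_self a S)
    · exact not_dvd_prod hp (fun q hq => hS q (mem_insert_of_mem hq)) (fun h => hpS (mem_insert_of_mem h))

/-- one row of the matrix -/
lemma row (m : ℕ) (y : ℕ → ZMod 2) (p : m.primeFactors) :
    (mtQ m).mulVec (fun q => y q) p = nq p 2 * y p + ∑ q ∈ m.primeFactors, nq p q * (y p + y q) := by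
  classical
  have hL : (mtQ m).mulVec (fun q => y q) p =
      ∑ q ∈ m.primeFactors, (if (p : ℕ) = q then nq p 2 + ∑ l ∈ m.primeFactors.erase p, nq p l
        else nq p q) * y q := by
    rw [← Finset.sum_coe_sort m.primeFactors (fun q => (if (p : ℕ) = q then
      nq p 2 + ∑ l ∈ m.primeFactors.erase p, nq p l else nq p q) * y q)]
    show (∑ q : m.primeFactors, mtQ m p q * y q) = _
    refine Finset.sum_congr rfl fun q _ => ?_
    unfold mtQ
    rw [Matrix.of_apply]
    by_cases h : p = q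
    · rw [if_pos h, if_pos (congrArg Subtype.val h)]
    · rw [if_neg h, if_neg (fun h' => h (Subtype.ext h'))]
  rw [hL, ← Finset.add_sum_erase m.primeFactors (fun q => (if (p : ℕ) = q then nq p 2 +
      ∑ l ∈ m.primeFactors.erase p, nq p l else nq p q) * y q) p.2,
    ← Finset.add_sum_erase m.primeFactors (fun q => nq p q * (y p + y q)) p.2,
    if_pos rfl, zadd, mul_zero, zero_add]
  have h4 : ∑ q ∈ m.primeFactors.erase p, (if (p : ℕ) = q then nq p 2 +
      ∑ l ∈ m.primeFactors.erase p, nq p l else nq p q) * y q =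
      ∑ q ∈ m.primeFactors.erase p, nq p q * y q :=
    Finset.sum_congr rfl fun q hq => by rw [if_neg (Finset.ne_of_mem_erase hq).symm]
  have h5 : ∑ q ∈ m.primeFactors.erase p, nq p q * (y p + y q) =
      (∑ q ∈ m.primeFactors.erase p, nq p q) * y p + ∑ q ∈ m.primeFactors.erase p, nq p q * y q := by
    rw [Finset.sum_mul, ← Finset.sum_add_distrib]
    exact Finset.sum_congr rfl fun q _ => by ring
  rw [h4, h5]
  ring

variable {m : ℕ}

/-- the end of the descent -/
theorem sel_lin (h4 : ∀ p ∈ m.primeFactors, p % 4 = 1) (hdet : (mtQ m).det ≠ 0) {c : ℕ}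
    (hc : c = 0 ∨ c = 1) {S : Finset ℕ} (hS : S ⊆ m.primeFactors)
    (h1 : ∀ p ∈ m.primeFactors, p ∉ S → nq p (2 ^ c * ∏ q ∈ S, q) = 0)
    (h2 : ∀ p ∈ S, nq p (2 ^ (1 - c) * ∏ q ∈ m.primeFactors \ S, q) = 0) :
    (c = 0 ∧ S = ∅) ∨ (c = 1 ∧ S = m.primeFactors) := by
  classical
  set y : ℕ → ZMod 2 := fun q => (if q ∈ S then 1 else 0) + c with hy
  have hpr : ∀ q ∈ m.primeFactors, q.Prime := fun q hq => Nat.prime_of_mem_primeFactors hq
  have hp2 : ∀ q ∈ m.primeFactors, q ≠ 2 := by
    intro q hq h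
    have := h4 q hq
    rw [h] at this
    norm_num at this
  have hn2 : ∀ q ∈ m.primeFactors, ∀ k : ℕ, ¬ q ∣ 2 ^ k := by
    intro q hq k h
    have h3 := (Nat.prime_dvd_prime_iff_eq (hpr q hq) Nat.prime_two).1 ((hpr q hq).dvd_of_dvd_pow h)
    exact hp2 q hq h3
  have hnp : ∀ p ∈ m.primeFactors, ∀ k : ℕ, k = 0 ∨ k = 1 → nq p (2 ^ k) = k * nq p 2 := by
    intro p _ k hk
    rcases hk with rfl | rfl
    · rw [pow_zero, Nat.cast_zero, zero_mul]
      exact nq_zero.2 ⟨1, by norm_num⟩
    · rw [pow_one, Nat.cast_one, one_mul]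
  have hzero : (mtQ m).mulVec (fun q => y q) = 0 := by
    funext p
    rw [row m y p]
    have hp := p.2
    show _ = (0 : ZMod 2)
    by_cases hpS : (p : ℕ) ∈ S
    · have h3 := h2 p hpS
      have hT : ∀ q ∈ m.primeFactors \ S, q.Prime := fun q hq => hpr q (mem_sdiff.1 hq).1
      have hpT : (p : ℕ) ∉ m.primeFactors \ S := fun h => (mem_sdiff.1 h).2 hpS
      rw [nq_mul (hpr p hp) (hp2 p hp) (hn2 p hp _) (not_dvd_prod (hpr p hp) hT hpT),
        nq_prod (hpr p hp) (hp2 p hp) hT hpT, hnp p hp (1 - c) (by omega)] at h3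
      have e1 : y p = ((1 - c : ℕ) : ZMod 2) := by
        rw [hy]
        simp only [if_pos hpS]
        rcases hc with rfl | rfl
        · norm_num
        · rw [Nat.cast_one, zadd, Nat.sub_self, Nat.cast_zero]
      have e2 : ∑ q ∈ m.primeFactors, nq p q * (y p + y q) = ∑ q ∈ m.primeFactors \ S, nq p q := by
        rw [← Finset.sum_sdiff hS]
        have e3 : ∑ q ∈ S, nq p q * (y p + y q) = 0 := by
          refine Finset.sum_eq_zero fun q hq => ?_
          have : y p + y q = 0 := by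
            rw [hy]
            simp only [if_pos hpS, if_pos hq]
            exact zadd _
          rw [this, mul_zero]
        rw [e3, add_zero]
        refine Finset.sum_congr rfl fun q hq => ?_
        have : y p + y q = 1 := by
          rw [hy]
          simp only [if_pos hpS, if_neg (mem_sdiff.1 hq).2]
          have : (1 : ZMod 2) + c + (0 + c) = 1 + (c + c) := by ring
          rw [this, zadd, add_zero]
        rw [this, mul_one]
      rw [e2, e1, mul_comm]
      exact h3
    · have h3 := h1 p hp hpS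
      have hT : ∀ q ∈ S, q.Prime := fun q hq => hpr q (hS hq)
      rw [nq_mul (hpr p hp) (hp2 p hp) (hn2 p hp _) (not_dvd_prod (hpr p hp) hT hpS),
        nq_prod (hpr p hp) (hp2 p hp) hT hpS, hnp p hp c hc] at h3
      have e1 : y p = (c : ZMod 2) := by
        rw [hy]
        simp only [if_neg hpS, zero_add]
      have e2 : ∑ q ∈ m.primeFactors, nq p q * (y p + y q) = ∑ q ∈ S, nq p q := by
        rw [← Finset.sum_sdiff hS]
        have e3 : ∑ q ∈ m.primeFactors \ S, nq p q * (y p + y q) = 0 := by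
          refine Finset.sum_eq_zero fun q hq => ?_
          have : y p + y q = 0 := by
            rw [hy]
            simp only [if_neg hpS, if_neg (mem_sdiff.1 hq).2]
            exact zadd _
          rw [this, mul_zero]
        rw [e3, zero_add]
        refine Finset.sum_congr rfl fun q hq => ?_
        have : y p + y q = 1 := by
          rw [hy]
          simp only [if_neg hpS, if_pos hq]
          have : (0 : ZMod 2) + c + (1 + c) = 1 + (c + c) := by ring
          rw [this, zadd, add_zero]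
        rw [this, mul_one]
      rw [e2, e1, mul_comm]
      exact h3
  have hy0 : (fun q : m.primeFactors => y q) = 0 := by
    by_contra hne
    exact hdet (Matrix.exists_mulVec_eq_zero_iff.1 ⟨_, hne, hzero⟩)
  have hyq : ∀ q ∈ m.primeFactors, y q = 0 := fun q hq => congrFun hy0 ⟨q, hq⟩
  rcases hc with rfl | rfl
  · left
    refine ⟨rfl, ?_⟩
    rw [Finset.eq_empty_iff_forall_notMem]
    intro q hq
    have h3 := hyq q (hS hq)
    rw [hy] at h3
    simp only [if_pos hq, Nat.cast_zero, add_zero] at h3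
    exact one_ne_zero h3
  · right
    refine ⟨rfl, Finset.Subset.antisymm hS fun q hq => ?_⟩
    by_contra hqS
    have h3 := hyq q hq
    rw [hy] at h3
    simp only [if_neg hqS, Nat.cast_one, zero_add] at h3
    exact one_ne_zero h3

/-- products of primes `≡ 1 mod 4` modulo `8` -/
lemma prod_mod8 {S : Finset ℕ} (hS : ∀ q ∈ S, q.Prime ∧ q % 4 = 1) :
    (∑ q ∈ S, nq q 2 = 0 → (∏ q ∈ S, q) % 8 = 1) ∧ (∑ q ∈ S, nq q 2 = 1 → (∏ q ∈ S, q) % 8 = 5) := by
  classical
  induction S using Finset.induction_on with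
  | empty =>
    rw [prod_empty, sum_empty]
    exact ⟨fun _ => rfl, fun h => absurd h (by decide)⟩
  | insert a S ha ih =>
    obtain ⟨ih1, ih2⟩ := ih (fun q hq => hS q (mem_insert_of_mem hq))
    obtain ⟨hap, ha4⟩ := hS a (mem_insert_self a S)
    have hfa : Fact a.Prime := ⟨hap⟩
    rw [prod_insert ha, sum_insert ha]
    have ha2 : a ≠ 2 := by
      rintro rfl
      norm_num at ha4
    have h8 : nq a 2 = 0 ↔ a % 8 = 1 := by
      rw [nq_zero, Nat.cast_ofNat, ZMod.exists_sq_eq_two_iff ha2]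
      omega
    rcases z01 (nq a 2) with h | h <;> rcases z01 (∑ q ∈ S, nq q 2) with h' | h' <;> rw [h, h']
    · have a1 := h8.1 h
      have a2 := ih1 h'
      exact ⟨fun _ => by rw [Nat.mul_mod, a1, a2], fun h => absurd h (by decide)⟩
    · have a1 := h8.1 h
      have a2 := ih2 h'
      exact ⟨fun h => absurd h (by decide), fun _ => by rw [Nat.mul_mod, a1, a2]⟩
    · have a1 : a % 8 = 5 := by
        have : a % 8 ≠ 1 := fun h3 => by
          rw [h8.2 h3] at h
          exact zero_ne_one h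
        omega
      have a2 := ih1 h'
      exact ⟨fun h => absurd h (by decide), fun _ => by rw [Nat.mul_mod, a1, a2]⟩
    · have a1 : a % 8 = 5 := by
        have : a % 8 ≠ 1 := fun h3 => by
          rw [h8.2 h3] at h
          exact zero_ne_one h
        omega
      have a2 := ih2 h'
      exact ⟨fun _ => by rw [Nat.mul_mod, a1, a2], fun h => absurd h (by decide)⟩

/-- a kernel vector -/
theorem conv_lin (h4 : ∀ p ∈ m.primeFactors, p % 4 = 1) (hdet : (mtQ m).det = 0) :
    ∃ S ⊆ m.primeFactors, S.Nonempty ∧ (∀ p ∈ m.primeFactors, p ∉ S → nq p (∏ q ∈ S, q) = 0) ∧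
      (∀ p ∈ S, nq p (2 * ∏ q ∈ m.primeFactors \ S, q) = 0) ∧ (∏ q ∈ S, q) % 8 = 1 := by
  classical
  obtain ⟨x, hx0, hx⟩ := Matrix.exists_mulVec_eq_zero_iff.2 hdet
  set y : ℕ → ZMod 2 := fun q => if h : q ∈ m.primeFactors then x ⟨q, h⟩ else 0 with hy
  have hyx : (fun q : m.primeFactors => y q) = x := by
    funext q
    exact dif_pos q.2
  set S := m.primeFactors.filter (fun q => y q = 1) with hS
  have hSm : S ⊆ m.primeFactors := filter_subset _ _
  have hpr : ∀ q ∈ m.primeFactors, q.Prime := fun q hq => Nat.prime_of_mem_primeFactors hq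
  have hp2 : ∀ q ∈ m.primeFactors, q ≠ 2 := by
    intro q hq h
    have := h4 q hq
    rw [h] at this
    norm_num at this
  have hyS : ∀ q ∈ m.primeFactors, q ∉ S → y q = 0 := by
    intro q hq hqS
    rcases z01 (y q) with h | h
    · exact h
    · exact absurd (mem_filter.2 ⟨hq, h⟩) hqS
  have hyS1 : ∀ q ∈ S, y q = 1 := fun q hq => (mem_filter.1 hq).2
  have hrow : ∀ p ∈ m.primeFactors, nq p 2 * y p + ∑ q ∈ m.primeFactors, nq p q * (y p + y q) = 0 := by
    intro p hp
    have h1 := row m y ⟨p, hp⟩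
    rw [hyx, hx] at h1
    exact h1.symm
  refine ⟨S, hSm, ?_, ?_, ?_, ?_⟩
  · by_contra hne
    rw [Finset.not_nonempty_iff_eq_empty] at hne
    apply hx0
    rw [← hyx]
    funext q
    exact hyS q q.2 (by rw [hne]; exact notMem_empty _)
  · intro p hp hpS
    have h1 := hrow p hp
    rw [hyS p hp hpS, mul_zero, zero_add] at h1
    rw [nq_prod (hpr p hp) (hp2 p hp) (fun q hq => hpr q (hSm hq)) hpS, ← h1, ← Finset.sum_sdiff hSm]
    have e3 : ∑ q ∈ m.primeFactors \ S, nq p q * (0 + y q) = 0 := by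
      refine Finset.sum_eq_zero fun q hq => ?_
      rw [hyS q (mem_sdiff.1 hq).1 (mem_sdiff.1 hq).2, add_zero, mul_zero]
    rw [e3, zero_add]
    refine Finset.sum_congr rfl fun q hq => ?_
    rw [hyS1 q hq, zero_add, mul_one]
  · intro p hpS
    have hp := hSm hpS
    have h1 := hrow p hp
    have hT : ∀ q ∈ m.primeFactors \ S, q.Prime := fun q hq => hpr q (mem_sdiff.1 hq).1
    have hpT : (p : ℕ) ∉ m.primeFactors \ S := fun h => (mem_sdiff.1 h).2 hpS
    have hn2 : ¬ p ∣ 2 := fun h => hp2 p hp ((Nat.prime_dvd_prime_iff_eq (hpr p hp) Nat.prime_two).1 h)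
    rw [nq_mul (hpr p hp) (hp2 p hp) hn2 (not_dvd_prod (hpr p hp) hT hpT),
        nq_prod (hpr p hp) (hp2 p hp) hT hpT, ← h1, hyS1 p hpS, mul_one, ← Finset.sum_sdiff hSm]
    have e3 : ∑ q ∈ S, nq p q * (1 + y q) = 0 := by
      refine Finset.sum_eq_zero fun q hq => ?_
      rw [hyS1 q hq, zadd, mul_zero]
    rw [e3, add_zero]
    congr 1
    refine Finset.sum_congr rfl fun q hq => ?_
    rw [hyS q (mem_sdiff.1 hq).1 (mem_sdiff.1 hq).2, add_zero, mul_one]
  · apply (prod_mod8 (fun q hq => ⟨hpr q (hSm hq), h4 q (hSm hq)⟩)).1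
    have h1 : ∑ p ∈ m.primeFactors, (nq p 2 * y p + ∑ q ∈ m.primeFactors, nq p q * (y p + y q)) = 0 :=
      Finset.sum_eq_zero hrow
    rw [Finset.sum_add_distrib] at h1
    have h2 : ∑ p ∈ m.primeFactors, ∑ q ∈ m.primeFactors, nq p q * (y p + y q) = 0 := by
      have e1 : ∑ p ∈ m.primeFactors, ∑ q ∈ m.primeFactors, nq p q * (y p + y q) =
          ∑ p ∈ m.primeFactors, ∑ q ∈ m.primeFactors, nq p q * y p +
            ∑ p ∈ m.primeFactors, ∑ q ∈ m.primeFactors, nq p q * y q := by
        rw [← Finset.sum_add_distrib]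
        refine Finset.sum_congr rfl fun p _ => ?_
        rw [← Finset.sum_add_distrib]
        exact Finset.sum_congr rfl fun q _ => by ring
      rw [e1, Finset.sum_comm]
      have e2 : ∑ q ∈ m.primeFactors, ∑ p ∈ m.primeFactors, nq p q * y p =
          ∑ p ∈ m.primeFactors, ∑ q ∈ m.primeFactors, nq p q * y q := by
        refine Finset.sum_congr rfl fun q hq => Finset.sum_congr rfl fun p hp => ?_
        congr 1
        by_cases hpq : p = q
        · rw [hpq]
        · have : Fact p.Prime := ⟨hpr p hp⟩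
          have : Fact q.Prime := ⟨hpr q hq⟩
          unfold nq
          rw [ZMod.exists_sq_eq_prime_iff_of_mod_four_eq_one (h4 q hq) (hp2 p hp)]
      rw [e2]
      exact zadd _
    rw [h2, add_zero, ← Finset.sum_sdiff hSm] at h1
    have e3 : ∑ q ∈ m.primeFactors \ S, nq q 2 * y q = 0 := by
      refine Finset.sum_eq_zero fun q hq => ?_
      rw [hyS q (mem_sdiff.1 hq).1 (mem_sdiff.1 hq).2, mul_zero]
    rw [e3, zero_add] at h1
    rw [← h1]
    exact Finset.sum_congr rfl fun q hq => by rw [hyS1 q hq, mul_one]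

end Pool.Agent.D0H76.Q4
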