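import Mathlib

/-!
Project Q4, descent over `ℚ`: squares in the `p`-adic numbers.
-/

set_option autoImplicit false

namespace Pool.Agent.D0H76.Q4

section odd

variable {p : ℕ} [hp : Fact p.Prime]

/-- units which are squares -/
lemma sq_mod {n : ℤ} (hn : ¬ (p : ℤ) ∣ n) {c : ℚ_[p]} (h : (n : ℚ_[p]) = c ^ 2) :
    IsSquare (n : ZMod p) := by
  have h1 : ‖(n : ℚ_[p])‖ = 1 := by
    have := (Padic.norm_intCast_lt_one_iff (p := p) (k := n)).not.2 hn
    exact le_antisymm (Padic.norm_int_le_one n) (not_lt.1 this)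
  have h2 : ‖c‖ = 1 := by
    have : ‖c‖ ^ 2 = 1 := by rw [← norm_pow, ← h, h1]
    exact (pow_eq_one_iff_of_nonneg (norm_nonneg _) two_ne_zero).1 this
  let c' : ℤ_[p] := ⟨c, h2.le⟩
  have h3 : (n : ℤ_[p]) = c' ^ 2 := by
    apply Subtype.ext
    push_cast
    exact h
  refine ⟨PadicInt.toZMod c', ?_⟩
  rw [← map_intCast (PadicInt.toZMod (p := p)) n, h3, map_pow, sq]

/-- elements of valuation one are not squares -/
lemma not_sq {n : ℤ} (hn : (p : ℤ) ∣ n) (hn2 : ¬ (p : ℤ) ^ 2 ∣ n) (c : ℚ_[p]) :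
    (n : ℚ_[p]) ≠ c ^ 2 := by
  intro h
  have hp1 : (1 : ℝ) < p := by exact_mod_cast hp.out.one_lt
  have hn0 : n ≠ 0 := by
    rintro rfl
    exact hn2 (dvd_zero _)
  have hc : c ≠ 0 := by
    rintro rfl
    rw [zero_pow two_ne_zero] at h
    exact hn0 (by exact_mod_cast h)
  have h1 : ‖(n : ℚ_[p])‖ ≤ (p : ℝ) ^ (-(1 : ℕ) : ℤ) := by
    rw [Padic.norm_int_le_pow_iff_dvd, pow_one]
    exact hn
  have h2 : ¬ ‖(n : ℚ_[p])‖ ≤ (p : ℝ) ^ (-(2 : ℕ) : ℤ) := by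
    rw [Padic.norm_int_le_pow_iff_dvd]
    exact_mod_cast hn2
  rw [h, norm_pow, Padic.norm_eq_zpow_neg_valuation hc, ← zpow_natCast, ← zpow_mul] at h1 h2
  rw [zpow_le_zpow_iff_right₀ hp1] at h1 h2
  push_cast at h1 h2
  omega

/-- constant factors -/
lemma sqm (h4 : p % 4 = 1) {e : ℤ} (he : e = 1 ∨ e = -1 ∨ e = 4 ∨ e = -4) {n : ℤ}
    (h : IsSquare ((e * n : ℤ) : ZMod p)) : IsSquare (n : ZMod p) := by
  obtain ⟨i, hi⟩ : IsSquare (-1 : ZMod p) := ZMod.exists_sq_eq_neg_one_iff.2 (by omega)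
  have hi0 : i ≠ 0 := by
    rintro rfl
    rw [mul_zero] at hi
    exact one_ne_zero (neg_eq_zero.1 hi)
  have h20 : (2 : ZMod p) ≠ 0 := by
    intro h0
    have : ((2 : ℕ) : ZMod p) = 0 := by exact_mod_cast h0
    rw [ZMod.natCast_eq_zero_iff] at this
    have h3 := (Nat.prime_dvd_prime_iff_eq hp.out Nat.prime_two).1 this
    rw [h3] at h4
    norm_num at h4
  obtain ⟨s, hs0, hs⟩ : ∃ s : ZMod p, s ≠ 0 ∧ (e : ZMod p) = s ^ 2 := by
    rcases he with rfl | rfl | rfl | rfl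
    · exact ⟨1, one_ne_zero, by norm_num⟩
    · exact ⟨i, hi0, by push_cast; rw [hi, sq]⟩
    · exact ⟨2, h20, by push_cast; norm_num⟩
    · refine ⟨2 * i, mul_ne_zero h20 hi0, ?_⟩
      push_cast
      rw [mul_pow, sq i, ← hi]
      norm_num
  obtain ⟨t, ht⟩ := h
  refine ⟨t / s, ?_⟩
  push_cast at ht
  rw [hs] at ht
  field_simp
  linear_combination ht

end odd

section two

lemma half_of_unit {r : ℚ_[2]} (hr : ‖r‖ = 1) : ‖r ^ 2 + 1‖ = 1 / 2 := by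
  let r' : ℤ_[2] := ⟨r, hr.le⟩
  have h1 : PadicInt.toZMod r' = 1 := by
    have h01 : ∀ z : ZMod 2, z = 0 ∨ z = 1 := by decide
    rcases h01 (PadicInt.toZMod r') with h | h
    · exfalso
      have h2 : r' ∈ RingHom.ker (PadicInt.toZMod (p := 2)) := h
      rw [PadicInt.ker_toZMod, IsLocalRing.mem_maximalIdeal, mem_nonunits_iff, PadicInt.isUnit_iff] at h2
      exact h2 hr
    · exact h
  have h2 : r' - 1 ∈ RingHom.ker (PadicInt.toZMod (p := 2)) := by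
    rw [RingHom.mem_ker, map_sub, h1, map_one, sub_self]
  rw [PadicInt.ker_toZMod, PadicInt.maximalIdeal_eq_span_p, Ideal.mem_span_singleton] at h2
  obtain ⟨t, ht⟩ := h2
  have h3 : r = 1 + 2 * (t : ℚ_[2]) := by
    have := congrArg (fun w : ℤ_[2] => (w : ℚ_[2])) ht
    push_cast at this
    have h4 : r - 1 = 2 * (t : ℚ_[2]) := this
    linear_combination h4
  have h4 : r ^ 2 + 1 = 2 * ((1 + 2 * (t + t ^ 2) : ℤ_[2]) : ℚ_[2]) := by
    rw [h3]
    push_cast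
    have h2' : ((2 : ℤ_[2]) : ℚ_[2]) = 2 := rfl
    rw [h2']
    ring
  have h5 : ‖(2 : ℚ_[2])‖ = 1 / 2 := by
    have := Padic.norm_p (p := 2)
    rw [Nat.cast_ofNat] at this
    rw [this]
    norm_num
  have h6 : ‖(1 + 2 * (t + t ^ 2) : ℤ_[2])‖ = 1 := by
    rw [← PadicInt.isUnit_iff]
    by_contra hu
    have h7 : (1 + 2 * (t + t ^ 2) : ℤ_[2]) ∈ RingHom.ker (PadicInt.toZMod (p := 2)) := by
      rw [PadicInt.ker_toZMod, IsLocalRing.mem_maximalIdeal]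
      exact hu
    rw [RingHom.mem_ker, map_add, map_one, map_mul, map_ofNat] at h7
    have h8 : (2 : ZMod 2) = 0 := rfl
    rw [h8, zero_mul, add_zero] at h7
    exact one_ne_zero h7
  rw [h4, norm_mul, h5]
  rw [PadicInt.norm_def] at h6
  rw [h6, mul_one]

lemma neg_one_not_sq (s : ℚ_[2]) : s ^ 2 ≠ -1 := by
  intro h
  have h1 : ‖s‖ = 1 := by
    have : ‖s‖ ^ 2 = 1 := by rw [← norm_pow, h, norm_neg, norm_one]
    exact (pow_eq_one_iff_of_nonneg (norm_nonneg _) two_ne_zero).1 this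
  have h2 := half_of_unit h1
  rw [h, neg_add_cancel, norm_zero] at h2
  norm_num at h2

lemma norm8 {m : ℤ} (hm : m % 2 = 1) : ‖((8 * m : ℤ) : ℚ_[2])‖ = 1 / 8 := by
  push_cast
  rw [norm_mul]
  have h1 : ‖(m : ℚ_[2])‖ = 1 := by
    have := (Padic.norm_intCast_lt_one_iff (p := 2) (k := m)).not.2 (by push_cast; omega)
    exact le_antisymm (Padic.norm_int_le_one m) (not_lt.1 this)
  have h5 : ‖(2 : ℚ_[2])‖ = 1 / 2 := by
    have := Padic.norm_p (p := 2)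
    rw [Nat.cast_ofNat] at this
    rw [this]
    norm_num
  have h8 : (8 : ℚ_[2]) = 2 ^ 3 := by norm_num
  rw [h1, h8, norm_pow, h5]
  norm_num

lemma sq8 {m : ℤ} (hm : m % 2 = 1) (s : ℚ_[2]) : s ^ 2 ≠ ((8 * m : ℤ) : ℚ_[2]) := by
  intro h
  have h1 := congrArg norm h
  rw [norm8 hm, norm_pow] at h1
  have hs0 : s ≠ 0 := by
    rintro rfl
    rw [norm_zero] at h1
    norm_num at h1
  rw [Padic.norm_eq_zpow_neg_valuation hs0, ← zpow_natCast, ← zpow_mul] at h1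
  have h2 : (1 / 8 : ℝ) = ((2 : ℕ) : ℝ) ^ (-3 : ℤ) := by norm_num
  rw [h2] at h1
  have h3 := zpow_right_injective₀ (by norm_num) (by norm_num) h1
  push_cast at h3
  omega

/-- the impossibility at two -/
lemma no2 {m : ℤ} (hm : m % 2 = 1) {s : ℚ_[2]} (hs : s ≠ 0) (a : ℚ_[2]) :
    a ^ 2 + s ^ 4 ≠ ((8 * m : ℤ) : ℚ_[2]) := by
  intro h
  have h8 := norm8 hm
  have hsN := Padic.norm_eq_zpow_neg_valuation hs
  rcases le_or_gt 1 s.valuation with hk | hk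
  · -- `s` is divisible by two
    have h1 : ‖s ^ 4‖ < ‖((8 * m : ℤ) : ℚ_[2])‖ := by
      rw [h8, norm_pow, hsN, ← zpow_natCast, ← zpow_mul]
      have h2 : (1 / 8 : ℝ) = ((2 : ℕ) : ℝ) ^ (-3 : ℤ) := by norm_num
      rw [h2]
      apply zpow_lt_zpow_right₀ (by norm_num)
      push_cast
      omega
    have h3 : ‖a ^ 2‖ = 1 / 8 := by
      have h4 : a ^ 2 = ((8 * m : ℤ) : ℚ_[2]) + (-(s ^ 4)) := by rw [← h]; ring
      rw [h4, Padic.add_eq_max_of_ne (by rw [norm_neg]; exact h1.ne'), norm_neg,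
        max_eq_left h1.le, h8]
    have ha0 : a ≠ 0 := by
      rintro rfl
      rw [zero_pow two_ne_zero, norm_zero] at h3
      norm_num at h3
    rw [norm_pow, Padic.norm_eq_zpow_neg_valuation ha0, ← zpow_natCast, ← zpow_mul] at h3
    have h2 : (1 / 8 : ℝ) = ((2 : ℕ) : ℝ) ^ (-3 : ℤ) := by norm_num
    rw [h2] at h3
    have h5 := zpow_right_injective₀ (by norm_num) (by norm_num) h3
    push_cast at h5
    omega
  · have hs1 : 1 ≤ ‖s‖ := by
      rw [hsN]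
      apply one_le_zpow₀ (by norm_num)
      omega
    have hs4 : 1 ≤ ‖s ^ 4‖ := by
      rw [norm_pow]
      exact one_le_pow₀ hs1
    have h1 : ‖((8 * m : ℤ) : ℚ_[2])‖ < ‖s ^ 4‖ := by
      rw [h8]
      linarith
    have h3 : ‖a ^ 2‖ = ‖s ^ 4‖ := by
      have h4 : a ^ 2 = ((8 * m : ℤ) : ℚ_[2]) + (-(s ^ 4)) := by rw [← h]; ring
      rw [h4, Padic.add_eq_max_of_ne (by rw [norm_neg]; exact h1.ne), norm_neg,
        max_eq_right h1.le]
    have hs2 : s ^ 2 ≠ 0 := pow_ne_zero 2 hs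
    have h5 : ‖a / s ^ 2‖ = 1 := by
      have h6 : ‖a‖ ^ 2 = (‖s ^ 2‖) ^ 2 := by
        rw [← norm_pow, h3, ← norm_pow]
        congr 1
        ring
      have h7 : ‖a‖ = ‖s ^ 2‖ := by
        rwa [pow_left_inj₀ (norm_nonneg _) (norm_nonneg _) two_ne_zero] at h6
      rw [norm_div, h7, div_self (norm_ne_zero_iff.2 hs2)]
    have h6 := half_of_unit h5
    have h7 : (a / s ^ 2) ^ 2 + 1 = ((8 * m : ℤ) : ℚ_[2]) / s ^ 4 := by
      rw [← h]
      field_simp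
    rw [h7, norm_div, h8] at h6
    have h9 : 1 / 8 / ‖s ^ 4‖ ≤ 1 / 8 := by
      apply div_le_self (by norm_num) hs4
    rw [h6] at h9
    norm_num at h9

end two

end Pool.Agent.D0H76.Q4
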