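import Mathlib
import Pool.Agent.Y79.SG.Coc
import Pool.Agent.Y79.SG.Lot
import Pool.Agent.Y945.SG.Cob
import Pool.Agent.Y542.SGT.Tor
import Pool.Agent.Y587.SG.LG
import Pool.Agent.Y971.SG.Lq
import Pool.Agent.D0H76.Q4.Lin
import Pool.Agent.D0H76.Q4.Pad

/-!
Project Q4, descent over `ℚ`: the converse.
-/

set_option autoImplicit false
set_option linter.unusedSectionVars false

namespace Pool.Agent.D0H76.Q4

open NumberField IsDedekindDomain WeierstrassCurve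
open Pool.Agent.TH841.SH.D (Pt act Coch IsCoc IsCob LocTriv cob cob_zero Gal)
open Pool.Agent.TH841.NF.D (Sha shaCoc)
open Pool.Agent.Y698.SG.Cv (WF LocI coc)

lemma loc_map {L L' : Type} [Field L] [Field L'] (φ : L →+* L') {a b d : ℤ} (h : LocI L a b d) :
    LocI L' a b d := by
  obtain ⟨X, Y, r, h1, h2, h3⟩ := h
  refine ⟨φ X, φ Y, φ r, (map_ne_zero φ).2 h1, ?_, ?_⟩
  · have h4 := congrArg φ h2
    simp only [map_pow, map_add, map_sub, map_mul, map_ofNat, map_intCast] at h4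
    exact h4
  · have h4 := congrArg φ h3
    simp only [map_pow, map_mul, map_intCast] at h4
    exact h4

/-- a nontrivial element of `Ш[2]` from an everywhere locally trivial class -/
theorem sha_ex (K : Type) [Field K] [NumberField K] {a b d : ℤ} (hb : b ≠ 0)
    (hab : a ^ 2 - 4 * b ≠ 0) (nb : ¬ IsSquare (b : K)) (nab : ¬ IsSquare ((a : K) ^ 2 - 4 * b))
    (hd : d ≠ 0) (n1 : ¬ IsSquare (d : K)) (n2 : ¬ IsSquare ((d : K) * ((a : K) ^ 2 - 4 * b)))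
    (hl : ∀ v : HeightOneSpectrum (𝓞 K), LocI (v.adicCompletion K) a b d) (hr : LocI ℝ a b d)
    (hf : Finite (WF K a b).toAffine.Point) : ∃ x : Sha (WF K a b), x ≠ 0 ∧ x + x = 0 := by
  have hc : coc K hb d ∈ shaCoc (WF K a b) := by
    refine ⟨(Pool.Agent.Y79.SG.t_COC K a b hb d).1, fun v => ?_, fun v => ?_⟩
    · exact Pool.Agent.Y79.SG.Lot.t_LOT K a b hb d hab hd _ (hl v)
    · rcases v.isReal_or_isComplex with h | h
      · exact Pool.Agent.Y79.SG.Lot.t_LOT K a b hb d hab hd _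
          (loc_map (InfinitePlace.Completion.ringEquivRealOfIsReal h).symm.toRingHom hr)
      · exact Pool.Agent.Y79.SG.Lot.t_LOT K a b hb d hab hd _
          (loc_map (InfinitePlace.Completion.ringEquivComplexOfIsComplex h).symm.toRingHom
            (loc_map (algebraMap ℝ ℂ) hr))
  let N : AddSubgroup (shaCoc (WF K a b)) := (cob (WF K a b)).addSubgroupOf (shaCoc (WF K a b))
  let y : shaCoc (WF K a b) := ⟨coc K hb d, hc⟩
  refine ⟨(QuotientAddGroup.mk y : shaCoc (WF K a b) ⧸ N), ?_, ?_⟩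
  · intro h0
    have h0' : (QuotientAddGroup.mk y : shaCoc (WF K a b) ⧸ N) = 0 := h0
    rw [QuotientAddGroup.eq_zero_iff, AddSubgroup.mem_addSubgroupOf] at h0'
    rcases Pool.Agent.Y945.SG.t_COB K a b hb d hab hd h0' with h | h | h
    · exact n1 h
    · exact n2 h
    · rcases Pool.Agent.Y542.SGT.t_TOR K a b d hb hab nb nab hf h with h | h
      · exact n1 h
      · exact n2 h
  · have h5 : (QuotientAddGroup.mk (y + y) : shaCoc (WF K a b) ⧸ N) = 0 := by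
      rw [QuotientAddGroup.eq_zero_iff, AddSubgroup.mem_addSubgroupOf]
      have h6 : ((y + y : shaCoc (WF K a b)) : Coch (WF K a b)) = 0 :=
        (Pool.Agent.Y79.SG.t_COC K a b hb d).2
      rw [h6]
      exact cob_zero _
    exact h5

/-- the local points -/
theorem loc_all {m : ℕ} (hsq : Squarefree m) (h4 : ∀ p ∈ m.primeFactors, p % 4 = 1)
    {S : Finset ℕ} (hS : S ⊆ m.primeFactors)
    (h1 : ∀ p ∈ m.primeFactors, p ∉ S → nq p (∏ q ∈ S, q) = 0)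
    (h2 : ∀ p ∈ S, nq p (2 * ∏ q ∈ m.primeFactors \ S, q) = 0) (h8 : (∏ q ∈ S, q) % 8 = 1)
    (p : ℕ) [hp : Fact p.Prime] : LocI ℚ_[p] 0 (2 * m) ((∏ q ∈ S, q : ℕ) : ℤ) := by
  have hm0 : (m : ℤ) ≠ 0 := by exact_mod_cast hsq.ne_zero
  have hb : (2 * m : ℤ) ≠ 0 := mul_ne_zero two_ne_zero hm0
  have hab : (0 : ℤ) ^ 2 - 4 * (2 * m) ≠ 0 := by
    have : (0 : ℤ) ^ 2 - 4 * (2 * m) = -(8 * m) := by ring
    rw [this]
    exact neg_ne_zero.2 (mul_ne_zero (by norm_num) hm0)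
  have hpr : ∀ q ∈ m.primeFactors, q.Prime := fun q hq => Nat.prime_of_mem_primeFactors hq
  have hp2m : ∀ q ∈ m.primeFactors, q ≠ 2 := by
    intro q hq h
    have := h4 q hq
    rw [h] at this
    norm_num at this
  set d : ℕ := ∏ q ∈ S, q with hd
  set d' : ℕ := ∏ q ∈ m.primeFactors \ S, q with hd'
  have hmd : m = d' * d := by
    rw [hd, hd', Finset.prod_sdiff hS]
    exact (Nat.prod_primeFactors_of_squarefree hsq).symm
  have hd0 : (d : ℤ) ≠ 0 := by omega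
  obtain ⟨lq1, -⟩ := Pool.Agent.Y971.SG.Lq.t_LQ 0 (2 * m) d hb hab hd0
  by_cases hp2 : p = 2
  · subst hp2
    exact lq1 2 (Or.inl (Pool.Agent.Y971.SG.Lq.padic_sq2 (by omega)))
  by_cases hpS : p ∈ S
  · -- `p` divides `d`
    have hpm := hS hpS
    have h5 : IsSquare (((2 * d' : ℕ) : ℕ) : ZMod p) := nq_zero.1 (h2 p hpS)
    have hpd' : ¬ p ∣ d' := not_dvd_prod hp.out (fun q hq => hpr q (Finset.mem_sdiff.1 hq).1)
      (fun h => (Finset.mem_sdiff.1 h).2 hpS)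
    have h6 : ¬ (p : ℤ) ∣ (-4 * (2 * d') : ℤ) := by
      have e : (-4 * (2 * d') : ℤ) = -((2 ^ 3 * d' : ℕ) : ℤ) := by push_cast; ring
      rw [e, dvd_neg, Int.natCast_dvd_natCast]
      intro h
      rcases hp.out.dvd_mul.1 h with h | h
      · exact hp2 ((Nat.prime_dvd_prime_iff_eq hp.out Nat.prime_two).1 (hp.out.dvd_of_dvd_pow h))
      · exact hpd' h
    have h7 : IsSquare ((-4 * (2 * d') : ℤ) : ZMod p) := by
      obtain ⟨i, hi⟩ : IsSquare (-1 : ZMod p) := ZMod.exists_sq_eq_neg_one_iff.2 (by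
        have := h4 p hpm; omega)
      obtain ⟨t, ht⟩ := h5
      refine ⟨2 * i * t, ?_⟩
      push_cast at ht ⊢
      have e : 2 * i * t * (2 * i * t) = 4 * (i * i) * (t * t) := by ring
      rw [e, ← hi, ← ht]
      ring
    obtain ⟨s, hs⟩ := Pool.Agent.Y971.SG.Lq.padic_sq hp2 h6 h7
    refine lq1 p (Or.inr ⟨d * s, ?_⟩)
    have hmd' : (m : ℚ_[p]) = d' * d := by exact_mod_cast congrArg (Nat.cast : ℕ → ℚ_[p]) hmd
    push_cast at hs ⊢
    rw [hmd']
    linear_combination (d : ℚ_[p]) ^ 2 * hs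
  have hpd : ¬ (p : ℤ) ∣ (d : ℤ) := by
    rw [Int.natCast_dvd_natCast]
    exact not_dvd_prod hp.out (fun q hq => hpr q (hS hq)) hpS
  by_cases hpm : p ∈ m.primeFactors
  · have h5 : IsSquare (d : ZMod p) := nq_zero.1 (h1 p hpm hpS)
    exact lq1 p (Or.inl (Pool.Agent.Y971.SG.Lq.padic_sq hp2 hpd (by exact_mod_cast h5)))
  -- good reduction
  have hpm' : ¬ p ∣ m := fun h => hpm (Nat.mem_primeFactors.2 ⟨hp.out, h, hsq.ne_zero⟩)
  have h20 : (2 : ZMod p) ≠ 0 := Pool.Agent.Y587.SG.two_ne hp2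
  have hmz : (m : ZMod p) ≠ 0 := by rwa [Ne, ZMod.natCast_eq_zero_iff]
  have hdz : ((d : ℤ) : ZMod p) ≠ 0 := by rwa [Ne, ZMod.intCast_zmod_eq_zero_iff_dvd]
  have hbz : ((2 * m : ℤ) : ZMod p) ≠ 0 := by
    push_cast
    exact mul_ne_zero h20 hmz
  have hcz : ((0 : ℤ) : ZMod p) ^ 2 - 4 * ((2 * m : ℤ) : ZMod p) ≠ 0 := by
    push_cast
    have e : (0 : ZMod p) ^ 2 - 4 * (2 * m) = -(2 ^ 3 * m) := by ring
    rw [e]
    exact neg_ne_zero.2 (mul_ne_zero (pow_ne_zero 3 h20) hmz)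
  rcases quadraticChar_dichotomy hdz with hd1 | hd1
  · exact lq1 p (Or.inl (Pool.Agent.Y971.SG.Lq.padic_sq hp2 hpd
      ((quadraticChar_one_iff_isSquare hdz).1 hd1)))
  · rcases quadraticChar_dichotomy hcz with hc1 | hc1
    · exact Pool.Agent.Y587.SG.aux p 0 (2 * m) d hp2 hbz hc1 hd0 hd1
    · apply lq1 p
      right
      have h5 : IsSquare (((d : ℤ) * ((0 : ℤ) ^ 2 - 4 * (2 * m)) : ℤ) : ZMod p) := by
        have e : (((d : ℤ) * ((0 : ℤ) ^ 2 - 4 * (2 * m)) : ℤ) : ZMod p) =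
            ((d : ℤ) : ZMod p) * (((0 : ℤ) : ZMod p) ^ 2 - 4 * ((2 * m : ℤ) : ZMod p)) := by
          push_cast; ring
        rw [e, ← quadraticChar_one_iff_isSquare (mul_ne_zero hdz hcz), map_mul, hd1, hc1]
        norm_num
      have h6 : ¬ (p : ℤ) ∣ ((d : ℤ) * ((0 : ℤ) ^ 2 - 4 * (2 * m))) := by
        rw [← ZMod.intCast_zmod_eq_zero_iff_dvd]
        have e : (((d : ℤ) * ((0 : ℤ) ^ 2 - 4 * (2 * m)) : ℤ) : ZMod p) =
            ((d : ℤ) : ZMod p) * (((0 : ℤ) : ZMod p) ^ 2 - 4 * ((2 * m : ℤ) : ZMod p)) := by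
          push_cast; ring
        rw [e]
        exact mul_ne_zero hdz hcz
      have h7 := Pool.Agent.Y971.SG.Lq.padic_sq hp2 h6 h5
      exact_mod_cast h7

/-- **the converse** -/
theorem conv {m : ℕ} (hsq : Squarefree m) (h4 : ∀ p ∈ m.primeFactors, p % 4 = 1)
    (hdet : (mtQ m).det = 0) (hf : Finite (WF ℚ 0 (2 * m)).toAffine.Point) :
    ∃ x : Sha (WF ℚ 0 (2 * m)), x ≠ 0 ∧ x + x = 0 := by
  obtain ⟨S, hS, hne, h1, h2, h8⟩ := conv_lin h4 hdet
  have hm0 : (m : ℤ) ≠ 0 := by exact_mod_cast hsq.ne_zero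
  have hmpos : (0 : ℚ) < m := by exact_mod_cast Nat.pos_of_ne_zero hsq.ne_zero
  have hb : (2 * m : ℤ) ≠ 0 := mul_ne_zero two_ne_zero hm0
  have hab : (0 : ℤ) ^ 2 - 4 * (2 * m) ≠ 0 := by
    have : (0 : ℤ) ^ 2 - 4 * (2 * m) = -(8 * m) := by ring
    rw [this]
    exact neg_ne_zero.2 (mul_ne_zero (by norm_num) hm0)
  have hpr : ∀ q ∈ m.primeFactors, q.Prime := fun q hq => Nat.prime_of_mem_primeFactors hq
  set d : ℕ := ∏ q ∈ S, q with hd
  have hd0 : (d : ℤ) ≠ 0 := by omega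
  have hdpos : (0 : ℚ) < d := by
    have : 0 < d := by omega
    exact_mod_cast this
  -- squares
  have hsqr : ∀ n p : ℕ, p.Prime → p ∣ n → ¬ p ^ 2 ∣ n → ¬ IsSquare ((n : ℤ) : ℚ) := by
    intro n p hp hpn hpn2
    rintro ⟨s, hs⟩
    have : Fact p.Prime := ⟨hp⟩
    refine not_sq (p := p) (n := n) (by exact_mod_cast hpn) (by exact_mod_cast hpn2) (s : ℚ_[p]) ?_
    have h5 : (((n : ℤ) : ℚ) : ℚ_[p]) = ((s * s : ℚ) : ℚ_[p]) := by rw [hs]
    push_cast at h5 ⊢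
    rw [h5, sq]
  have hodd : ¬ 2 ∣ m := by
    intro h
    have := h4 2 (Nat.mem_primeFactors.2 ⟨Nat.prime_two, h, hsq.ne_zero⟩)
    norm_num at this
  have nb : ¬ IsSquare ((2 * m : ℤ) : ℚ) := by
    have := hsqr (2 * m) 2 Nat.prime_two ⟨m, rfl⟩ (by omega)
    exact_mod_cast this
  have nab : ¬ IsSquare (((0 : ℤ) : ℚ) ^ 2 - 4 * ((2 * m : ℤ) : ℚ)) := by
    rintro ⟨s, hs⟩
    push_cast at hs
    nlinarith [mul_self_nonneg s]
  have n1 : ¬ IsSquare ((d : ℤ) : ℚ) := by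
    obtain ⟨p, hpS⟩ := hne
    have hdm : d ∣ m := by
      have : (∏ q ∈ m.primeFactors \ S, q) * d = m := by
        rw [hd, Finset.prod_sdiff hS]
        exact Nat.prod_primeFactors_of_squarefree hsq
      exact ⟨_, by rw [mul_comm]; exact this.symm⟩
    have hdsq : Squarefree d := hsq.squarefree_of_dvd hdm
    refine hsqr d p (hpr p (hS hpS)) (Finset.dvd_prod_of_mem (fun q : ℕ => q) hpS) ?_
    intro h
    rw [sq] at h
    have := Nat.isUnit_iff.1 (hdsq p h)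
    exact (hpr p (hS hpS)).one_lt.ne' this
  have n2 : ¬ IsSquare (((d : ℤ) : ℚ) * (((0 : ℤ) : ℚ) ^ 2 - 4 * ((2 * m : ℤ) : ℚ))) := by
    rintro ⟨s, hs⟩
    push_cast at hs
    have : 0 < (d : ℚ) * (8 * m) := by positivity
    nlinarith [mul_self_nonneg s]
  have hloc := loc_all hsq h4 hS h1 h2 h8
  refine sha_ex ℚ hb hab nb nab hd0 n1 n2 (fun v => ?_) ?_ hf
  · have hpf : Fact ((Rat.HeightOneSpectrum.primesEquiv v : Nat.Primes) : ℕ).Prime :=
      ⟨(Rat.HeightOneSpectrum.primesEquiv v).2⟩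
    exact loc_map (Rat.HeightOneSpectrum.adicCompletion.padicEquiv
      v).symm.toAlgEquiv.toRingEquiv.toRingHom (hloc _)
  · exact (Pool.Agent.Y971.SG.Lq.t_LQ 0 (2 * m) d hb hab hd0).2 (by omega)

end Pool.Agent.D0H76.Q4
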