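import Mathlib
import Pool.Agent.Y715.Z.Loc
import Pool.Agent.Y682.Crv
import Pool.Agent.D0H76.Q4.Pad

/-!
Project Q4, descent over `ℚ`: the local conditions at the places of `ℚ`.
-/

set_option autoImplicit false
set_option linter.unusedSectionVars false

open NumberField IsDedekindDomain

namespace Pool.Agent.D0H76.Q4

open Pool.Agent.Y682 (S1 S2 vv vv_coe)
open Pool.Agent.Y715.Z (even1 cls1 hens_odd)

/-- the place of a prime number -/
noncomputable def vp (p : ℕ) (hp : p.Prime) : HeightOneSpectrum (𝓞 ℚ) :=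
  (Rat.HeightOneSpectrum.primesEquiv (R := 𝓞 ℚ)).symm ⟨p, hp⟩

theorem gen_vp (p : ℕ) (hp : p.Prime) : Rat.HeightOneSpectrum.natGenerator (vp p hp) = p := by
  have h := (Rat.HeightOneSpectrum.primesEquiv (R := 𝓞 ℚ)).apply_symm_apply ⟨p, hp⟩
  exact congrArg Subtype.val h

theorem mem_pow_iff (v : HeightOneSpectrum (𝓞 ℚ)) (m : ℤ) (k : ℕ) :
    ((m : ℤ) : 𝓞 ℚ) ∈ v.asIdeal ^ k ↔ (Rat.HeightOneSpectrum.natGenerator v : ℤ) ^ k ∣ m := by
  set e := Rat.IsIntegralClosure.intEquiv (𝓞 ℚ) with he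
  have h1 : (v.asIdeal ^ k).map e = Ideal.span {((Rat.HeightOneSpectrum.natGenerator v : ℤ)) ^ k} := by
    rw [Ideal.map_pow, ← Ideal.span_singleton_pow]
    congr 1
    exact (Rat.HeightOneSpectrum.span_natGenerator v).symm
  rw [← Ideal.apply_mem_of_equiv_iff (f := e), h1, Ideal.mem_span_singleton, map_intCast]
  rfl

theorem val_le_iff (p : ℕ) (hp : p.Prime) (m : ℤ) (k : ℕ) :
    (vp p hp).valuation ℚ (m : ℚ) ≤ WithZero.exp (-(k : ℤ)) ↔ (p : ℤ) ^ k ∣ m := by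
  have h := mem_pow_iff (vp p hp) m k
  rw [gen_vp] at h
  rw [← h, ← (vp p hp).intValuation_le_pow_iff_mem, ← (vp p hp).valuation_of_algebraMap (K := ℚ)]
  simp

theorem val_le (p : ℕ) (hp : p.Prime) (m : ℤ) : (vp p hp).valuation ℚ (m : ℚ) ≤ 1 := by
  have := (val_le_iff p hp m 0).mpr (by simp)
  simpa using this

lemma exp_sq {g : WithZero (Multiplicative ℤ)} (h : g ^ 2 = WithZero.exp (-1 : ℤ)) : False := by
  have h1 := congrArg WithZero.log h
  rw [WithZero.log_pow, WithZero.log_exp] at h1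
  have h2 : (2 : ℤ) * WithZero.log g = -1 := by
    rw [← h1]; simp
  omega

theorem exp_of {x : WithZero (Multiplicative ℤ)} (h1 : ¬ x ≤ WithZero.exp (-((2 : ℕ) : ℤ)))
    (h2 : x ≤ WithZero.exp (-((1 : ℕ) : ℤ))) : x = WithZero.exp (-1 : ℤ) := by
  have h0 : x ≠ 0 := by
    rintro rfl
    exact h1 zero_le
  rw [← WithZero.exp_log h0] at h1 h2 ⊢
  rw [WithZero.exp_le_exp] at h1 h2
  push_cast at h1 h2
  congr 1
  omega

theorem val_one {p : ℕ} (hp : p.Prime) {m : ℤ} (h : ¬ (p : ℤ) ∣ m) :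
    (vp p hp).valuation ℚ (m : ℚ) = 1 := by
  have h1 := (val_le_iff p hp m 1).not.2 (by rwa [pow_one])
  have h2 := val_le p hp m
  set x := (vp p hp).valuation ℚ (m : ℚ) with hx
  have h0 : x ≠ 0 := by
    intro h0
    rw [h0] at h1
    exact h1 zero_le
  rw [← WithZero.exp_log h0] at h1 h2 ⊢
  rw [WithZero.exp_le_exp] at h1
  rw [← WithZero.exp_zero, WithZero.exp_le_exp] at h2
  rw [← WithZero.exp_zero]
  congr 1
  push_cast at h1
  omega

theorem val_exp {p : ℕ} (hp : p.Prime) {m : ℤ} (h : (p : ℤ) ∣ m) (h2 : ¬ (p : ℤ) ^ 2 ∣ m) :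
    (vp p hp).valuation ℚ (m : ℚ) = WithZero.exp (-1 : ℤ) :=
  exp_of ((val_le_iff p hp m 2).not.2 h2) ((val_le_iff p hp m 1).2 (by rwa [pow_one]))

/-- the map to the `p`-adic numbers -/
noncomputable def ph (p : ℕ) (hp : p.Prime) [Fact p.Prime] : (vp p hp).adicCompletion ℚ →+* ℚ_[p] :=
  ((Padic.adicCompletionEquiv (𝓞 ℚ) ⟨p, hp⟩).symm.toAlgEquiv.toRingEquiv.toRingHom)

lemma ph_rat (p : ℕ) (hp : p.Prime) [Fact p.Prime] (b : ℚ) :
    ph p hp (algebraMap ℚ _ b) = (b : ℚ_[p]) := by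
  have := RingHom.congr_fun (RingHom.ext_rat ((ph p hp).comp (algebraMap ℚ _)) (algebraMap ℚ ℚ_[p])) b
  rw [RingHom.comp_apply] at this
  rw [this]
  exact eq_ratCast _ b

lemma S1_map {L L' : Type} [Field L] [Field L'] (φ : L →+* L') {A B m : L} (h : S1 A B m) :
    S1 (φ A) (φ B) (φ m) := by
  rcases h with h | h | ⟨h, y, hy⟩
  · left; rw [h, map_one]
  · right; left; rw [h]
  · right; right
    refine ⟨(map_ne_zero φ).2 h, φ y, ?_⟩
    rw [← map_pow, hy, map_mul, map_add, map_add, map_mul, map_pow]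

/-- the condition at the prime `p` -/
def LC (p : ℕ) (hp : p.Prime) (B b : ℚ) : Prop :=
  ∃ z m : (vp p hp).adicCompletion ℚ, z ≠ 0 ∧ algebraMap ℚ _ b * z ^ 2 = m ∧
    S1 0 (algebraMap ℚ _ B) m

lemma LC_padic {p : ℕ} {hp : p.Prime} [Fact p.Prime] {B b : ℚ} (h : LC p hp B b) :
    ∃ z m : ℚ_[p], z ≠ 0 ∧ (b : ℚ_[p]) * z ^ 2 = m ∧ S1 0 (B : ℚ_[p]) m := by
  obtain ⟨z, m, hz, hzm, hm⟩ := h
  refine ⟨ph p hp z, ph p hp m, (map_ne_zero _).2 hz, ?_, ?_⟩
  · rw [← hzm, map_mul, map_pow, ph_rat]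
  · have := S1_map (ph p hp) hm
    rwa [map_zero, ph_rat] at this

/-- the primes which do not divide `B` do not divide `d` -/
lemma not_dvd_of_LC {p : ℕ} {hp : p.Prime} {B d : ℤ} (hB : ¬ (p : ℤ) ∣ B) (hd : Squarefree d)
    {w b : ℚ} (hw : w ≠ 0) (hb : b = d * w ^ 2) (h : LC p hp B b) : ¬ (p : ℤ) ∣ d := by
  intro hpd
  obtain ⟨y, m, hy, hym, hm⟩ := h
  have hwD : vv (vp p hp) (algebraMap ℚ _ ((B : ℤ) : ℚ)) = 1 := by
    rw [vv_coe, val_one hp hB]
  obtain ⟨g, hg⟩ := even1 _ hwD hm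
  have hvy : vv (vp p hp) y ≠ 0 := (Valuation.ne_zero_iff _).2 hy
  have hvw : (vp p hp).valuation ℚ w ≠ 0 := (Valuation.ne_zero_iff _).2 hw
  have hp2 : ¬ (p : ℤ) ^ 2 ∣ d := by
    rw [sq]
    intro h2
    have := hd _ h2
    rw [Int.isUnit_iff] at this
    have h3 := hp.one_lt
    omega
  rw [← hym, map_mul, vv_coe, map_pow, hb, map_mul, val_exp hp hpd hp2, map_pow] at hg
  apply exp_sq (g := g / ((vp p hp).valuation ℚ w * vv (vp p hp) y))
  rw [div_pow, ← hg, mul_pow]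
  field_simp

/-- the condition at an odd prime dividing `B` once -/
lemma cls_of_LC {p : ℕ} {hp : p.Prime} [Fact p.Prime] (h2 : p ≠ 2) {B : ℤ} (hB : (p : ℤ) ∣ B)
    (hB2 : ¬ (p : ℤ) ^ 2 ∣ B) {b : ℚ} (h : LC p hp B b) :
    ∃ c : ℚ_[p], c ≠ 0 ∧ ((b : ℚ_[p]) = c ^ 2 ∨ (b : ℚ_[p]) = B * c ^ 2) := by
  obtain ⟨y, m, hy, hym, hm⟩ := h
  have hB0 : B ≠ 0 := by
    rintro rfl
    exact hB2 (dvd_zero _)
  have h2' : (vp p hp).valuation ℚ 2 = 1 := by
    have := val_one hp (m := 2) (fun h => by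
      have h3 : p ∣ 2 := by exact_mod_cast h
      exact h2 ((Nat.prime_dvd_prime_iff_eq hp Nat.prime_two).1 h3))
    exact_mod_cast this
  have hwB : vv (vp p hp) (algebraMap ℚ _ ((B : ℤ) : ℚ)) = WithZero.exp (-1 : ℤ) := by
    rw [vv_coe, val_exp hp hB hB2]
  have hlt : WithZero.exp (-1 : ℤ) < (1 : WithZero (Multiplicative ℤ)) := by
    rw [← WithZero.exp_zero, WithZero.exp_lt_exp]; norm_num
  obtain ⟨c, hc, hmc⟩ := cls1 (vv (vp p hp)) (fun t ht => hens_odd (vp p hp) h2' t ht)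
    ((map_ne_zero _).2 (Int.cast_ne_zero.2 hB0)) (by rw [hwB]; exact hlt) (fun x hx => by
      rw [hwB]
      by_cases hx0 : vv (vp p hp) x = 0
      · rw [hx0]; exact zero_le
      · rw [← WithZero.exp_log hx0] at hx ⊢
        rw [← WithZero.exp_zero, WithZero.exp_lt_exp] at hx
        rw [WithZero.exp_le_exp]
        omega) hm
  have hy' : ph p hp y ≠ 0 := (map_ne_zero _).2 hy
  have hc' : ph p hp c ≠ 0 := (map_ne_zero _).2 hc
  have hym' : (b : ℚ_[p]) * (ph p hp y) ^ 2 = ph p hp m := by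
    rw [← hym, map_mul, map_pow, ph_rat]
  refine ⟨ph p hp c / ph p hp y, div_ne_zero hc' hy', ?_⟩
  rcases hmc with h3 | h3
  · left
    rw [h3, map_pow] at hym'
    field_simp
    exact hym'
  · right
    rw [h3, map_mul, map_pow, ph_rat] at hym'
    push_cast at hym'
    field_simp
    exact hym'

end Pool.Agent.D0H76.Q4
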