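import Mathlib
import Pool.Agent.D0H76.Q4.Lin
import Pool.Agent.D0H76.Q4.Loc

/-!
Project Q4, descent over `ℚ`: the Selmer groups.
-/

set_option autoImplicit false
set_option linter.unusedSectionVars false

open NumberField IsDedekindDomain

namespace Pool.Agent.D0H76.Q4

open Pool.Agent.Y682 (S1 S2 vv vv_coe)

/-- squarefree representatives -/
lemma exists_sqf {b : ℚ} (hb : b ≠ 0) :
    ∃ (d : ℤ) (w : ℚ), Squarefree d ∧ w ≠ 0 ∧ b = d * w ^ 2 := by
  set n : ℤ := b.num * b.den with hn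
  have hn0 : n ≠ 0 := mul_ne_zero (Rat.num_ne_zero.2 hb) (by exact_mod_cast b.den_ne_zero)
  obtain ⟨a, y, hay, ha⟩ := Nat.sq_mul_squarefree n.natAbs
  have hden : (b.den : ℚ) ≠ 0 := by exact_mod_cast b.den_ne_zero
  have hy0 : y ≠ 0 := by
    rintro rfl
    rw [zero_pow two_ne_zero, zero_mul] at hay
    exact hn0 (Int.natAbs_eq_zero.1 hay.symm)
  have hnb : (n : ℚ) = b * b.den ^ 2 := by
    rw [hn]
    push_cast
    rw [sq, ← mul_assoc, Rat.mul_den_eq_num]
  have hyq : (y : ℚ) ≠ 0 := by exact_mod_cast hy0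
  rcases Int.natAbs_eq n with h | h
  · refine ⟨a, y / b.den, Int.squarefree_natCast.2 ha, div_ne_zero hyq hden, ?_⟩
    have h1 : (n : ℚ) = y ^ 2 * a := by
      rw [h, ← hay]
      push_cast
      ring
    rw [hnb] at h1
    push_cast
    field_simp
    linear_combination h1
  · refine ⟨-a, y / b.den, ?_, div_ne_zero hyq hden, ?_⟩
    · rw [← Int.squarefree_natAbs, Int.natAbs_neg, Int.natAbs_natCast]
      exact ha
    · have h1 : (n : ℚ) = -(y ^ 2 * a) := by
        rw [h, ← hay]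
        push_cast
        ring
      rw [hnb] at h1
      push_cast
      field_simp
      linear_combination h1

variable {m : ℕ}

lemma m_odd (hsq : Squarefree m) (h4 : ∀ p ∈ m.primeFactors, p % 4 = 1) : ¬ 2 ∣ m := by
  intro h
  have := h4 2 (Nat.mem_primeFactors.2 ⟨Nat.prime_two, h, hsq.ne_zero⟩)
  norm_num at this

lemma sq_not_dvd {n : ℤ} (hn : Squarefree n) {p : ℕ} (hp : p.Prime) : ¬ (p : ℤ) ^ 2 ∣ n := by
  rw [sq]
  intro h2
  have := hn _ h2
  rw [Int.isUnit_iff] at this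
  have h3 := hp.one_lt
  omega

/-- the coefficient at an odd prime -/
lemma B_odd (hsq : Squarefree m) {B : ℤ} (hB : B = 2 * m ∨ B = -8 * m) {p : ℕ} (hp : p.Prime)
    (hp2 : p ≠ 2) : ((p : ℤ) ∣ B ↔ p ∣ m) ∧ ¬ (p : ℤ) ^ 2 ∣ B := by
  have hpi : Prime (p : ℤ) := Nat.prime_iff_prime_int.1 hp
  have hc2 : IsCoprime (p : ℤ) 2 := by
    have : Nat.Coprime p 2 := (Nat.coprime_primes hp Nat.prime_two).2 hp2
    exact_mod_cast Nat.isCoprime_iff_coprime.2 this
  have hc8 : IsCoprime (p : ℤ) 8 := by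
    have : (8 : ℤ) = 2 ^ 3 := by norm_num
    rw [this]
    exact hc2.pow_right
  have hm2 : ¬ (p : ℤ) ^ 2 ∣ (m : ℤ) := sq_not_dvd (Int.squarefree_natCast.2 hsq) hp
  rcases hB with rfl | rfl
  · refine ⟨⟨fun h => ?_, fun h => ?_⟩, fun h => hm2 ?_⟩
    · exact Int.natCast_dvd_natCast.1 (hc2.dvd_of_dvd_mul_left h)
    · exact (Int.natCast_dvd_natCast.2 h).mul_left _
    · exact (hc2.pow_left).dvd_of_dvd_mul_left h
  · have e : (-8 * m : ℤ) = -(8 * m) := by ring
    rw [e]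
    refine ⟨⟨fun h => ?_, fun h => ?_⟩, fun h => hm2 ?_⟩
    · exact Int.natCast_dvd_natCast.1 (hc8.dvd_of_dvd_mul_left ((dvd_neg).1 h))
    · exact (dvd_neg).2 ((Int.natCast_dvd_natCast.2 h).mul_left _)
    · exact (hc8.pow_left).dvd_of_dvd_mul_left ((dvd_neg).1 h)

/-- **the Selmer groups** -/
theorem sel (hsq : Squarefree m) (h4 : ∀ p ∈ m.primeFactors, p % 4 = 1) (hdet : (mtQ m).det ≠ 0)
    {B : ℤ} (hB : B = 2 * m ∨ B = -8 * m) {b : ℚ} (hb : b ≠ 0)
    (h : ∀ (p : ℕ) (hp : p.Prime), LC p hp B b) :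
    ∃ c : ℚ, c ≠ 0 ∧ (b = c ^ 2 ∨ b = -c ^ 2 ∨ b = 2 * m * c ^ 2 ∨ b = -(2 * m * c ^ 2)) := by
  classical
  obtain ⟨d, w, hd, hw, hbd⟩ := exists_sqf hb
  have hm0 : m ≠ 0 := hsq.ne_zero
  have hodd := m_odd hsq h4
  set D : ℕ := d.natAbs with hD
  have hDsq : Squarefree D := Int.squarefree_natAbs.2 hd
  have hD0 : D ≠ 0 := hDsq.ne_zero
  have hdvd : ∀ p : ℕ, p ∣ D ↔ (p : ℤ) ∣ d := fun p => by rw [hD, Int.natCast_dvd]
  set S : Finset ℕ := m.primeFactors.filter (fun q => q ∣ D) with hS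
  have hSm : S ⊆ m.primeFactors := Finset.filter_subset _ _
  obtain ⟨c, hc⟩ : ∃ c : ℕ, c = if 2 ∣ D then 1 else 0 := ⟨_, rfl⟩
  have hc01 : c = 0 ∨ c = 1 := by
    rw [hc]; split_ifs <;> simp
  have hpr : ∀ q ∈ m.primeFactors, q.Prime := fun q hq => Nat.prime_of_mem_primeFactors hq
  have hp2 : ∀ q ∈ m.primeFactors, q ≠ 2 := by
    intro q hq h
    have := h4 q hq
    rw [h] at this
    norm_num at this
  have hmprod : ∏ q ∈ m.primeFactors, q = m := Nat.prod_primeFactors_of_squarefree hsq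
  have hDprod : D = 2 ^ c * ∏ q ∈ S, q := by
    have h1 : ∏ q ∈ D.primeFactors, q = D := Nat.prod_primeFactors_of_squarefree hDsq
    have h2 : D.primeFactors = (if 2 ∣ D then {2} else ∅) ∪ S := by
      ext q
      rw [Finset.mem_union, Nat.mem_primeFactors]
      constructor
      · rintro ⟨hq, hqD, -⟩
        by_cases hq2 : q = 2
        · left
          subst hq2
          rw [if_pos hqD]
          exact Finset.mem_singleton_self _
        · right
          rw [hS, Finset.mem_filter, Nat.mem_primeFactors]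
          refine ⟨⟨hq, ?_, hm0⟩, hqD⟩
          by_contra hqm
          exact not_dvd_of_LC (hp := hq) (fun h' => hqm ((B_odd hsq hB hq hq2).1.1 h')) hd hw hbd
            (h q hq) ((hdvd q).1 hqD)
      · rintro (h3 | h3)
        · split_ifs at h3 with h5
          · rw [Finset.mem_singleton] at h3
            rw [h3]
            exact ⟨Nat.prime_two, h5, hD0⟩
          · exact absurd h3 (Finset.notMem_empty _)
        · rw [hS, Finset.mem_filter] at h3
          exact ⟨hpr q h3.1, h3.2, hD0⟩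
    have hdis : Disjoint (if 2 ∣ D then ({2} : Finset ℕ) else ∅) S := by
      split_ifs
      · rw [Finset.disjoint_singleton_left]
        intro h3
        exact hp2 2 (hSm h3) rfl
      · exact Finset.disjoint_empty_left _
    rw [← h1, h2, Finset.prod_union hdis, hc]
    congr 1
    split_ifs
    · rw [Finset.prod_singleton, pow_one]
    · rw [Finset.prod_empty, pow_zero]
  set T : Finset ℕ := m.primeFactors \ S with hT
  set d' : ℕ := 2 ^ (1 - c) * ∏ q ∈ T, q with hd'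
  have hDd' : 2 * m = D * d' := by
    have e1 : (∏ q ∈ T, q) * ∏ q ∈ S, q = m := by rw [hT, Finset.prod_sdiff hSm, hmprod]
    have e2 : 2 ^ c * 2 ^ (1 - c) = 2 := by
      rcases hc01 with rfl | rfl <;> norm_num
    calc 2 * m = (2 ^ c * 2 ^ (1 - c)) * ((∏ q ∈ T, q) * ∏ q ∈ S, q) := by rw [e1, e2]
      _ = (2 ^ c * ∏ q ∈ S, q) * d' := by rw [hd']; ring
      _ = D * d' := by rw [← hDprod]
  obtain ⟨σ, hσ, hdσ⟩ : ∃ σ : ℤ, (σ = 1 ∨ σ = -1) ∧ d = σ * D := by
    rcases Int.natAbs_eq d with h1 | h1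
    · exact ⟨1, Or.inl rfl, by rw [one_mul]; exact h1⟩
    · exact ⟨-1, Or.inr rfl, by rw [neg_one_mul]; exact h1⟩
  obtain ⟨ε, hε, hBε⟩ : ∃ ε : ℤ, (ε = 1 ∨ ε = -4) ∧ B = ε * (2 * m) := by
    rcases hB with h1 | h1
    · exact ⟨1, Or.inl rfl, by rw [h1]; ring⟩
    · exact ⟨-4, Or.inr rfl, by rw [h1]; ring⟩
  have hσ2 : σ * σ = 1 := by rcases hσ with rfl | rfl <;> norm_num
  -- the local conditions
  have key1 : ∀ p ∈ m.primeFactors, p ∉ S → nq p (2 ^ c * ∏ q ∈ S, q) = 0 := by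
    intro p hp hpS
    have hpp := hpr p hp
    have : Fact p.Prime := ⟨hpp⟩
    have hpm : p ∣ m := Nat.dvd_of_mem_primeFactors hp
    have hpD : ¬ p ∣ D := fun h1 => hpS (by rw [hS, Finset.mem_filter]; exact ⟨hp, h1⟩)
    have hpd : ¬ (p : ℤ) ∣ d := fun h1 => hpD ((hdvd p).2 h1)
    obtain ⟨hB1, hB2⟩ := B_odd hsq hB hpp (hp2 p hp)
    obtain ⟨c₀, hc₀, h1⟩ := cls_of_LC (hp2 p hp) (hB1.2 hpm) hB2 (h p hpp)
    have hwp : (w : ℚ_[p]) ≠ 0 := by exact_mod_cast hw
    have hbp : (b : ℚ_[p]) = d * (w : ℚ_[p]) ^ 2 := by rw [hbd]; push_cast; ring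
    rw [← hDprod, nq_zero]
    rcases h1 with h1 | h1
    · have h3 : (d : ℚ_[p]) = (c₀ / w) ^ 2 := by
        rw [div_pow, ← h1, hbp]
        field_simp
      have h5 := sq_mod hpd h3
      have h6 := sqm (h4 p hp) (e := σ) (by rcases hσ with rfl | rfl <;> simp) (n := (D : ℤ))
        (by rw [← hdσ]; exact h5)
      exact_mod_cast h6
    · exfalso
      have h3 : ((d * B : ℤ) : ℚ_[p]) = (B * c₀ / w) ^ 2 := by
        have h6 : (d : ℚ_[p]) * (w : ℚ_[p]) ^ 2 = B * c₀ ^ 2 := by rw [← hbp, h1]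
        push_cast
        field_simp
        linear_combination (B : ℚ_[p]) * h6
      refine not_sq (p := p) ((hB1.2 hpm).mul_left _) ?_ _ h3
      intro h6
      have hcop : IsCoprime ((p : ℤ) ^ 2) d :=
        ((Nat.prime_iff_prime_int.1 hpp).coprime_iff_not_dvd.2 hpd).pow_left
      exact hB2 (hcop.dvd_of_dvd_mul_left h6)
  have key2 : ∀ p ∈ S, nq p (2 ^ (1 - c) * ∏ q ∈ m.primeFactors \ S, q) = 0 := by
    intro p hpS
    have hp := hSm hpS
    have hpp := hpr p hp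
    have : Fact p.Prime := ⟨hpp⟩
    have hpm : p ∣ m := Nat.dvd_of_mem_primeFactors hp
    have hpD : p ∣ D := (Finset.mem_filter.1 hpS).2
    have hpd : (p : ℤ) ∣ d := (hdvd p).1 hpD
    have hpd2 : ¬ (p : ℤ) ^ 2 ∣ d := sq_not_dvd hd hpp
    obtain ⟨hB1, hB2⟩ := B_odd hsq hB hpp (hp2 p hp)
    obtain ⟨c₀, hc₀, h1⟩ := cls_of_LC (hp2 p hp) (hB1.2 hpm) hB2 (h p hpp)
    have hwp : (w : ℚ_[p]) ≠ 0 := by exact_mod_cast hw
    have hbp : (b : ℚ_[p]) = d * (w : ℚ_[p]) ^ 2 := by rw [hbd]; push_cast; ring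
    rw [← hT, ← hd', nq_zero]
    rcases h1 with h1 | h1
    · exfalso
      have h3 : (d : ℚ_[p]) = (c₀ / w) ^ 2 := by
        rw [div_pow, ← h1, hbp]
        field_simp
      exact not_sq hpd hpd2 _ h3
    · have hDp : (D : ℚ_[p]) ≠ 0 := by exact_mod_cast hD0
      have h6 : (σ : ℚ_[p]) * D * (w : ℚ_[p]) ^ 2 = (ε * (D * d')) * c₀ ^ 2 := by
        have e1 : (d : ℚ_[p]) = (σ : ℚ_[p]) * D := by rw [hdσ]; push_cast; ring
        have e2 : (B : ℚ_[p]) = (ε : ℚ_[p]) * (D * d') := by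
          have e3 : (B : ℤ) = ε * ((D * d' : ℕ) : ℤ) := by rw [hBε, ← hDd']; push_cast; ring
          rw [e3]; push_cast; ring
        rw [← e1, ← e2, ← hbp, h1]
      have h7 : (σ : ℚ_[p]) * (w : ℚ_[p]) ^ 2 = ε * d' * c₀ ^ 2 := by
        apply mul_left_cancel₀ hDp
        linear_combination h6
      have hσp : (σ : ℚ_[p]) * σ = 1 := by exact_mod_cast hσ2
      have h8 : (((σ * ε) * d' : ℤ) : ℚ_[p]) = (w / c₀) ^ 2 := by
        push_cast
        field_simp
        linear_combination (-(σ : ℚ_[p])) * h7 + (w : ℚ_[p]) ^ 2 * hσp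
      have hpd' : ¬ p ∣ d' := by
        rw [hd']
        intro h9
        rcases hpp.dvd_mul.1 h9 with h10 | h10
        · exact hp2 p hp ((Nat.prime_dvd_prime_iff_eq hpp Nat.prime_two).1 (hpp.dvd_of_dvd_pow h10))
        · refine not_dvd_prod hpp (fun q hq => hpr q (Finset.mem_sdiff.1 hq).1) ?_ h10
          exact fun h11 => (Finset.mem_sdiff.1 h11).2 hpS
      have he : σ * ε = 1 ∨ σ * ε = -1 ∨ σ * ε = 4 ∨ σ * ε = -4 := by
        rcases hσ with rfl | rfl <;> rcases hε with rfl | rfl <;> norm_num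
      have hpe : ¬ (p : ℤ) ∣ (σ * ε) * d' := by
        intro h9
        rcases (Nat.prime_iff_prime_int.1 hpp).dvd_or_dvd h9 with h10 | h10
        · have h11 : (p : ℤ) ∣ 4 := by
            rcases he with h12 | h12 | h12 | h12 <;> rw [h12] at h10
            · exact h10.trans (by norm_num)
            · exact h10.trans (by norm_num)
            · exact h10
            · exact h10.trans (by norm_num)
          have h12 : p ∣ 2 ^ 2 := by exact_mod_cast h11
          exact hp2 p hp ((Nat.prime_dvd_prime_iff_eq hpp Nat.prime_two).1 (hpp.dvd_of_dvd_pow h12))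
        · exact hpd' (by exact_mod_cast h10)
      have h9 := sqm (h4 p hp) he (sq_mod hpe h8)
      exact_mod_cast h9
  have hdq : (d : ℚ) = σ * D := by rw [hdσ]; push_cast; ring
  refine ⟨w, hw, ?_⟩
  rcases sel_lin h4 hdet hc01 hSm key1 key2 with ⟨h1, h2⟩ | ⟨h1, h2⟩
  · have hD1 : D = 1 := by rw [hDprod, h1, h2, Finset.prod_empty]; norm_num
    rw [hD1, Nat.cast_one, mul_one] at hdq
    rw [hbd, hdq]
    rcases hσ with rfl | rfl
    · left; push_cast; ring
    · right; left; push_cast; ring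
  · have hD1 : D = 2 * m := by rw [hDprod, h1, h2, hmprod]; norm_num
    rw [hD1] at hdq
    rw [hbd, hdq]
    push_cast
    rcases hσ with rfl | rfl
    · right; right; left; push_cast; ring
    · right; right; right; push_cast; ring

end Pool.Agent.D0H76.Q4
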