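import Mathlib
import Pool.Agent.Y682.ZS
import Pool.Agent.D0H76.Q4.Sel

/-!
Project Q4, descent over `ℚ`: the 2-torsion of Sha and the rank.
-/

set_option autoImplicit false
set_option linter.unusedSectionVars false

open NumberField IsDedekindDomain

namespace Pool.Agent.D0H76.Q4

open Pool.Agent.Y682 (S1 S2 vv vv_coe IsT Zc Zc_card Zc_lower LL1 LL2 Sq quot_eq MP)

variable {m : ℕ}

/-- the first Selmer group -/
theorem sel1 (hsq : Squarefree m) (h4 : ∀ p ∈ m.primeFactors, p % 4 = 1) (hdet : (mtQ m).det ≠ 0)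
    {b : ℚ} (hb : b ≠ 0) (h : LL1 (0 : ℚ) (2 * m) b) : ∃ c : ℚ, c ≠ 0 ∧ (b = c ^ 2 ∨ b = 2 * m * c ^ 2) := by
  have hm0 : (0 : ℚ) < m := by exact_mod_cast Nat.pos_of_ne_zero hsq.ne_zero
  have hpos : 0 < b := by
    have := Pool.Agent.Y682.pos_b1 (A := (0 : ℚ)) (B := 2 * m) (b := b) h.2 (algebraMap ℚ ℝ) (by
      show (0 : ℝ) < algebraMap ℚ ℝ (2 * m)
      rw [eq_ratCast]
      exact_mod_cast mul_pos two_pos hm0) (Or.inr (by
      rw [map_zero, zero_pow two_ne_zero, eq_ratCast]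
      have : (0 : ℚ) < 4 * (2 * m) := by linarith
      exact_mod_cast this))
    rw [eq_ratCast] at this
    exact_mod_cast this
  obtain ⟨c, hc, h1⟩ := sel hsq h4 hdet (B := 2 * m) (Or.inl rfl) hb (fun p hp => by
    have := h.1 (vp p hp)
    rw [map_zero] at this
    have e : ((2 * m : ℤ) : ℚ) = 2 * (m : ℚ) := by push_cast; ring
    unfold LC
    rw [e]
    exact this)
  have hc2 : 0 < c ^ 2 := by positivity
  refine ⟨c, hc, ?_⟩
  rcases h1 with h1 | h1 | h1 | h1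
  · exact Or.inl h1
  · exfalso
    rw [h1] at hpos
    linarith
  · exact Or.inr h1
  · exfalso
    rw [h1] at hpos
    have : 0 < 2 * m * c ^ 2 := by positivity
    linarith

/-- the second condition at two -/
lemma no_neg {M : ℤ} (hM : M % 2 = 1) {s : ℚ_[2]} (hs : s ≠ 0) :
    ¬ S1 (0 : ℚ_[2]) ((-(8 * M) : ℤ) : ℚ_[2]) (-s ^ 2) := by
  rintro (h | h | ⟨-, y, hy⟩)
  · exact neg_one_not_sq s (by linear_combination -h)
  · apply sq8 hM s
    push_cast at h ⊢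
    linear_combination -h
  · apply no2 hM hs (y / s)
    push_cast at hy ⊢
    field_simp
    linear_combination hy

/-- multiplication by the class of `B` -/
lemma S1_inv {L : Type} [Field L] {B m : L} (hB : B ≠ 0) (h : S1 0 B m) : S1 0 B (B / m) := by
  rcases h with h | h | ⟨h, y, hy⟩
  · right; left; rw [h, div_one]
  · left; rw [h, div_self hB]
  · right; right
    refine ⟨div_ne_zero hB h, B * y / m ^ 2, ?_⟩
    rw [div_pow, mul_pow, hy]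
    field_simp
    ring

/-- the second Selmer group -/
theorem sel2 (hsq : Squarefree m) (h4 : ∀ p ∈ m.primeFactors, p % 4 = 1) (hdet : (mtQ m).det ≠ 0)
    {b : ℚ} (hb : b ≠ 0) (h : LL2 (0 : ℚ) (2 * m) b) :
    ∃ c : ℚ, c ≠ 0 ∧ (b = c ^ 2 ∨ b = -(2 * m * c ^ 2)) := by
  have hm0 : (m : ℚ) ≠ 0 := by exact_mod_cast hsq.ne_zero
  have hLC : ∀ (p : ℕ) (hp : p.Prime), LC p hp ((-8 * m : ℤ) : ℚ) b := by
    intro p hp
    obtain ⟨z, n, hz, hzn, hn⟩ := h.1 (vp p hp)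
    refine ⟨z, n, hz, hzn, ?_⟩
    have e : algebraMap ℚ ((vp p hp).adicCompletion ℚ) ((-8 * m : ℤ) : ℚ) =
        algebraMap ℚ _ 0 ^ 2 - 4 * algebraMap ℚ _ (2 * (m : ℚ)) := by
      push_cast
      simp only [map_mul, map_neg, map_ofNat, map_natCast, map_zero]
      ring
    rcases hn with hn | hn | ⟨hn, y, hy⟩
    · exact Or.inl hn
    · exact Or.inr (Or.inl (by rw [e]; exact hn))
    · refine Or.inr (Or.inr ⟨hn, y, ?_⟩)
      rw [e, hy, map_zero]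
      ring
  obtain ⟨c, hc, h1⟩ := sel hsq h4 hdet (B := -8 * m) (Or.inr rfl) hb hLC
  have hM : (m : ℤ) % 2 = 1 := by
    have := m_odd hsq h4
    omega
  have h2 : Fact (Nat.Prime 2) := ⟨Nat.prime_two⟩
  obtain ⟨z, n, hz, hzn, hn⟩ := LC_padic (hLC 2 Nat.prime_two)
  have hc2 : (c : ℚ_[2]) ≠ 0 := by exact_mod_cast hc
  have hm2 : (m : ℚ_[2]) ≠ 0 := by exact_mod_cast hsq.ne_zero
  have e : (((-8 * m : ℤ) : ℚ) : ℚ_[2]) = ((-(8 * (m : ℤ)) : ℤ) : ℚ_[2]) := by push_cast; ring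
  rw [e] at hn
  refine ⟨c, hc, ?_⟩
  rcases h1 with h1 | h1 | h1 | h1
  · exact Or.inl h1
  · exfalso
    apply no_neg hM (s := c * z) (mul_ne_zero hc2 hz)
    have : n = -((c : ℚ_[2]) * z) ^ 2 := by
      rw [← hzn, h1]
      push_cast
      ring
    rw [← this]
    exact hn
  · exfalso
    apply no_neg hM (s := 2 / (c * z)) (div_ne_zero two_ne_zero (mul_ne_zero hc2 hz))
    have h3 := S1_inv (by push_cast; simpa using hm2) hn
    have : ((-(8 * (m : ℤ)) : ℤ) : ℚ_[2]) / n = -(2 / ((c : ℚ_[2]) * z)) ^ 2 := by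
      rw [← hzn, h1]
      push_cast
      field_simp
      ring
    rw [← this]
    exact h3
  · exact Or.inr h1

section
variable {W : WeierstrassCurve ℚ}

/-- the count -/
theorem count (hsq : Squarefree m) (h4 : ∀ p ∈ m.primeFactors, p % 4 = 1) (hdet : (mtQ m).det ≠ 0)
    (hT : IsT W (0 : ℚ) (2 * m)) : Module.finrank ℤ (MP W) = 0 ∧
      ∀ x : Pool.Agent.TH841.NF.D.Sha W, 2 • x = 0 → x = 0 := by
  classical
  have hm0 : (m : ℚ) ≠ 0 := by exact_mod_cast hsq.ne_zero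
  have h2m : (2 * m : ℚ) ≠ 0 := mul_ne_zero two_ne_zero hm0
  have h2m' : (-(2 * m) : ℚ) ≠ 0 := neg_ne_zero.2 h2m
  have pair : ∀ D : ℚ, D ≠ 0 → ∃ U : Set (ℚˣ ⧸ Sq ℚ), Finite U ∧ Nat.card U ≤ 2 ∧
      (1 : ℚˣ ⧸ Sq ℚ) ∈ U ∧ ∀ b : ℚˣ, (∃ c : ℚ, c ≠ 0 ∧ ((b : ℚ) = c ^ 2 ∨ (b : ℚ) = D * c ^ 2)) →
        (b : ℚˣ ⧸ Sq ℚ) ∈ U := by
    intro D hD0
    let U : Set (ℚˣ ⧸ Sq ℚ) := {(1 : ℚˣ ⧸ Sq ℚ), ((Units.mk0 D hD0 : ℚˣ) : ℚˣ ⧸ Sq ℚ)}
    have hUf : U.Finite := Set.toFinite U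
    refine ⟨U, hUf.to_subtype, ?_, Or.inl rfl, ?_⟩
    · have h1 : U.ncard ≤ 2 := by
        refine (Set.ncard_insert_le _ _).trans ?_
        rw [Set.ncard_singleton]
      exact h1
    · rintro b ⟨c, hc0, hc⟩
      rcases hc with hc | hc
      · left
        have h1 : (1 : ℚˣ ⧸ Sq ℚ) = ((1 : ℚˣ) : ℚˣ ⧸ Sq ℚ) := rfl
        rw [h1, eq_comm, quot_eq]
        refine ⟨Units.mk0 c hc0, Units.ext ?_⟩
        rw [Units.val_mul, Units.val_one, one_mul, Units.val_pow_eq_pow_val, Units.val_mk0, hc]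
      · right
        show (b : ℚˣ ⧸ Sq ℚ) = ((Units.mk0 D hD0 : ℚˣ) : ℚˣ ⧸ Sq ℚ)
        rw [eq_comm, quot_eq]
        refine ⟨Units.mk0 c hc0, Units.ext ?_⟩
        rw [Units.val_mul, Units.val_pow_eq_pow_val, Units.val_mk0, Units.val_mk0, hc]
  obtain ⟨U, hUf, hU2, hU1, hU⟩ := pair _ h2m
  obtain ⟨V, hVf, hV2, hV1, hV⟩ := pair _ h2m'
  have H1 : ∀ b : ℚˣ, LL1 (0 : ℚ) (2 * m) (b : ℚ) → (b : ℚˣ ⧸ Sq ℚ) ∈ U := fun b hb =>
    hU b (sel1 hsq h4 hdet b.ne_zero hb)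
  have H2 : ∀ b : ℚˣ, LL2 (0 : ℚ) (2 * m) (b : ℚ) → (b : ℚˣ ⧸ Sq ℚ) ∈ V := fun b hb => by
    apply hV b
    obtain ⟨c, hc, h1⟩ := sel2 hsq h4 hdet b.ne_zero hb
    refine ⟨c, hc, ?_⟩
    rcases h1 with h1 | h1
    · exact Or.inl h1
    · exact Or.inr (by rw [h1]; ring)
  obtain ⟨hf, hc⟩ := Zc_card hT (U := U) (V := V) hV1 H1 H2
  obtain ⟨h3, h4'⟩ := Zc_lower hT
  have h6 : Nat.card (Zc W) ≤ 4 := hc.trans (by nlinarith)
  have h8 := h4'.trans h6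
  have hne : Nonempty {x : Pool.Agent.TH841.NF.D.Sha W // 2 • x = 0} := ⟨⟨0, smul_zero _⟩⟩
  have h9 : 1 ≤ Nat.card {x : Pool.Agent.TH841.NF.D.Sha W // 2 • x = 0} := Nat.card_pos
  have h7 : 1 ≤ 2 ^ (Module.finrank ℤ (MP W)) := Nat.one_le_two_pow
  constructor
  · by_contra hr
    have h10 : 2 ≤ 2 ^ (Module.finrank ℤ (MP W)) := by
      calc 2 = 2 ^ 1 := (pow_one 2).symm
        _ ≤ 2 ^ (Module.finrank ℤ (MP W)) := Nat.pow_le_pow_right two_pos (Nat.pos_of_ne_zero hr)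
    nlinarith
  · have h5 : Nat.card {x : Pool.Agent.TH841.NF.D.Sha W // 2 • x = 0} ≤ 1 := by nlinarith
    have h6 : Subsingleton {x : Pool.Agent.TH841.NF.D.Sha W // 2 • x = 0} :=
      Finite.card_le_one_iff_subsingleton.1 h5
    intro x hx
    have h7 := @Subsingleton.elim _ h6 ⟨x, hx⟩ ⟨0, smul_zero _⟩
    exact congrArg Subtype.val h7

/-- the 2-primary part of Sha is trivial -/
theorem sha_pow (h2 : ∀ x : Pool.Agent.TH841.NF.D.Sha W, 2 • x = 0 → x = 0)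
    (n : ℕ) (x : Pool.Agent.TH841.NF.D.Sha W) (hx : 2 ^ n • x = 0) : x = 0 := by
  induction n with
  | zero => rwa [pow_zero, one_smul] at hx
  | succ n ih =>
    apply ih
    apply h2
    rw [smul_smul, mul_comm, ← pow_succ]
    exact hx

/-- rank zero -/
theorem fin_pts {A B : ℚ} (hT : IsT W A B) (h : Module.finrank ℤ (MP W) = 0) :
    Finite W.toAffine.Point := by
  have h1 : Module.Finite ℤ (MP W) := Pool.Agent.Y682.fg_MP hT
  have h2 : Module.IsTorsion ℤ (MP W) := Module.finrank_eq_zero_iff_isTorsion.1 h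
  have h3 : Finite (MP W) := Module.finite_of_fg_torsion (MP W) h2
  exact h3

end

end Pool.Agent.D0H76.Q4
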