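import Mathlib

/-!
Project Q4, descent over `ℚ`: the rational points of `y² = x³ + 2 m x`, if there are finitely many.
-/

set_option autoImplicit false

namespace Pool.Agent.D0H76.Q4

/-- `u⁴ + 2 m = w²` has no solutions with odd denominators -/
lemma den_even {m : ℕ} (hm : m % 2 = 1) {u w : ℚ} (h : u ^ 4 + 2 * m = w ^ 2) : u.den % 2 = 0 := by
  by_contra hden
  have hden' : u.den % 2 = 1 := by omega
  have hs0 : (u.den : ℚ) ≠ 0 := by exact_mod_cast u.den_ne_zero
  -- `t = w s²` is an integer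
  have h1 : (w * u.den ^ 2) ^ 2 = ((u.num ^ 4 + 2 * m * u.den ^ 4 : ℤ) : ℚ) := by
    have h2 : (u.num : ℚ) = u * u.den := (Rat.mul_den_eq_num u).symm
    push_cast
    rw [h2]
    linear_combination (-(u.den : ℚ) ^ 4) * h
  have h3 : ∃ t : ℤ, (t : ℚ) = w * u.den ^ 2 := by
    have h4 : IsIntegral ℤ ((w * u.den ^ 2) ^ 2) := by
      rw [h1]
      exact isIntegral_algebraMap (R := ℤ) (A := ℚ) (x := u.num ^ 4 + 2 * m * u.den ^ 4)
    obtain ⟨t, ht⟩ := IsIntegrallyClosed.exists_algebraMap_eq_of_isIntegral_pow (R := ℤ) two_pos h4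
    exact ⟨t, ht⟩
  obtain ⟨t, ht⟩ := h3
  rw [← ht] at h1
  have h5 : t ^ 2 = u.num ^ 4 + 2 * m * (u.den : ℤ) ^ 4 := by exact_mod_cast h1
  have h8 : (t : ZMod 4) ^ 2 = (u.num : ZMod 4) ^ 4 + 2 * (m : ZMod 4) * (u.den : ZMod 4) ^ 4 := by
    exact_mod_cast congrArg (Int.cast : ℤ → ZMod 4) h5
  have hz : ∀ k : ℕ, k % 2 = 1 → (k : ZMod 4) = 1 ∨ (k : ZMod 4) = 3 := by
    intro k hk
    have h : k % 4 = 1 ∨ k % 4 = 3 := by omega
    rcases h with h | h
    · left
      have := (ZMod.natCast_eq_natCast_iff' k 1 4).2 h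
      exact_mod_cast this
    · right
      have := (ZMod.natCast_eq_natCast_iff' k 3 4).2 h
      exact_mod_cast this
  have h9 := hz _ hden'
  have h10 := hz _ hm
  revert h8
  generalize (t : ZMod 4) = a
  generalize (u.num : ZMod 4) = b
  rcases h9 with h | h <;> rcases h10 with h' | h' <;> rw [h, h'] <;> revert a b <;> decide

lemma val_neg {u : ℚ} (h : u.den % 2 = 0) : padicValRat 2 u < 0 := by
  have hd : 2 ∣ u.den := Nat.dvd_of_mod_eq_zero h
  have hn : ¬ (2 : ℤ) ∣ u.num := by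
    intro h2
    have h3 : 2 ∣ u.num.natAbs := by
      have := Int.natAbs_dvd_natAbs.2 h2
      simpa using this
    have h4 := Nat.dvd_gcd h3 hd
    rw [u.reduced] at h4
    norm_num at h4
  rw [padicValRat_def]
  have h1 : padicValInt 2 u.num = 0 := padicValInt.eq_zero_of_not_dvd (by exact_mod_cast hn)
  have h2 : 1 ≤ padicValNat 2 u.den := one_le_padicValNat_of_dvd u.den_ne_zero hd
  rw [h1, Nat.cast_zero]
  omega

/-- doubling -/
lemma dbl {D x y : ℚ} (hy : y ≠ 0) (h : y ^ 2 = x ^ 3 + D * x) :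
    ((x ^ 2 - D) / (2 * y)) ^ 4 + D = ((x ^ 4 + 6 * D * x ^ 2 + D ^ 2) / (4 * y ^ 2)) ^ 2 := by
  have hx4 : (x ^ 2 - D) ^ 4 + 16 * D * (x ^ 3 + D * x) ^ 2 = (x ^ 4 + 6 * D * x ^ 2 + D ^ 2) ^ 2 := by
    ring
  have h4 : (4 * y ^ 2) ^ 2 ≠ 0 := pow_ne_zero 2 (mul_ne_zero four_ne_zero (pow_ne_zero 2 hy))
  rw [div_pow, div_pow, ← hx4, ← h]
  field_simp
  ring

/-- doubling makes the denominators larger -/
lemma grow {m : ℕ} {x y : ℚ} (hx : padicValRat 2 x < 0) (h : y ^ 2 = x ^ 3 + 2 * m * x) :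
    y ≠ 0 ∧ padicValRat 2 (((x ^ 2 - 2 * m) / (2 * y)) ^ 2) = padicValRat 2 x - 2 := by
  have hx0 : x ≠ 0 := by
    rintro rfl
    simp at hx
  have h2v : padicValRat 2 (x ^ 2) = 2 * padicValRat 2 x := by
    have := padicValRat.pow (p := 2) x (k := 2)
    exact_mod_cast this
  have hval : ∀ e : ℤ, e = 1 ∨ e = -1 → x ^ 2 + e * (2 * m) ≠ 0 ∧
      padicValRat 2 (x ^ 2 + e * (2 * m)) = 2 * padicValRat 2 x := by
    intro e he
    by_cases hm : (m : ℚ) = 0
    · rw [hm, mul_zero, mul_zero, add_zero, h2v]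
      exact ⟨pow_ne_zero 2 hx0, rfl⟩
    · have he0 : (e : ℚ) ≠ 0 := by rcases he with rfl | rfl <;> norm_num
      have hr : (e : ℚ) * (2 * m) ≠ 0 := mul_ne_zero he0 (mul_ne_zero two_ne_zero hm)
      have hv : 0 ≤ padicValRat 2 ((e : ℚ) * (2 * m)) := by
        have e1 : (e : ℚ) * (2 * m) = ((e * (2 * m) : ℤ) : ℚ) := by push_cast; ring
        rw [e1, padicValRat.of_int]
        exact Int.natCast_nonneg _
      have hlt : padicValRat 2 (x ^ 2) < padicValRat 2 ((e : ℚ) * (2 * m)) := by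
        rw [h2v]
        omega
      have hne : x ^ 2 + (e : ℚ) * (2 * m) ≠ 0 := by
        intro h0
        have h1 : x ^ 2 = -((e : ℚ) * (2 * m)) := by linear_combination h0
        rw [h1, padicValRat.neg] at hlt
        exact lt_irrefl _ hlt
      exact ⟨hne, by rw [padicValRat.add_eq_of_lt hne (pow_ne_zero 2 hx0) hr hlt, h2v]⟩
  obtain ⟨n1, v1⟩ := hval 1 (Or.inl rfl)
  obtain ⟨n2, v2⟩ := hval (-1) (Or.inr rfl)
  have e1 : y ^ 2 = x * (x ^ 2 + ((1 : ℤ) : ℚ) * (2 * m)) := by rw [h]; push_cast; ring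
  have hy0 : y ≠ 0 := by
    rintro rfl
    rw [zero_pow two_ne_zero] at e1
    exact mul_ne_zero hx0 n1 e1.symm
  refine ⟨hy0, ?_⟩
  have hvy : 2 * padicValRat 2 y = 3 * padicValRat 2 x := by
    have h3 := congrArg (padicValRat 2) e1
    rw [padicValRat.mul hx0 n1, v1, padicValRat.pow] at h3
    push_cast at h3
    linarith
  have e2 : x ^ 2 - 2 * (m : ℚ) = x ^ 2 + ((-1 : ℤ) : ℚ) * (2 * m) := by push_cast; ring
  have h22 : padicValRat 2 (2 : ℚ) = 1 := by
    have := padicValRat.self (p := 2) (by norm_num)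
    exact_mod_cast this
  rw [e2, padicValRat.pow,
    padicValRat.div n2 (mul_ne_zero two_ne_zero hy0), v2, padicValRat.mul two_ne_zero hy0, h22]
  push_cast
  linarith

/-- the points -/
theorem y_zero {m : ℕ} (hm : m % 2 = 1) (hfin : {x : ℚ | ∃ y, y ^ 2 = x ^ 3 + 2 * m * x}.Finite)
    {x y : ℚ} (h : y ^ 2 = x ^ 3 + 2 * m * x) : y = 0 := by
  by_contra hy
  have step : ∀ x y : ℚ, y ≠ 0 → y ^ 2 = x ^ 3 + 2 * m * x →
      ∃ y', y' ^ 2 = (((x ^ 2 - 2 * m) / (2 * y)) ^ 2) ^ 3 + 2 * m * ((x ^ 2 - 2 * m) / (2 * y)) ^ 2 := by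
    intro x y hy h
    have h1 := dbl hy h
    refine ⟨((x ^ 2 - 2 * m) / (2 * y)) * ((x ^ 4 + 6 * (2 * m) * x ^ 2 + (2 * m) ^ 2) / (4 * y ^ 2)), ?_⟩
    rw [mul_pow, ← h1]
    ring
  have h1 := val_neg (den_even hm (dbl hy h))
  set u : ℚ := (x ^ 2 - 2 * m) / (2 * y) with hu
  have hu0 : u ≠ 0 := by
    intro h0
    rw [h0] at h1
    simp at h1
  have hmem : u ^ 2 ∈ {x : ℚ | ∃ y, y ^ 2 = x ^ 3 + 2 * m * x} ∩ {x | padicValRat 2 x < 0} := by
    refine ⟨step x y hy h, ?_⟩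
    show padicValRat 2 (u ^ 2) < 0
    rw [padicValRat.pow]
    push_cast
    omega
  obtain ⟨a, ⟨⟨y1, hy1⟩, ha2⟩, hmin⟩ := Set.exists_min_image _ (padicValRat 2)
    (hfin.inter_of_left {x | padicValRat 2 x < 0}) ⟨_, hmem⟩
  have ha2' : padicValRat 2 a < 0 := ha2
  obtain ⟨g1, g2⟩ := grow ha2' hy1
  have h5 := hmin _ ⟨step a y1 g1 hy1, by
    show padicValRat 2 _ < 0
    rw [g2]
    omega⟩
  rw [g2] at h5
  omega

/-- the number of points -/
theorem card_pts {W : WeierstrassCurve ℚ} {m : ℕ} (hm : m % 2 = 1) (h1 : W.a₁ = 0) (h2 : W.a₂ = 0)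
    (h3 : W.a₃ = 0) (h4 : W.a₄ = 2 * m) (h6 : W.a₆ = 0) (hf : Finite W.toAffine.Point) :
    Nat.card W.toAffine.Point = 2 := by
  classical
  have hm0 : (0 : ℚ) < m := by
    have : 0 < m := by omega
    exact_mod_cast this
  have hΔ : W.Δ ≠ 0 := by
    have e : W.Δ = -64 * (2 * m) ^ 3 := by
      simp only [WeierstrassCurve.Δ, WeierstrassCurve.b₂, WeierstrassCurve.b₄, WeierstrassCurve.b₆,
        WeierstrassCurve.b₈, h1, h2, h3, h4, h6]
      ring
    rw [e]
    have : (0 : ℚ) < (2 * m) ^ 3 := by positivity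
    intro h
    linarith
  have heq : ∀ x y : ℚ, W.toAffine.Equation x y ↔ y ^ 2 = x ^ 3 + 2 * m * x := by
    intro x y
    rw [WeierstrassCurve.Affine.equation_iff]
    rw [h1, h2, h3, h4, h6]
    simp only [zero_mul, add_zero]
  have hns : W.toAffine.Nonsingular 0 0 := by
    rw [← WeierstrassCurve.Affine.equation_iff_nonsingular_of_Δ_ne_zero hΔ, heq]
    ring
  have hfin : {x : ℚ | ∃ y, y ^ 2 = x ^ 3 + 2 * m * x}.Finite := by
    let xc : W.toAffine.Point → ℚ := fun P => match P with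
      | .zero => 0
      | .some x _ _ => x
    refine (Set.finite_range xc).subset ?_
    rintro x ⟨y, hy⟩
    have hn : W.toAffine.Nonsingular x y := by
      rw [← WeierstrassCurve.Affine.equation_iff_nonsingular_of_Δ_ne_zero hΔ, heq]
      exact hy
    exact ⟨.some x y hn, rfl⟩
  have hx3 : ∀ x y : ℚ, W.toAffine.Nonsingular x y → y = 0 ∧ x = 0 := by
    intro x y hn
    have h5 := (heq x y).1 hn.1
    have hy := y_zero hm hfin h5
    refine ⟨hy, ?_⟩
    rw [hy] at h5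
    have h7 : x * (x ^ 2 + 2 * m) = 0 := by linear_combination -h5
    rcases mul_eq_zero.1 h7 with h8 | h8
    · exact h8
    · exfalso
      have : 0 ≤ x ^ 2 := sq_nonneg x
      linarith
  have hcard : Fintype.card (Option Unit) = 2 := by
    rw [Fintype.card_option, Fintype.card_unit]
  rw [← hcard, ← Nat.card_eq_fintype_card]
  refine Nat.card_congr
    { toFun := fun P => match P with
        | .zero => none
        | .some x y hn => some ()
      invFun := fun o => match o with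
        | none => .zero
        | some _ => .some 0 0 hns
      left_inv := ?_
      right_inv := ?_ }
  · rintro (_ | ⟨x, y, hn⟩)
    · rfl
    · obtain ⟨h3, h4⟩ := hx3 x y hn
      subst h3
      subst h4
      rfl
  · rintro (_ | x)
    · rfl
    · rfl

end Pool.Agent.D0H76.Q4
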