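import Pool.Agent.D0H10.Q4.StmC
import Pool.Agent.D0H76.Q4.Dsc
import Pool.Agent.D0H76.Q4.Pts
import Pool.Agent.D0H76.Q4.Conv

/-!
Project Q4, modules C2 (QSEL) and C3 (QCONV): descent over `ℚ`.
-/

set_option autoImplicit false

namespace Pool.Agent.D0H76.Q4

open Pool.Agent.D0H10.Q4 (S_QSEL S_QCONV Adm matQ cQ cZ)
open Pool.Agent.Y698.SG.Cv (WF)

lemma mat_eq (m : ℕ) : matQ m = mtQ m := rfl

lemma cQ_eq (m : ℕ) : cQ m = WF ℚ 0 (2 * m) := by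
  apply WeierstrassCurve.ext
  · show ((0 : ℤ) : ℚ) = 0
    norm_num
  · rfl
  · show ((0 : ℤ) : ℚ) = 0
    norm_num
  · rfl
  · show ((0 : ℤ) : ℚ) = 0
    norm_num

lemma cQ_isT {m : ℕ} (hm : m ≠ 0) : Pool.Agent.Y682.IsT (cQ m) (0 : ℚ) (2 * m) where
  h1 := by show ((0 : ℤ) : ℚ) = 0; norm_num
  h2 := by show ((0 : ℤ) : ℚ) = 0; norm_num
  h3 := by show ((0 : ℤ) : ℚ) = 0; norm_num
  h4 := by show ((2 * m : ℤ) : ℚ) = 2 * m; push_cast; ring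
  h6 := by show ((0 : ℤ) : ℚ) = 0; norm_num
  hB := mul_ne_zero two_ne_zero (by exact_mod_cast hm)
  hD := by
    have hm0 : (m : ℚ) ≠ 0 := by exact_mod_cast hm
    have e : (0 : ℚ) ^ 2 - 4 * (2 * m) = -(8 * m) := by ring
    rw [e]
    exact neg_ne_zero.2 (mul_ne_zero (by norm_num) hm0)

/-- **QSEL** -/
theorem qsel : S_QSEL := by
  intro m hm hdet
  have hm0 : m ≠ 0 := hm.1.ne_zero
  have hT := cQ_isT hm0
  obtain ⟨h1, h2⟩ := count hm.1 hm.2 hdet hT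
  have hodd : m % 2 = 1 := by
    have := m_odd hm.1 hm.2
    omega
  refine ⟨card_pts hodd hT.h1 hT.h2 hT.h3 hT.h4 hT.h6 (fin_pts hT h1), sha_pow h2⟩

/-- **QCONV** -/
theorem qconv : S_QCONV := by
  intro m hm hdet hf
  rw [cQ_eq] at hf ⊢
  obtain ⟨x, hx, h2⟩ := conv hm.1 hm.2 hdet hf
  exact ⟨x, by rw [two_smul]; exact h2, hx⟩

end Pool.Agent.D0H76.Q4
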