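import Pool.Agent.D0H76.Q4.KerO
import Pool.Agent.D0H76.Q4.Conv1

/-!
Project Q4, block D3, module CONVO.
-/

set_option autoImplicit false
set_option linter.unusedSectionVars false

open NumberField IsDedekindDomain

namespace Pool.Agent.D0H76.Q4.Two

open Pool.Agent.Y682 (vv vv_coe exists_sqrt)
open Pool.Agent.Y699
open Pool.Agent.D0H10.Q4 (rh)
open Pool.Agent.D0H43.Q4 (MB dO cO hO sl xl l1 cst S_CONVO)
open Pool.Agent.H304R2.EC.A1 (prim prim_mul)
open Pool.Agent.Y715.Z (em0 ph val_z val_one val_lt em0_ne em0_inj em0_apply exp_sq)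
open Pool.Agent.D0H92.Q4 (LocB WB sha_ex loc_one loc_two loc_good sq_of_qr em0_im)
open H385 (ZI RQ im1 nrm)

/-! ### The quadratic symbol of `1 + i` -/

lemma im_mod (n : ℕ) : (im1 : ZI) ^ n = im1 ^ (n % 4) := by
  conv_lhs => rw [← Nat.div_add_mod n 4, pow_add, pow_mul, im1_four, one_pow, one_mul]

lemma qr_l1 {π : ZI} (h : PP π) : qr π l1 = sg (xl π : ZMod 2) := by
  have h1 : q4 π l1 ^ 2 = (qr π l1 : ZI) := q4_sq h l1
  have h2 : (l1 : ZI) ^ 2 = -2 * (-im1) := by decide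
  rw [← q4_pow h, h2, q4_mul h, Pool.Agent.D0H77.Q4.sup π h, q4_unit h (by decide)] at h1
  have h3 : (-im1 : ZI) = im1 ^ 3 := by decide
  unfold rh at h1
  rw [h3, ← pow_mul, ← pow_add, im_mod] at h1
  have hn := nrm_cast π
  rw [Pool.Agent.H304R2.EC.A1.norm_def'] at hn
  obtain ⟨p1, p2⟩ := prim_odd h.prm
  rw [xl_mod h.prm]
  generalize nrm π = N at *
  obtain ⟨x, y⟩ := π
  simp only at *
  obtain ⟨k, rfl⟩ : ∃ k, y = 2 * k := ⟨y / 2, by omega⟩
  obtain ⟨m, hm⟩ : ∃ m, x = 1 - 2 * k + 4 * m := ⟨(x + 2 * k) / 4, by omega⟩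
  subst hm
  have hN : (N : ℤ) = 1 + 4 * (2 * k ^ 2 - k + 2 * m + 4 * (m ^ 2 - k * m)) := by
    have : (((N : ℕ) : ℤ)) = (1 - 2 * k + 4 * m) ^ 2 + (2 * k) ^ 2 := by exact_mod_cast hn
    rw [this]; ring
  have hk2 : ∃ w, k ^ 2 = k + 2 * w := by
    rcases Int.emod_two_eq_zero_or_one k with h5 | h5
    · obtain ⟨l, rfl⟩ : ∃ l, k = 2 * l := ⟨k / 2, by omega⟩
      exact ⟨2 * l ^ 2 - l, by ring⟩
    · obtain ⟨l, rfl⟩ : ∃ l, k = 2 * l + 1 := ⟨k / 2, by omega⟩
      exact ⟨2 * l ^ 2 + l, by ring⟩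
  obtain ⟨w, hw⟩ := hk2
  rw [hw] at hN
  generalize m ^ 2 - k * m = q at hN
  by_cases hm2 : (1 - 2 * k + 4 * m + 2 * k) % 8 = 1
  · rw [if_pos hm2]
    have h5 : ((2 * k / 2 % 4).toNat + 3 * (N / 4)) % 4 = 0 := by omega
    rw [h5, pow_zero] at h1
    have h6 : ((1 : ℤ) : ZI) = ((qr (⟨1 - 2 * k + 4 * m, 2 * k⟩ : ZI) l1 : ℤ) : ZI) := by
      rw [← h1]; rfl
    have h7 := Int.cast_injective h6
    rw [← h7]; rfl
  · rw [if_neg hm2]
    have h5 : ((2 * k / 2 % 4).toNat + 3 * (N / 4)) % 4 = 2 := by omega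
    rw [h5, im1_sq] at h1
    have h6 : ((-1 : ℤ) : ZI) = ((qr (⟨1 - 2 * k + 4 * m, 2 * k⟩ : ZI) l1 : ℤ) : ZI) := by
      rw [← h1]; rfl
    have h7 := Int.cast_injective h6
    rw [← h7]; rfl

lemma ue_im (n : ℕ) : ue (im1 ^ n) = (n : ZMod 2) := by
  have h1 : ((im1 : ZI) ^ n) ^ 2 = (-1) ^ n := by
    rw [← pow_mul, mul_comm, pow_mul, im1_sq]
  unfold ue
  rw [h1]
  rcases Nat.even_or_odd n with h | h
  · rw [h.neg_one_pow, if_pos rfl, ((ZMod.natCast_eq_zero_iff_even).2 h)]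
  · rw [h.neg_one_pow, if_neg (by decide), ((ZMod.natCast_eq_one_iff_odd).2 h)]

lemma norm_im (n : ℕ) : ((im1 : ZI) ^ n).norm = 1 := by
  have h : (Zsqrtd.normMonoidHom (im1 ^ n) : ℤ) = 1 := by
    rw [map_pow]
    have : (Zsqrtd.normMonoidHom (im1 : ZI) : ℤ) = 1 := im1_norm
    rw [this, one_pow]
  exact h

section

variable {ι : Type} [DecidableEq ι] [Fintype ι] {pr : ι → ZI}

lemma qr_im_DD (hp : PF pr) (n : ℕ) (T : Finset ι) {j : ι} (hj : j ∉ T) :
    qr (pr j) (im1 ^ n * DD pr T) = sg (n * wt pr j + ∑ i ∈ T, em pr i j) := by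
  rw [qr_mul (hp.pp j), qr_unit_sg hp j (norm_im n), qr_DD_sg hp T hj, ue_im, sg_add]

lemma qr_im_l1_DD (hp : PF pr) (n : ℕ) (T : Finset ι) {j : ι} (hj : j ∉ T) :
    qr (pr j) (im1 ^ n * l1 * DD pr T) = sg (sl pr j + n * wt pr j + ∑ i ∈ T, em pr i j) := by
  have e : im1 ^ n * l1 * DD pr T = l1 * (im1 ^ n * DD pr T) := by ring
  rw [e, qr_mul (hp.pp j), qr_im_DD hp n T hj, qr_l1 (hp.pp j), add_assoc, ← sg_add]
  rfl

end

/-! ### Residues of the sum -/

lemma res_sum {σ : ℕ} {P Q : ZI} {tS tc xS : ZMod 2}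
    (hP1 : (tS = 0 ∧ P.im % 4 = 0) ∨ (tS = 1 ∧ P.im % 4 = 2))
    (hP2 : (xS = 0 ∧ (P.re + P.im) % 8 = 1) ∨ (xS = 1 ∧ (P.re + P.im) % 8 = 5))
    (hQ1 : (tc = 0 ∧ Q.im % 4 = 0) ∨ (tc = 1 ∧ Q.im % 4 = 2)) (hQ2 : (Q.re + Q.im) % 4 = 1)
    (h1 : 1 + cst σ + tS = 0) (h2 : xS + σ * tS + (tS + tc) = 0) :
    (im1 * P + im1 ^ (σ + 3) * l1 * Q).im % 4 = 0 ∧
      (((im1 * P + im1 ^ (σ + 3) * l1 * Q).re + (im1 * P + im1 ^ (σ + 3) * l1 * Q).im) % 8 = 1 ∨
       ((im1 * P + im1 ^ (σ + 3) * l1 * Q).re + (im1 * P + im1 ^ (σ + 3) * l1 * Q).im) % 8 = 7) := by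
  obtain ⟨a, b⟩ := P
  obtain ⟨x, y⟩ := Q
  simp only at hP1 hP2 hQ1 hQ2
  have hσ2 : ((σ : ℕ) : ZMod 2) = ((σ % 4 : ℕ) : ZMod 2) :=
    (ZMod.natCast_eq_natCast_iff' _ _ 2).2 (by omega)
  rw [hσ2] at h2
  have hcases : σ % 4 = 0 ∨ σ % 4 = 1 ∨ σ % 4 = 2 ∨ σ % 4 = 3 := by omega
  rcases hcases with h | h | h | h
  · have e0 : (σ + 3) % 4 = 3 := by omega
    have e1 : (im1 : ZI) * ⟨a, b⟩ + im1 ^ (σ + 3) * l1 * ⟨x, y⟩ = ⟨x - b + y, a - x + y⟩ := by
      rw [im_mod, e0]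
      have e2 : (im1 : ZI) = ⟨0, 1⟩ := rfl
      have e3 : (im1 : ZI) ^ 3 * l1 = ⟨1, -1⟩ := by decide
      rw [e3, e2]
      ext <;> simp <;> ring
    have e4 : cst σ = 1 := by unfold cst; rw [if_pos (by omega)]
    rw [e1]
    rw [e4] at h1
    rw [h] at h2
    simp only
    rcases hP1 with ⟨rfl, c1⟩ | ⟨rfl, c1⟩ <;> rcases hP2 with ⟨rfl, c2⟩ | ⟨rfl, c2⟩ <;>
      rcases hQ1 with ⟨rfl, c3⟩ | ⟨rfl, c3⟩ <;> first
      | (exfalso; revert h1; decide)
      | (exfalso; revert h2; decide)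
      | omega
  · have e0 : (σ + 3) % 4 = 0 := by omega
    have e1 : (im1 : ZI) * ⟨a, b⟩ + im1 ^ (σ + 3) * l1 * ⟨x, y⟩ = ⟨x - b - y, a + x + y⟩ := by
      rw [im_mod, e0]
      have e2 : (im1 : ZI) = ⟨0, 1⟩ := rfl
      have e3 : (im1 : ZI) ^ 0 * l1 = ⟨1, 1⟩ := by decide
      rw [e3, e2]
      ext <;> simp <;> ring
    have e4 : cst σ = 0 := by unfold cst; rw [if_neg (by omega)]
    rw [e1]
    rw [e4] at h1
    rw [h] at h2
    simp only
    rcases hP1 with ⟨rfl, c1⟩ | ⟨rfl, c1⟩ <;> rcases hP2 with ⟨rfl, c2⟩ | ⟨rfl, c2⟩ <;>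
      rcases hQ1 with ⟨rfl, c3⟩ | ⟨rfl, c3⟩ <;> first
      | (exfalso; revert h1; decide)
      | (exfalso; revert h2; decide)
      | omega
  · have e0 : (σ + 3) % 4 = 1 := by omega
    have e1 : (im1 : ZI) * ⟨a, b⟩ + im1 ^ (σ + 3) * l1 * ⟨x, y⟩ = ⟨-x - b - y, a + x - y⟩ := by
      rw [im_mod, e0]
      have e2 : (im1 : ZI) = ⟨0, 1⟩ := rfl
      have e3 : (im1 : ZI) ^ 1 * l1 = ⟨-1, 1⟩ := by decide
      rw [e3, e2]
      ext <;> simp <;> ring
    have e4 : cst σ = 0 := by unfold cst; rw [if_neg (by omega)]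
    rw [e1]
    rw [e4] at h1
    rw [h] at h2
    simp only
    rcases hP1 with ⟨rfl, c1⟩ | ⟨rfl, c1⟩ <;> rcases hP2 with ⟨rfl, c2⟩ | ⟨rfl, c2⟩ <;>
      rcases hQ1 with ⟨rfl, c3⟩ | ⟨rfl, c3⟩ <;> first
      | (exfalso; revert h1; decide)
      | (exfalso; revert h2; decide)
      | omega
  · have e0 : (σ + 3) % 4 = 2 := by omega
    have e1 : (im1 : ZI) * ⟨a, b⟩ + im1 ^ (σ + 3) * l1 * ⟨x, y⟩ = ⟨-x - b + y, a - x - y⟩ := by
      rw [im_mod, e0]
      have e2 : (im1 : ZI) = ⟨0, 1⟩ := rfl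
      have e3 : (im1 : ZI) ^ 2 * l1 = ⟨-1, -1⟩ := by decide
      rw [e3, e2]
      ext <;> simp <;> ring
    have e4 : cst σ = 1 := by unfold cst; rw [if_pos (by omega)]
    rw [e1]
    rw [e4] at h1
    rw [h] at h2
    simp only
    rcases hP1 with ⟨rfl, c1⟩ | ⟨rfl, c1⟩ <;> rcases hP2 with ⟨rfl, c2⟩ | ⟨rfl, c2⟩ <;>
      rcases hQ1 with ⟨rfl, c3⟩ | ⟨rfl, c3⟩ <;> first
      | (exfalso; revert h1; decide)
      | (exfalso; revert h2; decide)
      | omega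

/-! ### The place `1 + i` -/

section

variable {K : Type} [Field K] [NumberField K] (e : ZI ≃+* 𝓞 K)

/-- the elements `≡ 1 mod 4 (1 + i)` are squares -/
lemma sq_pi1 {x : ZI} (h1 : x.im % 4 = 0) (h2 : (x.re + x.im) % 8 = 1) :
    ∃ c, ph (K := K) e pi1_prime (em0 e x) = c * c := by
  have hcz := Pool.Agent.Y682.charZero_adic (plc (K := K) e pi1_prime)
  have h4 : (4 : (plc (K := K) e pi1_prime).adicCompletion K) ≠ 0 := by norm_num
  have e4 : (4 : (plc (K := K) e pi1_prime).adicCompletion K) = ph e pi1_prime (em0 e 4) := by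
    rw [map_ofNat, map_ofNat]
  set z : ZI := ⟨(x.re - 1) / 4, x.im / 4⟩ with hz
  have hx : x = 1 + 4 * z := by
    ext
    · simp [hz]
      omega
    · simp [hz]
      omega
  have hzd : pi1 ∣ z := by
    by_contra h
    rw [odd_iff] at h
    simp only [hz] at h
    omega
  obtain ⟨c, hc⟩ := exists_sqrt (plc (K := K) e pi1_prime) (4 * ph e pi1_prime (em0 e z)) (by
    rw [map_mul]
    have h1 : vv (plc (K := K) e pi1_prime) (ph e pi1_prime (em0 e z)) < 1 := by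
      rw [vv_coe]
      exact (val_lt e pi1_prime _).2 hzd
    calc vv (plc (K := K) e pi1_prime) 4 * vv (plc (K := K) e pi1_prime) (ph e pi1_prime (em0 e z))
        < vv (plc (K := K) e pi1_prime) 4 * 1 :=
          mul_lt_mul_of_pos_left h1 (zero_lt_iff.2 ((Valuation.ne_zero_iff _).2 h4))
      _ = _ := mul_one _)
  refine ⟨c, ?_⟩
  rw [← sq, hc, hx]
  simp only [map_mul, map_add, map_one, map_ofNat]

/-- the elements `≡ ± 1 mod 4 (1 + i)` are squares -/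
lemma sq_pi1' {x : ZI} (h1 : x.im % 4 = 0) (h2 : (x.re + x.im) % 8 = 1 ∨ (x.re + x.im) % 8 = 7) :
    ∃ c, ph (K := K) e pi1_prime (em0 e x) = c * c := by
  rcases h2 with h2 | h2
  · exact sq_pi1 e h1 h2
  · obtain ⟨c, hc⟩ := sq_pi1 (K := K) e (x := -x) (by rw [Zsqrtd.im_neg]; omega)
      (by rw [Zsqrtd.im_neg, Zsqrtd.re_neg]; omega)
    have hi : (ph (K := K) e pi1_prime (em0 e im1)) ^ 2 = -1 := by
      rw [← map_pow, em0_im, map_neg, map_one]
    refine ⟨ph (K := K) e pi1_prime (em0 e im1) * c, ?_⟩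
    rw [map_neg, map_neg] at hc
    linear_combination -hc - c * c * hi

/-- the point of abscissa `(1 + i)² d` -/
lemma loc_sum {d B' : ZI} (hd : d ≠ 0) {c : (plc (K := K) e pi1_prime).adicCompletion K}
    (hc : ph (K := K) e pi1_prime (em0 e (d + B')) = c * c) :
    LocB (ph (K := K) e pi1_prime (em0 e (d * B'))) (ph e pi1_prime (em0 e d)) := by
  have hl0 : (ph (K := K) e pi1_prime (em0 e l1)) ≠ 0 := (map_ne_zero _).2 (em0_ne e (by decide))
  have hl4 : (ph (K := K) e pi1_prime (em0 e l1)) ^ 4 = -4 := by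
    have h : (l1 : ZI) ^ 4 = -4 := by decide
    rw [← map_pow, ← map_pow, h, map_neg, map_neg, map_ofNat, map_ofNat]
  have hd0 : (ph (K := K) e pi1_prime (em0 e d)) ≠ 0 := (map_ne_zero _).2 (em0_ne e hd)
  rw [map_add, map_add] at hc
  refine ⟨ph e pi1_prime (em0 e d) * ph e pi1_prime (em0 e l1) ^ 2,
    ph e pi1_prime (em0 e d) * ph e pi1_prime (em0 e l1) ^ 3 * c, ph e pi1_prime (em0 e l1),
    mul_ne_zero hd0 (pow_ne_zero 2 hl0), ?_, rfl⟩
  rw [map_mul, map_mul]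
  generalize ph (K := K) e pi1_prime (em0 e d) = D at *
  generalize ph (K := K) e pi1_prime (em0 e B') = B at *
  generalize ph (K := K) e pi1_prime (em0 e l1) = l at *
  linear_combination (-D ^ 2 * l ^ 6) * hc + (D ^ 2 * l ^ 2 * B) * hl4

end

/-- **D3-CONV** -/
theorem convo : S_CONVO := by
  classical
  intro σ K _ _ e Δ hg hdt hf
  have hp := fam_PF hg.ne
  obtain ⟨S, a, hne, hk1, hk2, hk3, hk4⟩ :=
    ker_bordered (hO σ (fam Δ)) (wt (fam Δ)) (1 + cst σ) (Y699.em (fam Δ)) (em_symm hp) hdt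
  have h01 : ∀ b : ZMod 2, b = 0 ∨ b = 1 := by decide
  -- the exponent of `i`
  obtain ⟨α, hα, hα2⟩ : ∃ α : ℕ, (α : ZMod 2) = a ∧ (α = 0 ∨ α = 1) := by
    rcases h01 a with h | h
    · exact ⟨0, by rw [h]; rfl, Or.inl rfl⟩
    · exact ⟨1, by rw [h]; rfl, Or.inr rfl⟩
  set P : ZI := DD (fam Δ) S with hP
  set Q : ZI := DD (fam Δ) Sᶜ with hQ
  set d : ZI := im1 ^ α * P with hd
  set B' : ZI := im1 ^ (σ + 3 * α) * l1 * Q with hB'
  set B : ZI := im1 ^ σ * l1 * Δ with hB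
  have hΔ : Δ = P * Q := by
    have h1 : DD (fam Δ) Finset.univ = Δ := hg.DD
    refine h1.symm.trans ?_
    rw [hP, hQ]
    unfold DD
    exact (Finset.prod_mul_prod_compl S _).symm
  have him0 : ∀ n : ℕ, (im1 : ZI) ^ n ≠ 0 := fun n => pow_ne_zero n (by decide)
  have hl0 : (l1 : ZI) ≠ 0 := by decide
  have hP0 : P ≠ 0 := DD_ne hp S
  have hQ0 : Q ≠ 0 := DD_ne hp Sᶜ
  have hd0 : d ≠ 0 := mul_ne_zero (him0 _) hP0
  have hB0 : B ≠ 0 := mul_ne_zero (mul_ne_zero (him0 _) hl0) hg.ne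
  have hBd : B = d * B' := by
    rw [hB, hd, hB', hΔ]
    have h1 : (im1 : ZI) ^ α * im1 ^ (σ + 3 * α) = im1 ^ σ := by
      have h2 : α + (σ + 3 * α) = σ + 4 * α := by ring
      rw [← pow_add, h2, pow_add, pow_mul, im1_four, one_pow, mul_one]
    linear_combination (-l1 * P * Q) * h1
  -- divisibility
  have hΔsq : ∀ π : ZI, Prime π → ¬ π ^ 2 ∣ Δ := by
    intro π hπ h
    rw [sq] at h
    exact hπ.not_isUnit (hg.sqf _ h)
  have hidvd : ∀ (n : ℕ) (x y : ZI), x ∣ im1 ^ n * y → x ∣ y := by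
    intro n x y h
    have h1 : x ∣ im1 ^ (3 * n) * (im1 ^ n * y) := h.mul_left _
    have h2 : (im1 : ZI) ^ (3 * n) * (im1 ^ n * y) = y := by
      have h3 : 3 * n + n = 4 * n := by ring
      rw [← mul_assoc, ← pow_add, h3, pow_mul, im1_four, one_pow, one_mul]
    rwa [h2] at h1
  have hl1 : (l1 : ZI) = pi1 := rfl
  have hpp1 : ∀ π : ZI, PP π → ¬ π ∣ l1 := by
    intro π hπ h
    apply not_dvd_two hπ
    have h2 : (2 : ZI) = l1 * (l1 * -im1) := by decide
    rw [h2]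
    exact h.mul_right _
  have hem4 : (em0 e (-4) : K) = -4 := by
    rw [map_neg, map_ofNat]
  have hΔj : ∀ j, fam Δ j ∣ Δ := fun j => ((mem_PD hg.ne).1 j.2).2
  -- elements exactly divisible by `1 + i` are not squares
  have nsq : ∀ (n : ℕ) (X : ZI), prim X → ¬ IsSquare (em0 e (im1 ^ n * l1 * X) : K) := by
    intro n X hX
    refine not_sq_of_dvd e pi1_prime ((Dvd.intro_left _ rfl : l1 ∣ im1 ^ n * l1).mul_right X) ?_
    intro h
    rw [mul_assoc] at h
    have h1 := hidvd _ _ _ h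
    rw [sq, ← hl1, mul_dvd_mul_iff_left hl0] at h1
    exact pi1_prim hX h1
  have hl4 : (em0 e l1 : K) ^ 4 = -4 := by
    have h : (l1 : ZI) ^ 4 = -4 := by decide
    rw [← map_pow, h, hem4]
  have hel0 : (em0 e l1 : K) ≠ 0 := em0_ne e hl0
  have hed0 : (em0 e d : K) ≠ 0 := em0_ne e hd0
  have nb : ¬ IsSquare (em0 e B) := nsq σ Δ hg.prm
  have nab : ¬ IsSquare (-4 * em0 e B) := by
    rintro ⟨r, hr⟩
    apply nb
    refine ⟨r / em0 e l1 ^ 2, ?_⟩
    field_simp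
    linear_combination hr + em0 e B * hl4
  have n1 : ¬ IsSquare (em0 e d) := by
    by_cases hS : S.Nonempty
    · obtain ⟨j, hj⟩ := hS
      refine not_sq_of_dvd e (hp.pp j).pr ?_ ?_
      · refine Dvd.dvd.mul_left ?_ _
        rw [hP]; unfold DD
        exact Finset.dvd_prod_of_mem _ hj
      · intro h
        exact hΔsq _ (hp.pp j).pr ((hidvd _ _ _ h).trans ⟨Q, hΔ⟩)
    · have ha : a = 1 := hne.resolve_left hS
      have hα1 : α = 1 := by
        rcases hα2 with h | h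
        · exfalso
          rw [h, ha] at hα
          exact absurd hα (by decide)
        · exact h
      have hd1 : d = im1 := by
        rw [hd, hα1, hP, Finset.not_nonempty_iff_eq_empty.1 hS]
        unfold DD
        rw [Finset.prod_empty, pow_one, mul_one]
      rw [hd1]
      exact not_sq_unit e (Or.inl rfl)
  have n2 : ¬ IsSquare (em0 e d * (-4 * em0 e B)) := by
    rintro ⟨r, hr⟩
    apply nsq (σ + 3 * α) Q (DD_prim hp Sᶜ)
    rw [← hB']
    refine ⟨r / (em0 e d * em0 e l1 ^ 2), ?_⟩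
    have hBe : (em0 e B : K) = em0 e d * em0 e B' := by rw [hBd]; exact map_mul (em0 e) d B'
    rw [hBe] at hr
    field_simp
    linear_combination hr + em0 e B' * em0 e d ^ 2 * hl4
  -- the local points
  have hsg : ∀ b : ZMod 2, b = 0 → sg b = 1 := by decide
  have e2 : ∀ b : ZMod 2, b + b = 0 := by decide
  have hi2 : (em0 e im1 : K) ^ 2 = -1 := em0_im e
  have hl : ∀ v : HeightOneSpectrum (𝓞 K),
      LocB (algebraMap K (v.adicCompletion K) (em0 e B))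
        (algebraMap K (v.adicCompletion K) (em0 e d)) := by
    intro v
    obtain ⟨w, hw, hwc, rfl⟩ : ∃ (w : ZI) (hw : Prime w), (w = pi1 ∨ PP w) ∧ v = plc e hw := by
      refine ⟨pg e v, pg_prime e v, ?_, HeightOneSpectrum.ext (pg_span e v)⟩
      rcases pg_cases e v with ⟨h1, h2⟩ | ⟨h1, h2⟩
      · exact Or.inl h2
      · right
        have h3 := Pool.Agent.W164.RC.Ip_spec (Pool.Agent.H921R2.TatePole.below v).2 h2
        exact ⟨h3.2.1, h3.1⟩
    have hd0' : ph (K := K) e hw (em0 e d) ≠ 0 := (map_ne_zero _).2 hed0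
    have hB0' : ph (K := K) e hw (em0 e B) ≠ 0 := (map_ne_zero _).2 (em0_ne e hB0)
    rcases hwc with rfl | hPP
    · -- the place `1 + i`
      obtain ⟨r1, r2⟩ := res_DD hp S
      obtain ⟨r3, -⟩ := res_DD hp Sᶜ
      have hsum : ∑ j, wt (fam Δ) j = ∑ j ∈ S, wt (fam Δ) j + ∑ j ∈ Sᶜ, wt (fam Δ) j :=
        (Finset.sum_add_sum_compl S _).symm
      have hhO : ∑ j ∈ S, hO σ (fam Δ) j =
          ∑ j ∈ S, sl (fam Δ) j + σ * ∑ j ∈ S, wt (fam Δ) j := by
        rw [Finset.mul_sum, ← Finset.sum_add_distrib]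
        rfl
      rw [hhO, hsum] at hk4
      rcases hα2 with h | h
      · have ha : a = 0 := by rw [← hα, h]; rfl
        rw [ha, mul_zero, zero_add] at hk3
        rw [ha, zero_mul, add_zero, hk3, mul_zero, add_zero] at hk4
        obtain ⟨c, hc⟩ := sq_pi1 (K := K) e (x := P)
          (by
            rcases r1 with ⟨_, h2⟩ | ⟨h1, _⟩
            · exact h2
            · rw [hk3] at h1; exact absurd h1 (by decide))
          (by
            rcases r2 with ⟨_, h2⟩ | ⟨h1, _⟩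
            · exact h2
            · rw [hk4] at h1; exact absurd h1 (by decide))
        have hdP : d = P := by rw [hd, h, pow_zero, one_mul]
        exact loc_one e pi1_prime ⟨c, by rw [hdP]; exact hc⟩ hd0'
      · have ha : a = 1 := by rw [← hα, h]; rfl
        rw [ha, mul_one] at hk3
        rw [ha, one_mul] at hk4
        have hres := res_sum (σ := σ) r1 r2 r3 (prim_odd (DD_prim hp Sᶜ)).2 hk3 hk4
        have hdB : d + B' = im1 * P + im1 ^ (σ + 3) * l1 * Q := by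
          rw [hd, hB', h, pow_one, mul_one]
        rw [← hP, ← hQ, ← hdB] at hres
        obtain ⟨c, hc⟩ := sq_pi1' (K := K) e hres.1 hres.2
        have h5 := loc_sum e hd0 hc
        rw [← hBd] at h5
        exact h5
    · by_cases hwΔ : w ∣ Δ
      · set j : {π : ZI // π ∈ PD Δ} := ⟨w, (mem_PD hg.ne).2 ⟨hPP, hwΔ⟩⟩ with hj
        by_cases hjS : j ∈ S
        · have h2 : qr w B' = 1 := by
            have h3 := qr_im_l1_DD hp (σ + 3 * α) Sᶜ (j := j)
              (fun h => (Finset.mem_compl.1 h) hjS)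
            refine h3.trans (hsg _ ?_)
            rw [← hk2 j hjS, ← hα]
            have h4 : hO σ (fam Δ) j = sl (fam Δ) j + σ * wt (fam Δ) j := rfl
            have h5 : ((σ + 3 * α : ℕ) : ZMod 2) = (σ : ZMod 2) + α := by
              push_cast
              have : (3 : ZMod 2) = 1 := rfl
              rw [this, one_mul]
            rw [h4, h5]
            ring
          obtain ⟨s, hs⟩ := sq_of_qr (K := K) e hPP h2
          refine loc_two e hw ⟨2 * ph e hw (em0 e im1) * ph e hw (em0 e d) * s, ?_⟩ hd0' hB0'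
          have hi : (ph (K := K) e hw (em0 e im1)) ^ 2 = -1 := by
            rw [← map_pow, hi2, map_neg, map_one]
          change ph (K := K) e hw (em0 e d) * (-4 * ph e hw (em0 e B)) = _
          have e1 : ph (K := K) e hw (em0 e B) =
              ph e hw (em0 e d) * ph e hw (em0 e B') := by
            rw [← map_mul, ← map_mul, hBd]
          rw [e1]
          have hs' : ph (K := K) e hw (em0 e B') = s * s := hs
          rw [hs']
          linear_combination (-4 * ph e hw (em0 e d) ^ 2 * s ^ 2) * hi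
        · have h1 : qr w d = 1 := by
            have h3 := qr_im_DD hp α S (j := j) hjS
            refine h3.trans (hsg _ ?_)
            rw [hα]
            exact hk1 j hjS
          exact loc_one e hw (sq_of_qr e hPP h1) hd0'
      · refine loc_good e hPP (fun h => ?_) (fun h => hwΔ ((hidvd _ _ _ h).trans ⟨Q, hΔ⟩))
        rw [hB, mul_assoc] at h
        rcases hPP.pr.dvd_or_dvd (hidvd _ _ _ h) with h1 | h1
        · exact hpp1 w hPP h1
        · exact hwΔ h1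
  exact sha_ex (em0_ne e hB0) nb nab hed0 n1 n2 hl (fun v => locB_inf e v hed0) hf

end Pool.Agent.D0H76.Q4.Two

namespace Pool.Agent.D0H76.Q4

/-- **D3-CONV** -/
theorem convo : Pool.Agent.D0H43.Q4.S_CONVO := Two.convo

end Pool.Agent.D0H76.Q4
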