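import Pool.Agent.D0H76.Q4.LocO

/-!
Project Q4, block D3, module SELO: the Selmer group of `y² = x³ + i ^ σ (1 + i) Δ x` over `ℚ(i)` for `Δ`
of determinant one.
-/

set_option autoImplicit false
set_option linter.unusedSectionVars false

open NumberField IsDedekindDomain

namespace Pool.Agent.D0H76.Q4.Two

open Pool.Agent.Y682 (S1 S2 vv vv_coe IsT Zc Zc_card Zc_lower LL1 LL2 Sq quot_eq)
open Pool.Agent.Y699
open Pool.Agent.Y715.Z hiding im1_sq
open Pool.Agent.D0H43.Q4 (MB dO cO hO sl xl l1 cst S_SELO)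
open Pool.Agent.H304R2.EC.A1 (prim prim_mul)
open Pool.Agent.D0H49.Q4 (exists_exp approx dvd_of_val loc_bad')
open H385 (ZI RQ im1 nrm)
open Pool.Agent.W164.RC (unit_norm unit_cases)

section comb

variable {ι : Type} [DecidableEq ι] [Fintype ι]

/-- the kernel is trivial -/
lemma ker_trivial {h t : ι → ZMod 2} {c : ZMod 2} {A : ι → ι → ZMod 2}
    (hd : (MB h t c A Finset.univ).det ≠ 0) {S : Finset ι} {a : ZMod 2}
    (h1 : ∀ j, j ∉ S → a * t j + ∑ i ∈ S, A i j = 0)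
    (h2 : ∀ j, j ∈ S → h j + a * t j + ∑ i ∈ Sᶜ, A i j = 0)
    (h3 : c * a + ∑ j ∈ S, t j = 0) : S = ∅ ∧ a = 0 := by
  classical
  have e2 : ∀ b : ZMod 2, b + b = 0 := by decide
  set f : ι → ZMod 2 := fun i => if i ∈ S then 1 else 0 with hf
  have hf1 : ∀ i ∈ S, f i = 1 := fun i hi => by simp only [hf]; rw [if_pos hi]
  have hf0 : ∀ i, i ∉ S → f i = 0 := fun i hi => by simp only [hf]; rw [if_neg hi]
  have hfs : ∀ g : ι → ZMod 2, ∑ i, g i * f i = ∑ i ∈ S, g i := by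
    intro g
    rw [← Finset.sum_add_sum_compl S]
    rw [Finset.sum_congr rfl (fun i hi => by rw [hf1 i hi, mul_one] : ∀ i ∈ S, g i * f i = g i),
      Finset.sum_eq_zero (fun i hi => by rw [hf0 i (Finset.mem_compl.1 hi), mul_zero] :
        ∀ i ∈ Sᶜ, g i * f i = 0), add_zero]
  have hsub : ∀ g : ι → ZMod 2, ∑ i : {i // i ∈ (Finset.univ : Finset ι)}, g i.1 = ∑ i, g i := by
    intro g
    rw [Finset.sum_coe_sort Finset.univ g]
  set x : Option (Finset.univ : Finset ι) → ZMod 2 := fun o => o.elim a (fun i => f i.1) with hx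
  have h0 : (MB h t c A Finset.univ).mulVec x = 0 := by
    funext o
    rw [Pi.zero_apply, Matrix.mulVec, dotProduct, Fintype.sum_option]
    cases o with
    | none =>
      rw [← h3, ← hfs]
      exact congrArg (fun z => c * a + z) (hsub (fun j => t j * f j))
    | some j =>
      obtain ⟨j, hj⟩ := j
      have h5 : ∑ i : {i // i ∈ (Finset.univ : Finset ι)},
          MB h t c A Finset.univ (some ⟨j, hj⟩) (some i) * x (some i) =
          ∑ i, (if j = i then h j + ∑ l ∈ Finset.univ.erase j, A l j else A i j) * f i := by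
        rw [← hsub (fun i => (if j = i then h j + ∑ l ∈ Finset.univ.erase j, A l j else A i j) * f i)]
        refine Finset.sum_congr rfl fun i _ => ?_
        simp only [MB, Subtype.ext_iff, hx, Option.elim]
      rw [h5]
      have h6 : MB h t c A Finset.univ (some ⟨j, hj⟩) none * x none = a * t j := mul_comm _ _
      rw [h6]
      rw [← Finset.add_sum_erase _ _ (Finset.mem_univ j), if_pos rfl]
      have h7 : ∑ i ∈ Finset.univ.erase j, (if j = i then h j + ∑ l ∈ Finset.univ.erase j, A l j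
          else A i j) * f i = ∑ i ∈ Finset.univ.erase j, A i j * f i :=
        Finset.sum_congr rfl fun i hi => by rw [if_neg (Finset.ne_of_mem_erase hi).symm]
      rw [h7]
      have h8 : (h j + ∑ l ∈ Finset.univ.erase j, A l j) * f j +
          ∑ i ∈ Finset.univ.erase j, A i j * f i = h j * f j + ∑ i, A i j * (f i + f j) := by
        rw [← Finset.add_sum_erase Finset.univ (fun i => A i j * (f i + f j)) (Finset.mem_univ j), e2,
          mul_zero, zero_add, add_mul, Finset.sum_mul, add_assoc, ← Finset.sum_add_distrib]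
        congr 1
        exact Finset.sum_congr rfl fun i _ => by ring
      rw [h8]
      by_cases hjS : j ∈ S
      · rw [hf1 j hjS, mul_one, ← Finset.sum_add_sum_compl S]
        have h9 : ∑ i ∈ S, A i j * (f i + 1) = 0 :=
          Finset.sum_eq_zero fun i hi => by rw [hf1 i hi, e2, mul_zero]
        have h10 : ∑ i ∈ Sᶜ, A i j * (f i + 1) = ∑ i ∈ Sᶜ, A i j :=
          Finset.sum_congr rfl fun i hi => by rw [hf0 i (Finset.mem_compl.1 hi), zero_add, mul_one]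
        rw [h9, h10, zero_add, ← h2 j hjS]
        ring
      · rw [hf0 j hjS, mul_zero, zero_add]
        refine Eq.trans ?_ (h1 j hjS)
        rw [← hfs]
        congr 1
        exact Finset.sum_congr rfl fun i _ => by rw [add_zero]
  have h4 := Matrix.eq_zero_of_mulVec_eq_zero hd h0
  refine ⟨?_, congrFun h4 none⟩
  rw [Finset.eq_empty_iff_forall_notMem]
  intro i hi
  have h5 := congrFun h4 (some ⟨i, Finset.mem_univ i⟩)
  have h6 : f i = 0 := h5
  rw [hf1 i hi] at h6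
  exact one_ne_zero h6

end comb

/-- residues, converse -/
lemma res_back {σ : ℕ} {P Q : ZI} {tS tc : ZMod 2}
    (hP1 : (tS = 0 ∧ P.im % 4 = 0) ∨ (tS = 1 ∧ P.im % 4 = 2)) (hP2 : (P.re + P.im) % 4 = 1)
    (hQ1 : (tc = 0 ∧ Q.im % 4 = 0) ∨ (tc = 1 ∧ Q.im % 4 = 2)) (hQ2 : (Q.re + Q.im) % 4 = 1)
    (h1 : (im1 * P + im1 ^ (σ + 3) * l1 * Q).im % 4 = 0)
    (h2 : ((im1 * P + im1 ^ (σ + 3) * l1 * Q).re + (im1 * P + im1 ^ (σ + 3) * l1 * Q).im) % 8 = 1 ∨
       ((im1 * P + im1 ^ (σ + 3) * l1 * Q).re + (im1 * P + im1 ^ (σ + 3) * l1 * Q).im) % 8 = 7) :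
    1 + cst σ + tS = 0 := by
  obtain ⟨a, b⟩ := P
  obtain ⟨x, y⟩ := Q
  simp only at hP1 hP2 hQ1 hQ2
  have hcases : σ % 4 = 0 ∨ σ % 4 = 1 ∨ σ % 4 = 2 ∨ σ % 4 = 3 := by omega
  rcases hcases with h | h | h | h
  · have e0 : (σ + 3) % 4 = 3 := by omega
    have e1 : (im1 : ZI) * ⟨a, b⟩ + im1 ^ (σ + 3) * l1 * ⟨x, y⟩ = ⟨x - b + y, a - x + y⟩ := by
      rw [im_mod, e0]
      have e2 : (im1 : ZI) = ⟨0, 1⟩ := rfl
      have e3 : (im1 : ZI) ^ 3 * l1 = ⟨1, -1⟩ := by decide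
      rw [e3, e2]
      ext <;> simp <;> ring
    have e4 : cst σ = 1 := by unfold cst; rw [if_pos (by omega)]
    rw [e1] at h1 h2
    simp only at h1 h2
    rw [e4]
    rcases hP1 with ⟨rfl, c1⟩ | ⟨rfl, c1⟩ <;> rcases hQ1 with ⟨rfl, c3⟩ | ⟨rfl, c3⟩ <;> first
      | decide
      | (exfalso; omega)
  · have e0 : (σ + 3) % 4 = 0 := by omega
    have e1 : (im1 : ZI) * ⟨a, b⟩ + im1 ^ (σ + 3) * l1 * ⟨x, y⟩ = ⟨x - b - y, a + x + y⟩ := by
      rw [im_mod, e0]
      have e2 : (im1 : ZI) = ⟨0, 1⟩ := rfl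
      have e3 : (im1 : ZI) ^ 0 * l1 = ⟨1, 1⟩ := by decide
      rw [e3, e2]
      ext <;> simp <;> ring
    have e4 : cst σ = 0 := by unfold cst; rw [if_neg (by omega)]
    rw [e1] at h1 h2
    simp only at h1 h2
    rw [e4]
    rcases hP1 with ⟨rfl, c1⟩ | ⟨rfl, c1⟩ <;> rcases hQ1 with ⟨rfl, c3⟩ | ⟨rfl, c3⟩ <;> first
      | decide
      | (exfalso; omega)
  · have e0 : (σ + 3) % 4 = 1 := by omega
    have e1 : (im1 : ZI) * ⟨a, b⟩ + im1 ^ (σ + 3) * l1 * ⟨x, y⟩ = ⟨-x - b - y, a + x - y⟩ := by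
      rw [im_mod, e0]
      have e2 : (im1 : ZI) = ⟨0, 1⟩ := rfl
      have e3 : (im1 : ZI) ^ 1 * l1 = ⟨-1, 1⟩ := by decide
      rw [e3, e2]
      ext <;> simp <;> ring
    have e4 : cst σ = 0 := by unfold cst; rw [if_neg (by omega)]
    rw [e1] at h1 h2
    simp only at h1 h2
    rw [e4]
    rcases hP1 with ⟨rfl, c1⟩ | ⟨rfl, c1⟩ <;> rcases hQ1 with ⟨rfl, c3⟩ | ⟨rfl, c3⟩ <;> first
      | decide
      | (exfalso; omega)
  · have e0 : (σ + 3) % 4 = 2 := by omega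
    have e1 : (im1 : ZI) * ⟨a, b⟩ + im1 ^ (σ + 3) * l1 * ⟨x, y⟩ = ⟨-x - b + y, a - x - y⟩ := by
      rw [im_mod, e0]
      have e2 : (im1 : ZI) = ⟨0, 1⟩ := rfl
      have e3 : (im1 : ZI) ^ 2 * l1 = ⟨-1, -1⟩ := by decide
      rw [e3, e2]
      ext <;> simp <;> ring
    have e4 : cst σ = 1 := by unfold cst; rw [if_pos (by omega)]
    rw [e1] at h1 h2
    simp only at h1 h2
    rw [e4]
    rcases hP1 with ⟨rfl, c1⟩ | ⟨rfl, c1⟩ <;> rcases hQ1 with ⟨rfl, c3⟩ | ⟨rfl, c3⟩ <;> first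
      | decide
      | (exfalso; omega)

/-- residues of the units times `P` and the sums -/
lemma res_u {σ k : ℕ} {P Q : ZI} {tS tc : ZMod 2}
    (hP1 : (tS = 0 ∧ P.im % 4 = 0) ∨ (tS = 1 ∧ P.im % 4 = 2)) (hP2 : (P.re + P.im) % 4 = 1)
    (hQ1 : (tc = 0 ∧ Q.im % 4 = 0) ∨ (tc = 1 ∧ Q.im % 4 = 2)) (hQ2 : (Q.re + Q.im) % 4 = 1)
    {x : ZI} (hx : x = im1 ^ k * P ∨ x = im1 ^ k * P + im1 ^ (σ + 3 * k) * l1 * Q)
    (h1 : x.im % 4 = 0) (h2 : (x.re + x.im) % 8 = 1 ∨ (x.re + x.im) % 8 = 7) :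
    (1 + cst σ) * (k : ZMod 2) + tS = 0 := by
  have hPm : P.im % 2 = 0 ∧ P.re % 2 = 1 := by
    rcases hP1 with ⟨_, h⟩ | ⟨_, h⟩ <;> omega
  have hQm : Q.im % 2 = 0 ∧ Q.re % 2 = 1 := by
    rcases hQ1 with ⟨_, h⟩ | ⟨_, h⟩ <;> omega
  have hk : k % 4 = 0 ∨ k % 4 = 1 ∨ k % 4 = 2 ∨ k % 4 = 3 := by omega
  have hk2 : ((k : ℕ) : ZMod 2) = ((k % 4 : ℕ) : ZMod 2) :=
    (ZMod.natCast_eq_natCast_iff' _ _ 2).2 (by omega)
  rw [hk2]
  rcases hx with rfl | rfl
  · -- `x = u P`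
    rw [im_mod] at h1 h2
    rcases hk with h | h | h | h <;> rw [h] at h1 h2 ⊢
    · rw [pow_zero, one_mul] at h1
      rcases hP1 with ⟨h3, h4⟩ | ⟨h3, h4⟩
      · rw [h3, Nat.cast_zero, mul_zero, add_zero]
      · exfalso; omega
    · exfalso
      have e1 : (im1 : ZI) ^ 1 * P = ⟨-P.im, P.re⟩ := by
        have : (im1 : ZI) ^ 1 = ⟨0, 1⟩ := by decide
        rw [this]
        ext <;> simp
      rw [e1] at h1
      simp only at h1
      omega
    · have e1 : (im1 : ZI) ^ 2 * P = -P := by rw [im1_sq, neg_one_mul]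
      rw [e1, Zsqrtd.im_neg] at h1
      rcases hP1 with ⟨h3, h4⟩ | ⟨h3, h4⟩
      · rw [h3, add_zero]
        have h5 : ((2 : ℕ) : ZMod 2) = 0 := rfl
        rw [h5, mul_zero]
      · exfalso; omega
    · exfalso
      have e1 : (im1 : ZI) ^ 3 * P = ⟨P.im, -P.re⟩ := by
        have : (im1 : ZI) ^ 3 = ⟨0, -1⟩ := by decide
        rw [this]
        ext <;> simp
      rw [e1] at h1
      simp only at h1
      omega
  · -- `x = u P + u⁻¹ i ^ σ l Q`
    rcases Nat.even_or_odd k with hev | hodd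
    · exfalso
      obtain ⟨m, hm⟩ := hev
      -- the imaginary part is odd
      have hu : (im1 : ZI) ^ k = 1 ∨ (im1 : ZI) ^ k = -1 := by
        have : k = 2 * m := by omega
        rw [this, pow_mul, im1_sq]
        exact neg_one_pow_eq_or ZI m
      have hn : ∀ n : ℕ, ((im1 : ZI) ^ n * l1 * Q).im % 2 = 1 := by
        intro n
        rw [im_mod]
        have hn4 : n % 4 = 0 ∨ n % 4 = 1 ∨ n % 4 = 2 ∨ n % 4 = 3 := by omega
        rcases hn4 with h | h | h | h <;> rw [h]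
        · have : (im1 : ZI) ^ 0 * l1 = ⟨1, 1⟩ := by decide
          rw [this, Zsqrtd.im_mul]; simp only; omega
        · have : (im1 : ZI) ^ 1 * l1 = ⟨-1, 1⟩ := by decide
          rw [this, Zsqrtd.im_mul]; simp only; omega
        · have : (im1 : ZI) ^ 2 * l1 = ⟨-1, -1⟩ := by decide
          rw [this, Zsqrtd.im_mul]; simp only; omega
        · have : (im1 : ZI) ^ 3 * l1 = ⟨1, -1⟩ := by decide
          rw [this, Zsqrtd.im_mul]; simp only; omega
      have h3 := hn (σ + 3 * k)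
      rw [Zsqrtd.im_add] at h1
      rcases hu with h4 | h4 <;> rw [h4] at h1
      · rw [one_mul] at h1; omega
      · rw [neg_one_mul, Zsqrtd.im_neg] at h1; omega
    · obtain ⟨m, hm⟩ := hodd
      have hkz : ((k % 4 : ℕ) : ZMod 2) = 1 := by
        rw [← hk2]
        exact (ZMod.natCast_eq_one_iff_odd).2 ⟨m, hm⟩
      rw [hkz, mul_one]
      -- up to the sign, `k = 1`
      have hsgn : im1 ^ k * P + im1 ^ (σ + 3 * k) * l1 * Q =
          (-1) ^ m * (im1 * P + im1 ^ (σ + 3) * l1 * Q) := by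
        have e1 : (im1 : ZI) ^ k = (-1) ^ m * im1 := by
          rw [hm, pow_succ, pow_mul, im1_sq]
        have e2 : (im1 : ZI) ^ (σ + 3 * k) = (-1) ^ m * im1 ^ (σ + 3) := by
          have e3 : σ + 3 * k = (σ + 3) + 2 * m + 4 * m := by omega
          rw [e3, pow_add, pow_add, pow_mul im1 4, im1_four, one_pow, mul_one, pow_mul im1 2, im1_sq]
          ring
        rw [e1, e2]
        ring
      rw [hsgn] at h1 h2
      rcases neg_one_pow_eq_or ZI m with h4 | h4 <;> rw [h4] at h1 h2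
      · rw [one_mul] at h1 h2
        exact res_back hP1 hP2 hQ1 hQ2 h1 h2
      · rw [neg_one_mul, Zsqrtd.im_neg] at h1
        rw [neg_one_mul, Zsqrtd.im_neg, Zsqrtd.re_neg] at h2
        exact res_back hP1 hP2 hQ1 hQ2 (by omega) (by omega)

section

variable {K : Type} [Field K] [NumberField K] (e : ZI ≃+* 𝓞 K)

/-- the Selmer group, odd representatives -/
theorem sel_odd {σ : ℕ} {Δ : ZI} (hg : PS Δ) (hdt : dO σ Δ = 1) {b w : K} {d : ZI}
    (hd : Squarefree d) (hw : w ≠ 0) (hbd : b = em0 e d * w ^ 2) (hdo : ¬ pi1 ∣ d)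
    (h : ∀ v : HeightOneSpectrum (𝓞 K), ∃ y m : v.adicCompletion K, y ≠ 0 ∧
      algebraMap K (v.adicCompletion K) b * y ^ 2 = m ∧
        S1 0 (algebraMap K (v.adicCompletion K) (em0 e (im1 ^ σ * l1 * Δ))) m) :
    ∃ c : K, b = c ^ 2 := by
  classical
  have hΔ0 := hg.ne
  have hp := fam_PF hΔ0
  have hl0 : (l1 : ZI) ≠ 0 := by decide
  have hl1 : (l1 : ZI) = pi1 := rfl
  have him0 : ∀ n : ℕ, (im1 : ZI) ^ n ≠ 0 := fun n => pow_ne_zero n (by decide)
  have hiu : ∀ n : ℕ, IsUnit ((im1 : ZI) ^ n) := fun n =>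
    Zsqrtd.norm_eq_one_iff.1 (by rw [norm_im]; rfl)
  set D : ZI := im1 ^ σ * l1 * Δ with hD
  have hD0 : D ≠ 0 := mul_ne_zero (mul_ne_zero (him0 _) hl0) hg.ne
  have hpp1 : ∀ π : ZI, PP π → ¬ π ∣ l1 := by
    intro π hπ h
    apply not_dvd_two hπ
    have h2 : (2 : ZI) = l1 * (l1 * -im1) := by decide
    rw [h2]
    exact h.mul_right _
  -- the primes of `d`
  have hprime : ∀ ρ : ZI, Prime ρ → ρ ∣ d → ρ ∣ Δ := by
    intro ρ hρ hρd
    by_contra hρD
    have h1 : ¬ ρ ∣ D := by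
      intro h2
      rcases hρ.dvd_or_dvd h2 with h3 | h3
      · rcases hρ.dvd_or_dvd h3 with h4 | h4
        · exact hρ.not_isUnit (isUnit_of_dvd_unit h4 (hiu _))
        · -- `ρ` is associated to `1 + i`
          apply hdo
          rw [hl1] at h4
          obtain ⟨c, hc⟩ := h4
          rcases pi1_prime.irreducible.isUnit_or_isUnit hc with h5 | h5
          · exact absurd h5 hρ.not_isUnit
          · obtain ⟨c', hc'⟩ := h5.exists_right_inv
            have h6 : pi1 ∣ ρ := ⟨c', by rw [hc, mul_assoc, hc', mul_one]⟩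
            exact h6.trans hρd
      · exact hρD h3
    exact not_dvd_of_loc e hρ h1 hd hw hbd (h (plc e hρ)) hρd
  set S := Finset.univ.filter (fun i => fam Δ i ∣ d) with hS
  have hDV : DD (fam Δ) Finset.univ = Δ := hg.DD
  have hSd : DD (fam Δ) S ∣ d := by
    unfold DD
    refine Finset.prod_dvd_of_coprime ?_ ?_
    · intro i _ j _ hij
      exact (hp.pp i).cop (hp.pp j) fun h => hij (hp.inj h)
    · intro i hi
      exact (Finset.mem_filter.1 hi).2
  obtain ⟨u, hu⟩ := hSd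
  have huu : IsUnit u := by
    by_contra hnu
    have hu0 : u ≠ 0 := by
      rintro rfl
      exact hd.ne_zero (by rw [hu, mul_zero])
    obtain ⟨ρ, hρ, hρu⟩ := WfDvdMonoid.exists_irreducible_factor hnu hu0
    have hρ' : Prime ρ := irreducible_iff_prime.1 hρ
    have h1 : ρ ∣ d := by rw [hu]; exact hρu.mul_left _
    have h2 := hprime ρ hρ' h1
    rw [← hDV] at h2
    unfold DD at h2
    obtain ⟨i, hi, hρi⟩ := (hρ'.dvd_finsetProd_iff _).1 h2
    have h3 : fam Δ i ∣ ρ := by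
      obtain ⟨c, hc⟩ := hρi
      rcases (hp.pp i).pr.irreducible.isUnit_or_isUnit hc with h4 | h4
      · exact absurd h4 hρ'.not_isUnit
      · obtain ⟨c', hc'⟩ := h4.exists_right_inv
        exact ⟨c', by rw [hc, mul_assoc, hc', mul_one]⟩
    have h4 : i ∈ S := Finset.mem_filter.2 ⟨hi, h3.trans h1⟩
    have h5 : fam Δ i * fam Δ i ∣ d := by
      rw [hu]
      refine mul_dvd_mul ?_ (h3.trans hρu)
      unfold DD
      exact Finset.dvd_prod_of_mem _ h4
    exact (hp.pp i).pr.not_isUnit (hd _ h5)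
  have hun : u.norm = 1 := by
    obtain ⟨e', rfl⟩ := huu
    exact unit_norm e'
  obtain ⟨k, hk⟩ : ∃ k : ℕ, u = im1 ^ k := by
    rcases unit_cases hun with h | h | h | h
    · exact ⟨0, by rw [h, pow_zero]⟩
    · exact ⟨1, by rw [h, pow_one]⟩
    · exact ⟨2, h⟩
    · exact ⟨3, h⟩
  set P : ZI := DD (fam Δ) S with hP
  set Q : ZI := DD (fam Δ) Sᶜ with hQ
  have hDS : Δ = P * Q := by
    refine hDV.symm.trans ?_
    rw [hP, hQ]
    unfold DD
    exact (Finset.prod_mul_prod_compl _ _).symm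
  have hdk : d = im1 ^ k * P := by rw [hu, hk, mul_comm]
  set B' : ZI := im1 ^ (σ + 3 * k) * l1 * Q with hB'
  have hdB : d * B' = D := by
    rw [hD, hdk, hB', hDS]
    have h1 : (im1 : ZI) ^ k * im1 ^ (σ + 3 * k) = im1 ^ σ := by
      have h2 : k + (σ + 3 * k) = σ + 4 * k := by ring
      rw [← pow_add, h2, pow_add, pow_mul, im1_four, one_pow, mul_one]
    linear_combination (l1 * P * Q) * h1
  have hnd : ∀ (T : Finset {π : ZI // π ∈ PD Δ}) (j : {π : ZI // π ∈ PD Δ}), j ∉ T →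
      ¬ fam Δ j ∣ DD (fam Δ) T := by
    intro T j hT h
    unfold DD at h
    obtain ⟨i, hi, hji⟩ := ((hp.pp j).pr.dvd_finsetProd_iff _).1 h
    exact not_dvd_of_ne hp (fun h' => hT (by rw [h']; exact hi)) hji
  -- the local conditions
  have hloc : ∀ j, (j ∉ S → (k : ZMod 2) * wt (fam Δ) j + ∑ i ∈ S, Y699.em (fam Δ) i j = 0) ∧
      (j ∈ S → hO σ (fam Δ) j + (k : ZMod 2) * wt (fam Δ) j +
        ∑ i ∈ Sᶜ, Y699.em (fam Δ) i j = 0) := by
    intro j
    have hPP := hp.pp j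
    have hjD : fam Δ j ∣ Δ := (Finset.dvd_prod_of_mem (fam Δ) (Finset.mem_univ j)).trans (dvd_of_eq hDV)
    have h2 := not_dvd_two hPP
    have hju : ∀ n : ℕ, ¬ fam Δ j ∣ im1 ^ n := fun n h' =>
      hPP.pr.not_isUnit (isUnit_of_dvd_unit h' (hiu n))
    have hval : (plc e hPP.pr).valuation K (em0 e D) = WithZero.exp (-1 : ℤ) := by
      rw [hD, map_mul, map_mul, map_mul, map_mul, val_one e hPP.pr (hju σ),
        val_one e hPP.pr (hpp1 _ hPP), one_mul, one_mul, val_sqf e hPP.pr hg.sqf hjD]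
    obtain ⟨h1, h3⟩ := loc_bad' (d := d) (d' := B') (D' := 1) e hPP.pr hPP
      h2 hD0 hval hw hbd (h (plc e hPP.pr))
    constructor
    · intro hjS
      have h4 := h1 (fun h' => hjS (Finset.mem_filter.2 ⟨Finset.mem_univ _, h'⟩))
      rw [hdk] at h4
      exact sg_eq_one ((qr_im_DD hp k S hjS).symm.trans h4)
    · intro hjS
      have hjc : j ∉ Sᶜ := fun h6 => (Finset.mem_compl.1 h6) hjS
      have h4 := h3 hd (Finset.mem_filter.1 hjS).2 (by rw [hdB, one_pow, mul_one]) (by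
        intro h'
        rcases hPP.pr.dvd_or_dvd h' with h4 | h4
        · rcases hPP.pr.dvd_or_dvd h4 with h5 | h5
          · exact hju _ h5
          · exact hpp1 _ hPP h5
        · exact hnd _ _ hjc h4)
      have h5 := sg_eq_one ((qr_im_l1_DD hp (σ + 3 * k) Sᶜ hjc).symm.trans h4)
      rw [← h5]
      have h6 : hO σ (fam Δ) j = sl (fam Δ) j + σ * wt (fam Δ) j := rfl
      have h7 : ((σ + 3 * k : ℕ) : ZMod 2) = (σ : ZMod 2) + k := by
        push_cast
        have : (3 : ZMod 2) = 1 := rfl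
        rw [this, one_mul]
      rw [h6, h7]
      ring
  -- the place `1 + i`
  have hlast : (1 + cst σ) * (k : ZMod 2) + ∑ j ∈ S, wt (fam Δ) j = 0 := by
    have hB1 : B' = pi1 * (im1 ^ (σ + 3 * k) * Q) := by rw [hB', hl1]; ring
    have hB2 : ¬ pi1 ∣ im1 ^ (σ + 3 * k) * Q := by
      intro h'
      rcases pi1_prime.dvd_or_dvd h' with h4 | h4
      · exact pi1_prime.not_isUnit (isUnit_of_dvd_unit h4 (hiu _))
      · exact pi1_prim (DD_prim hp Sᶜ) h4
    have hh := h (plc e pi1_prime)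
    rw [← hdB] at hh
    obtain ⟨s, hs, hs2⟩ := loc_pi e hdo hB1 hB2 hw hbd hh
    obtain ⟨r1, -⟩ := res_DD hp S
    obtain ⟨r3, -⟩ := res_DD hp Sᶜ
    obtain ⟨q1, q2⟩ := sq_res hs
    have key : ∀ x : ZI, pi1 ^ 5 ∣ s ^ 2 - x →
        (x = im1 ^ k * P ∨ x = im1 ^ k * P + im1 ^ (σ + 3 * k) * l1 * Q) →
        (1 + cst σ) * (k : ZMod 2) + ∑ j ∈ S, wt (fam Δ) j = 0 := by
      intro x hx hx2
      obtain ⟨c1, c2⟩ := dvd_five hx
      rw [Zsqrtd.im_sub] at c1
      rw [Zsqrtd.im_sub, Zsqrtd.re_sub] at c2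
      exact res_u r1 (prim_odd (DD_prim hp S)).2 r3 (prim_odd (DD_prim hp Sᶜ)).2 hx2 (by omega)
        (by omega)
    rcases hs2 with h5 | h5
    · exact key d h5 (Or.inl hdk)
    · exact key _ h5 (Or.inr (by rw [hdk]))
  obtain ⟨hSe, hke⟩ := ker_trivial (h := hO σ (fam Δ)) (t := wt (fam Δ)) (c := 1 + cst σ)
    (A := Y699.em (fam Δ)) (S := S) (a := (k : ZMod 2)) (by
      have h1 : (MB (hO σ (fam Δ)) (wt (fam Δ)) (1 + cst σ) (Y699.em (fam Δ)) Finset.univ).det = 1 := hdt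
      rw [h1]; exact one_ne_zero) (fun j hj => (hloc j).1 hj) (fun j hj => (hloc j).2 hj) hlast
  obtain ⟨m, hm⟩ := (ZMod.natCast_eq_zero_iff_even).1 hke
  refine ⟨em0 e (im1 ^ m) * w, ?_⟩
  have hP1 : P = 1 := by rw [hP, hSe]; unfold DD; rw [Finset.prod_empty]
  rw [hbd, hdk, hP1, hm, mul_one, pow_add, map_mul]
  ring

/-- the local conditions are symmetric -/
lemma S1_inv {L : Type} [Field L] {D b : L} (hD : D ≠ 0) (hb : b ≠ 0)
    (h : ∃ y m : L, y ≠ 0 ∧ b * y ^ 2 = m ∧ S1 0 D m) :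
    ∃ y m : L, y ≠ 0 ∧ D / b * y ^ 2 = m ∧ S1 0 D m := by
  obtain ⟨y, m, hy, hm, h⟩ := h
  have hm0 : m ≠ 0 := by rw [← hm]; exact mul_ne_zero hb (pow_ne_zero 2 hy)
  refine ⟨1 / y, D / m, one_div_ne_zero hy, ?_, ?_⟩
  · rw [← hm]
    field_simp
  · rcases h with h | h | ⟨_, Y, hY⟩
    · right; left; rw [h, div_one]
    · left; rw [h, div_self hD]
    · right; right
      refine ⟨div_ne_zero hD hm0, D * Y / m ^ 2, ?_⟩
      rw [div_pow, mul_pow, hY]
      field_simp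
      ring

/-- **the Selmer group** -/
theorem selO {σ : ℕ} {Δ : ZI} (hg : PS Δ) (hdt : dO σ Δ = 1) {b : K} (hb : b ≠ 0)
    (h : ∀ v : HeightOneSpectrum (𝓞 K), ∃ y m : v.adicCompletion K, y ≠ 0 ∧
      algebraMap K (v.adicCompletion K) b * y ^ 2 = m ∧
        S1 0 (algebraMap K (v.adicCompletion K) (em0 e (im1 ^ σ * l1 * Δ))) m) :
    ∃ c : K, b = c ^ 2 ∨ b = em0 e (im1 ^ σ * l1 * Δ) * c ^ 2 := by
  have hl0 : (l1 : ZI) ≠ 0 := by decide
  have him0 : ∀ n : ℕ, (im1 : ZI) ^ n ≠ 0 := fun n => pow_ne_zero n (by decide)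
  have hiu : ∀ n : ℕ, IsUnit ((im1 : ZI) ^ n) := fun n =>
    Zsqrtd.norm_eq_one_iff.1 (by rw [norm_im]; rfl)
  have hD0 : (im1 ^ σ * l1 * Δ : ZI) ≠ 0 := mul_ne_zero (mul_ne_zero (him0 _) hl0) hg.ne
  have hDe : (em0 e (im1 ^ σ * l1 * Δ) : K) ≠ 0 := em0_ne e hD0
  obtain ⟨d, w, hd, hw, hbd⟩ := exists_sqf e hb
  by_cases hdo : pi1 ∣ d
  · obtain ⟨d2, w2, hd2, hw2, hbd2⟩ := exists_sqf e (div_ne_zero hDe hb)
    have hDv : (plc e pi1_prime).valuation K (em0 e (im1 ^ σ * l1 * Δ)) = WithZero.exp (-1 : ℤ) := by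
      have h1 : (im1 ^ σ * l1 * Δ : ZI) = pi1 * (im1 ^ σ * Δ) := by
        have : (l1 : ZI) = pi1 := rfl
        rw [this]; ring
      have h2 : ¬ pi1 ∣ im1 ^ σ * Δ := by
        intro h'
        rcases pi1_prime.dvd_or_dvd h' with h4 | h4
        · exact pi1_prime.not_isUnit (isUnit_of_dvd_unit h4 (hiu _))
        · exact pi1_prim hg.prm h4
      rw [h1, map_mul, map_mul, val_z, val_one e _ h2, mul_one]
    have hd2o : ¬ pi1 ∣ d2 := by
      intro h2
      have h3 := congrArg ((plc e pi1_prime).valuation K) hbd2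
      rw [map_div₀, hDv, hbd, map_mul, map_pow, val_sqf e _ hd hdo, map_mul, map_pow,
        val_sqf e _ hd2 h2] at h3
      have hvw : (plc e pi1_prime).valuation K w ≠ 0 := (Valuation.ne_zero_iff _).2 hw
      have hvw2 : (plc e pi1_prime).valuation K w2 ≠ 0 := (Valuation.ne_zero_iff _).2 hw2
      apply exp_sq (g := 1 / ((plc e pi1_prime).valuation K w * (plc e pi1_prime).valuation K w2))
      have he : WithZero.exp (-1 : ℤ) ≠ 0 := WithZero.exp_ne_zero
      rw [div_pow, mul_pow, one_pow]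
      field_simp at h3 ⊢
      exact h3
    obtain ⟨c, hc⟩ := sel_odd e hg hdt hd2 hw2 hbd2 hd2o (fun v => by
      have h1 := S1_inv (L := v.adicCompletion K) ((map_ne_zero (algebraMap K (v.adicCompletion K))).2 hDe)
        ((map_ne_zero (algebraMap K (v.adicCompletion K))).2 hb) (h v)
      rw [← map_div₀] at h1
      exact h1)
    have hc0 : c ≠ 0 := by
      rintro rfl
      rw [zero_pow two_ne_zero] at hc
      exact div_ne_zero hDe hb hc
    refine ⟨1 / c, Or.inr ?_⟩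
    rw [div_eq_iff hb] at hc
    rw [hc]
    field_simp
  · obtain ⟨c, hc⟩ := sel_odd e hg hdt hd hw hbd hdo h
    exact ⟨c, Or.inl hc⟩

variable {σ : ℕ} {Δ : ZI}

lemma DO_ne (hg : PS Δ) : (im1 ^ σ * l1 * Δ : ZI) ≠ 0 :=
  mul_ne_zero (mul_ne_zero (pow_ne_zero _ (by decide)) (by decide)) hg.ne

/-- the valuation of `D` at `1 + i` -/
lemma val_DO (hg : PS Δ) :
    (plc e pi1_prime).valuation K (em0 e (im1 ^ σ * l1 * Δ)) = WithZero.exp (-1 : ℤ) := by
  have hiu : IsUnit ((im1 : ZI) ^ σ) := Zsqrtd.norm_eq_one_iff.1 (by rw [norm_im]; rfl)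
  have h1 : (im1 ^ σ * l1 * Δ : ZI) = pi1 * (im1 ^ σ * Δ) := by
    have : (l1 : ZI) = pi1 := rfl
    rw [this]; ring
  have h2 : ¬ pi1 ∣ im1 ^ σ * Δ := by
    intro h'
    rcases pi1_prime.dvd_or_dvd h' with h4 | h4
    · exact pi1_prime.not_isUnit (isUnit_of_dvd_unit h4 hiu)
    · exact pi1_prim hg.prm h4
  rw [h1, map_mul, map_mul, val_z, val_one e _ h2, mul_one]

/-- there is no element of Sha of order two -/
theorem sha_twoO (hg : PS Δ) (hdt : dO σ Δ = 1)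
    {W : WeierstrassCurve K} (hT : IsT W 0 (em0 e (im1 ^ σ * l1 * Δ)))
    (x : Pool.Agent.TH841.NF.D.Sha W) (hx : 2 • x = 0) : x = 0 := by
  classical
  have h20 : (im1 ^ σ * l1 * Δ : ZI) ≠ 0 := DO_ne hg
  have hD0 : em0 e (im1 ^ σ * l1 * Δ) ≠ 0 := em0_ne e h20
  let U : Set (Kˣ ⧸ Sq K) :=
    {(1 : Kˣ ⧸ Sq K), ((Units.mk0 (em0 e (im1 ^ σ * l1 * Δ)) hD0 : Kˣ) : Kˣ ⧸ Sq K)}
  have hUf : U.Finite := Set.toFinite U
  have hfin : Finite U := hUf.to_subtype
  have hU2 : Nat.card U ≤ 2 := by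
    have h1 : U.ncard ≤ 2 := by
      refine (Set.ncard_insert_le _ _).trans ?_
      rw [Set.ncard_singleton]
    exact h1
  have key : ∀ b : Kˣ, (∃ c : K, (b : K) = c ^ 2 ∨ (b : K) = em0 e (im1 ^ σ * l1 * Δ) * c ^ 2) →
      (b : Kˣ ⧸ Sq K) ∈ U := by
    rintro b ⟨c, hc⟩
    have hc0 : c ≠ 0 := by
      rintro rfl
      rcases hc with hc | hc
      · rw [zero_pow two_ne_zero] at hc; exact b.ne_zero hc
      · rw [zero_pow two_ne_zero, mul_zero] at hc; exact b.ne_zero hc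
    rcases hc with hc | hc
    · left
      have h1 : (1 : Kˣ ⧸ Sq K) = ((1 : Kˣ) : Kˣ ⧸ Sq K) := rfl
      rw [h1, eq_comm, quot_eq]
      refine ⟨Units.mk0 c hc0, Units.ext ?_⟩
      rw [Units.val_mul, Units.val_one, one_mul, Units.val_pow_eq_pow_val, Units.val_mk0, hc]
    · right
      show (b : Kˣ ⧸ Sq K) = ((Units.mk0 (em0 e (im1 ^ σ * l1 * Δ)) hD0 : Kˣ) : Kˣ ⧸ Sq K)
      rw [eq_comm, quot_eq]
      refine ⟨Units.mk0 c hc0, Units.ext ?_⟩
      rw [Units.val_mul, Units.val_pow_eq_pow_val, Units.val_mk0, Units.val_mk0, hc]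
  have H1 : ∀ b : Kˣ, LL1 (0 : K) (em0 e (im1 ^ σ * l1 * Δ)) (b : K) → (b : Kˣ ⧸ Sq K) ∈ U := by
    intro b hb
    apply key
    apply selO e hg hdt b.ne_zero
    intro v
    have := hb.1 v
    rwa [map_zero] at this
  have H2 : ∀ b : Kˣ, LL2 (0 : K) (em0 e (im1 ^ σ * l1 * Δ)) (b : K) → (b : Kˣ ⧸ Sq K) ∈ U := by
    intro b hb
    apply key
    apply selO e hg hdt b.ne_zero
    intro v
    have := Pool.Agent.Y682.charZero_adic v
    have h1 := hb.1 v
    rw [map_zero] at h1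
    refine S2_S1 (i := algebraMap K (v.adicCompletion K) (em0 e im1)) ?_ h1
    rw [← map_pow, Pool.Agent.Y715.Z.im1_sq, map_neg, map_one]
  obtain ⟨hf, hc⟩ := Zc_card hT (U := U) (V := U) (Or.inl rfl) H1 H2
  obtain ⟨h3, h4⟩ := Zc_lower hT
  have h5 : Nat.card {x : Pool.Agent.TH841.NF.D.Sha W // 2 • x = 0} ≤ 1 := by
    have h6 : Nat.card (Zc W) ≤ 4 := hc.trans (by nlinarith)
    have h7 : 1 ≤ 2 ^ (Module.finrank ℤ (Pool.Agent.Y682.MP W)) := Nat.one_le_two_pow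
    have h8 := h4.trans h6
    nlinarith
  have h6 : Subsingleton {x : Pool.Agent.TH841.NF.D.Sha W // 2 • x = 0} :=
    Finite.card_le_one_iff_subsingleton.1 h5
  have h7 := @Subsingleton.elim _ h6 ⟨x, hx⟩ ⟨0, smul_zero _⟩
  exact congrArg Subtype.val h7

/-- the 2-primary part of Sha is trivial -/
theorem sha_powO (hg : PS Δ) (hdt : dO σ Δ = 1)
    {W : WeierstrassCurve K} (hT : IsT W 0 (em0 e (im1 ^ σ * l1 * Δ)))
    (n : ℕ) (x : Pool.Agent.TH841.NF.D.Sha W) (hx : 2 ^ n • x = 0) : x = 0 := by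
  induction n with
  | zero => rwa [pow_zero, one_smul] at hx
  | succ n ih =>
    apply ih
    apply sha_twoO e hg hdt hT
    rw [smul_smul, mul_comm, ← pow_succ]
    exact hx

/-- the class of the abscissa of a point -/
lemma clsO (hg : PS Δ) (hdt : dO σ Δ = 1) {x y : K} (hx : x ≠ 0)
    (hxy : y ^ 2 = x ^ 3 + em0 e (im1 ^ σ * l1 * Δ) * x) :
    ∃ c : K, x = c ^ 2 ∨ x = em0 e (im1 ^ σ * l1 * Δ) * c ^ 2 := by
  apply selO e hg hdt hx
  intro v
  refine ⟨1, algebraMap K (v.adicCompletion K) x, one_ne_zero, by rw [one_pow, mul_one],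
    Or.inr (Or.inr ⟨(map_ne_zero _).2 hx, algebraMap K (v.adicCompletion K) y, ?_⟩)⟩
  have h1 := congrArg (algebraMap K (v.adicCompletion K)) hxy
  rw [map_pow, map_add, map_mul, map_pow] at h1
  rw [h1]
  ring

/-- there are no points outside the two-torsion -/
theorem no_ptsO (hg : PS Δ) (hdt : dO σ Δ = 1) {x y : K}
    (hxy : y ^ 2 = x ^ 3 + em0 e (im1 ^ σ * l1 * Δ) * x) : y = 0 := by
  set D : K := em0 e (im1 ^ σ * l1 * Δ) with hD
  set l : K := em0 e pi1 with hl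
  set j : K := em0 e im1 with hj
  have hD0 : D ≠ 0 := em0_ne e (DO_ne hg)
  have hl0 : l ≠ 0 := em0_ne e pi1_prime.ne_zero
  have hjj : j ^ 2 = -1 := Pool.Agent.Y715.Z.im1_sq e
  have hj0 : j ≠ 0 := em0_ne e (by decide)
  have hll : l ^ 2 = 2 * j := by
    rw [hl, hj, ← map_pow]
    have : (pi1 ^ 2 : ZI) = 2 * im1 := by decide
    rw [this, map_mul, map_ofNat]
  set W := (plc e pi1_prime).valuation K with hW
  have hlv : W l = WithZero.exp (-1 : ℤ) := val_z e pi1_prime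
  have hDv : W D = WithZero.exp (-1 : ℤ) := val_DO e hg
  set X : Set K := {x | ∃ y : K, y ≠ 0 ∧ y ^ 2 = x ^ 3 + D * x} with hX
  have hx0 : ∀ x ∈ X, x ≠ 0 := by
    rintro x ⟨y, hy, hxy⟩ rfl
    apply hy
    have : y ^ 2 = 0 := by rw [hxy]; ring
    exact pow_eq_zero_iff (by norm_num) |>.1 this
  -- halving when the abscissa is a square
  have hhalf : ∀ x ∈ X, ∀ w : K, x = w ^ 2 → ∃ x' ∈ X, x'^ 2 + D = l ^ 2 * x' * x := by
    rintro x hx w hxw
    have n0 := hx0 x hx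
    obtain ⟨y, hy, hxy⟩ := hx
    have hw0 : w ≠ 0 := by
      rintro rfl
      apply n0
      rw [hxw]; ring
    set b : K := y / w with hb
    have hb2 : b ^ 2 = x ^ 2 + D := by
      rw [hb, div_pow, hxy, ← hxw]
      field_simp
    have hprod : (w ^ 2 + b) * (w ^ 2 - b) = -D := by
      rw [← hxw]
      linear_combination -hb2
    have hs0 : w ^ 2 + b ≠ 0 := by
      intro h
      rw [h, zero_mul] at hprod
      exact hD0 (neg_eq_zero.1 hprod.symm)
    set x' : K := j * (w ^ 2 + b) with hx'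
    have hx'0 : x' ≠ 0 := mul_ne_zero hj0 hs0
    have key : x' ^ 2 + D = l ^ 2 * x' * x := by
      rw [hx', hll, hxw]
      have hb2' : b ^ 2 = w ^ 4 + D := by rw [hb2, hxw]; ring
      linear_combination (w ^ 4 + 2 * w ^ 2 * b + b ^ 2 - 2 * w ^ 2 * (w ^ 2 + b)) * hjj - hb2'
    refine ⟨x', ⟨l * w * x', mul_ne_zero (mul_ne_zero hl0 hw0) hx'0, ?_⟩, key⟩
    have e : x' ^ 3 + D * x' = x' * (x' ^ 2 + D) := by ring
    rw [e, key, hxw]
    ring
  -- the valuations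
  have hval : ∀ n n' : ℤ, ∀ x x' : K, x' ^ 2 + D = l ^ 2 * x' * x → n % 2 = 0 →
      W x = WithZero.exp (-n) → W x' = WithZero.exp (-n') →
      |2 * n - 1| = |2 * n' - 1| + 4 := by
    intro n n' x x' h hn2 hn hn'
    have e1 : W (l ^ 2 * x' * x) = WithZero.exp (-2 - n' - n) := by
      rw [map_mul, map_mul, map_pow, hlv, hn, hn', ← WithZero.exp_nsmul, ← WithZero.exp_add,
        ← WithZero.exp_add]
      congr 1
    have e2 : W (x' ^ 2) = WithZero.exp (-2 * n') := by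
      rw [map_pow, hn', ← WithZero.exp_nsmul]
      congr 1
      simp
    rcases lt_or_ge 0 n' with h1 | h1
    · have h2 : W (x' ^ 2 + D) = WithZero.exp (-1 : ℤ) := by
        rw [Valuation.map_add_eq_of_lt_right, hDv]
        rw [e2, hDv, WithZero.exp_lt_exp]
        omega
      rw [h, e1] at h2
      have h3 := WithZero.exp_injective h2
      have h4 : n = -1 - n' := by omega
      rw [abs_of_neg (by omega), abs_of_pos (by omega)]
      omega
    · have h2 : W (x' ^ 2 + D) = WithZero.exp (-2 * n') := by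
        rw [Valuation.map_add_eq_of_lt_left, e2]
        rw [e2, hDv, WithZero.exp_lt_exp]
        omega
      rw [h, e1] at h2
      have h3 := WithZero.exp_injective h2
      have h4 : n = n' - 2 := by omega
      rw [abs_of_neg (by omega), abs_of_neg (by omega)]
      omega
  have hvx : ∀ x : K, x ≠ 0 → ∃ n : ℤ, W x = WithZero.exp (-n) := by
    intro x hx
    obtain ⟨r, hr⟩ := exists_exp W hx
    exact ⟨-r, by rw [hr, neg_neg]⟩
  have heven : ∀ x w : K, x = w ^ 2 → x ≠ 0 → ∀ n : ℤ, W x = WithZero.exp (-n) → n % 2 = 0 := by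
    intro x w hxw hx n hn
    have hw0 : w ≠ 0 := by
      rintro rfl
      apply hx
      rw [hxw]; ring
    obtain ⟨r, hr⟩ := exists_exp W hw0
    rw [hxw, map_pow, hr, ← WithZero.exp_nsmul] at hn
    have h3 := WithZero.exp_injective hn
    simp at h3
    omega
  have hstep : ∀ n : ℤ, ∀ x ∈ X, W x = WithZero.exp (-n) → ∃ x' ∈ X, ∃ n' : ℤ,
      W x' = WithZero.exp (-n') ∧ |2 * n - 1| = |2 * n' - 1| + 4 := by
    intro n x hx hn
    have n0 := hx0 x hx
    obtain ⟨y, hy, hxy⟩ := id hx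
    obtain ⟨w, hw1 | hw1⟩ := clsO e hg hdt n0 hxy
    · obtain ⟨x', hx', h1⟩ := hhalf x hx w hw1
      obtain ⟨n', hn'⟩ := hvx x' (hx0 x' hx')
      exact ⟨x', hx', n', hn', hval n n' x x' h1 (heven x w hw1 n0 n hn) hn hn'⟩
    · change x = D * w ^ 2 at hw1
      have hw0 : w ≠ 0 := by
        rintro rfl
        apply n0
        rw [hw1]; ring
      have hτ : D / x ∈ X := by
        refine ⟨D * y / x ^ 2, div_ne_zero (mul_ne_zero hD0 hy) (pow_ne_zero 2 n0), ?_⟩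
        rw [div_pow, mul_pow, hxy]
        field_simp
        ring
      have hτsq : D / x = (1 / w) ^ 2 := by
        rw [hw1]
        field_simp
      obtain ⟨x', hx', h1⟩ := hhalf _ hτ _ hτsq
      obtain ⟨n', hn'⟩ := hvx x' (hx0 x' hx')
      have hτv : W (D / x) = WithZero.exp (-(1 - n)) := by
        rw [map_div₀, hDv, hn, ← WithZero.exp_sub]
        congr 1
        ring
      have h2 := hval (1 - n) n' _ x' h1 (heven _ _ hτsq (div_ne_zero hD0 n0) _ hτv) hτv hn'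
      refine ⟨x', hx', n', hn', ?_⟩
      rw [← h2]
      have h5 : 2 * (1 - n) - 1 = -(2 * n - 1) := by ring
      rw [h5, abs_neg]
  have hno : ∀ k : ℕ, ∀ n : ℤ, ∀ x ∈ X, W x = WithZero.exp (-n) → |2 * n - 1| = k → False := by
    intro k
    induction k using Nat.strong_induction_on with
    | _ k ih =>
      intro n x hx hn hk
      obtain ⟨x', hx', n', hn', h1⟩ := hstep n x hx hn
      have := abs_nonneg (2 * n' - 1)
      refine ih (k - 4) (by omega) n' x' hx' hn' (by omega)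
  by_contra hy
  have hxX : x ∈ X := ⟨y, hy, hxy⟩
  obtain ⟨n, hn⟩ := hvx x (hx0 x hxX)
  exact hno (2 * n - 1).natAbs n x hxX hn (by rw [Int.abs_eq_natAbs])

/-- `-D` is not a square -/
lemma neg_not_sqO (hg : PS Δ) (r : K) : r ^ 2 ≠ -(em0 e (im1 ^ σ * l1 * Δ)) := by
  intro hr
  have h1 := congrArg ((plc e pi1_prime).valuation K) hr
  rw [Valuation.map_neg, map_pow, val_DO e hg] at h1
  exact exp_sq h1

end

end Pool.Agent.D0H76.Q4.Two

namespace Pool.Agent.D0H76.Q4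

open Pool.Agent.Y699
open Pool.Agent.Y715.Z hiding im1_sq
open Pool.Agent.D0H43.Q4 (S_SELO)

/-- **D3-SEL** -/
theorem selo : S_SELO := by
  intro σ K _ _ e Δ hg hdt
  have h20 := Two.DO_ne (σ := σ) hg
  refine ⟨?_, fun n x hx => Two.sha_powO e hg hdt ?_ n x hx⟩
  · exact card_pts4 (K := K) (Two.neg_not_sqO e hg) two_ne_zero
      (fun x y h => Two.no_ptsO e hg hdt h)
  · refine ⟨rfl, rfl, rfl, rfl, rfl, em0_ne e h20, ?_⟩
    rw [zero_pow two_ne_zero, zero_sub, neg_ne_zero]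
    exact mul_ne_zero (by norm_num) (em0_ne e h20)

end Pool.Agent.D0H76.Q4
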