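import Pool.Agent.D0H43.Q4.Stm5
import Pool.Agent.D0H77.Q4.Sup
import Pool.Agent.D0H76.Q4.Ker

/-!
Project Q4, block D3, module CONVO: a kernel vector of the bordered matrix, and the residues.
-/

set_option autoImplicit false
set_option linter.unusedSectionVars false

open NumberField IsDedekindDomain

namespace Pool.Agent.D0H76.Q4.Two

open Pool.Agent.Y699
open Pool.Agent.D0H10.Q4 (rh)
open Pool.Agent.D0H43.Q4 (MB dO cO hO sl xl l1 cst)
open Pool.Agent.H304R2.EC.A1 (prim prim_mul)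
open H385 (ZI RQ im1 nrm)

section comb

variable {ι : Type} [DecidableEq ι] [Fintype ι]

/-- a kernel vector -/
lemma ker_bordered (h t : ι → ZMod 2) (c : ZMod 2) (A : ι → ι → ZMod 2) (hA : ∀ i j, A i j = A j i)
    (hd : (MB h t c A Finset.univ).det = 0) :
    ∃ (S : Finset ι) (a : ZMod 2), (S.Nonempty ∨ a = 1) ∧
      (∀ j, j ∉ S → a * t j + ∑ i ∈ S, A i j = 0) ∧
      (∀ j, j ∈ S → h j + a * t j + ∑ i ∈ Sᶜ, A i j = 0) ∧
      (c * a + ∑ j ∈ S, t j = 0) ∧ (∑ j ∈ S, h j + a * ∑ j, t j = 0) := by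
  classical
  obtain ⟨x, hx0, hx⟩ := Matrix.exists_mulVec_eq_zero_iff.2 hd
  set a : ZMod 2 := x none with ha
  set f : ι → ZMod 2 := fun i => x (some ⟨i, Finset.mem_univ i⟩) with hf
  have h01 : ∀ b : ZMod 2, b = 0 ∨ b = 1 := by decide
  have e2 : ∀ b : ZMod 2, b + b = 0 := by decide
  have hsub : ∀ g : ι → ZMod 2, ∑ i : {i // i ∈ (Finset.univ : Finset ι)}, g i.1 = ∑ i, g i := by
    intro g
    rw [Finset.sum_coe_sort Finset.univ g]
  have hnone : c * a + ∑ j, t j * f j = 0 := by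
    have h1 := congrFun hx none
    rw [Matrix.mulVec, dotProduct, Fintype.sum_option] at h1
    have h2 : ∑ i : {i // i ∈ (Finset.univ : Finset ι)}, MB h t c A Finset.univ none (some i) * x (some i) =
        ∑ j, t j * f j := hsub (fun j => t j * f j)
    rw [h2] at h1
    exact h1
  have hrow : ∀ j, a * t j + (h j * f j + ∑ i, A i j * (f i + f j)) = 0 := by
    intro j
    have h1 := congrFun hx (some ⟨j, Finset.mem_univ j⟩)
    rw [Matrix.mulVec, dotProduct, Fintype.sum_option] at h1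
    have h2 : ∑ i : {i // i ∈ (Finset.univ : Finset ι)},
        MB h t c A Finset.univ (some ⟨j, Finset.mem_univ j⟩) (some i) * x (some i) =
        ∑ i, (if j = i then h j + ∑ l ∈ Finset.univ.erase j, A l j else A i j) * f i := by
      rw [← hsub (fun i => (if j = i then h j + ∑ l ∈ Finset.univ.erase j, A l j else A i j) * f i)]
      refine Finset.sum_congr rfl fun i _ => ?_
      simp only [MB, Subtype.ext_iff, hf]
    rw [h2] at h1
    rw [← Finset.add_sum_erase _ _ (Finset.mem_univ j), if_pos rfl] at h1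
    have h3 : ∑ i ∈ Finset.univ.erase j, (if j = i then h j + ∑ l ∈ Finset.univ.erase j, A l j
        else A i j) * f i = ∑ i ∈ Finset.univ.erase j, A i j * f i :=
      Finset.sum_congr rfl fun i hi => by rw [if_neg (Finset.ne_of_mem_erase hi).symm]
    rw [h3] at h1
    change t j * a + ((h j + ∑ l ∈ Finset.univ.erase j, A l j) * f j +
      ∑ i ∈ Finset.univ.erase j, A i j * f i) = 0 at h1
    rw [← Finset.add_sum_erase Finset.univ (fun i => A i j * (f i + f j)) (Finset.mem_univ j), e2,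
      mul_zero, zero_add]
    rw [← h1, add_mul, Finset.sum_mul, add_assoc, ← Finset.sum_add_distrib, mul_comm a]
    congr 2
    exact Finset.sum_congr rfl fun i _ => by ring
  set S : Finset ι := Finset.univ.filter (fun i => f i = 1) with hS
  have hf1 : ∀ i ∈ S, f i = 1 := fun i hi => (Finset.mem_filter.1 hi).2
  have hf0 : ∀ i, i ∉ S → f i = 0 := by
    intro i hi
    rcases h01 (f i) with h2 | h2
    · exact h2
    · exact absurd (Finset.mem_filter.2 ⟨Finset.mem_univ i, h2⟩) hi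
  have hfs : ∀ g : ι → ZMod 2, ∑ i, g i * f i = ∑ i ∈ S, g i := by
    intro g
    rw [← Finset.sum_add_sum_compl S]
    rw [Finset.sum_congr rfl (fun i hi => by rw [hf1 i hi, mul_one] : ∀ i ∈ S, g i * f i = g i),
      Finset.sum_eq_zero (fun i hi => by rw [hf0 i (Finset.mem_compl.1 hi), mul_zero] :
        ∀ i ∈ Sᶜ, g i * f i = 0), add_zero]
  refine ⟨S, a, ?_, ?_, ?_, ?_, ?_⟩
  · by_contra hcon
    rw [not_or, Finset.not_nonempty_iff_eq_empty] at hcon
    apply hx0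
    funext o
    cases o with
    | none => exact (h01 a).resolve_right hcon.2
    | some i => exact hf0 i.1 (by rw [hcon.1]; exact Finset.notMem_empty _)
  · intro j hj
    have h1 := hrow j
    rw [hf0 j hj, mul_zero, zero_add] at h1
    rw [← h1, ← hfs]
    congr 1
    exact Finset.sum_congr rfl fun i _ => by rw [add_zero]
  · intro j hj
    have h1 := hrow j
    rw [hf1 j hj, mul_one, ← Finset.sum_add_sum_compl S] at h1
    have h2 : ∑ i ∈ S, A i j * (f i + 1) = 0 :=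
      Finset.sum_eq_zero fun i hi => by rw [hf1 i hi, e2, mul_zero]
    have h3 : ∑ i ∈ Sᶜ, A i j * (f i + 1) = ∑ i ∈ Sᶜ, A i j :=
      Finset.sum_congr rfl fun i hi => by rw [hf0 i (Finset.mem_compl.1 hi), zero_add, mul_one]
    rw [h2, h3, zero_add] at h1
    rw [← h1]
    ring
  · rw [← hfs]
    exact hnone
  · have h1 : ∑ j, (a * t j + (h j * f j + ∑ i, A i j * (f i + f j))) = 0 :=
      Finset.sum_eq_zero fun j _ => hrow j
    rw [Finset.sum_add_distrib, Finset.sum_add_distrib, ← Finset.mul_sum, hfs] at h1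
    have h2 : ∑ j, ∑ i, A i j * (f i + f j) = 0 := by
      have e1 : ∑ j, ∑ i, A i j * (f i + f j) = ∑ j, ∑ i, A i j * f i + ∑ j, ∑ i, A i j * f j := by
        rw [← Finset.sum_add_distrib]
        refine Finset.sum_congr rfl fun v _ => ?_
        rw [← Finset.sum_add_distrib]
        exact Finset.sum_congr rfl fun u _ => by ring
      rw [e1, Finset.sum_comm]
      have e3 : ∑ i, ∑ j, A i j * f i = ∑ j, ∑ i, A i j * f j :=
        Finset.sum_congr rfl fun u _ => Finset.sum_congr rfl fun v _ => by rw [hA]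
      rw [e3]
      exact e2 _
    rw [h2, add_zero] at h1
    rw [← h1]
    ring

end comb

/-! ### Residues -/

lemma prim_odd {a : ZI} (h : prim a) : a.im % 2 = 0 ∧ (a.re + a.im) % 4 = 1 := by
  obtain ⟨h1, h2⟩ := h
  constructor <;> omega

/-- the parity of the exponent of `1 + i` -/
lemma xl_mod {a : ZI} (h : prim a) : (xl a : ZMod 2) = if (a.re + a.im) % 8 = 1 then 0 else 1 := by
  obtain ⟨h1, h2⟩ := prim_odd h
  obtain ⟨x, y⟩ := a
  simp only at h1 h2 ⊢
  obtain ⟨k, rfl⟩ : ∃ k, y = 2 * k := ⟨y / 2, by omega⟩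
  obtain ⟨m, hm⟩ : ∃ m, x = 1 - 2 * k + 4 * m := ⟨(x + 2 * k) / 4, by omega⟩
  subst hm
  have e1 : (1 - 2 * k + 4 * m - 2 * k - (2 * k) ^ 2 - 1) / 4 = m - k - k ^ 2 := by
    have : 1 - 2 * k + 4 * m - 2 * k - (2 * k) ^ 2 - 1 = (m - k - k ^ 2) * 4 := by ring
    rw [this, Int.mul_ediv_cancel _ (by norm_num)]
  have e3 : (k + k ^ 2) % 2 = 0 := by
    rcases Int.emod_two_eq_zero_or_one k with h | h
    · rw [sq, Int.add_emod, Int.mul_emod, h]; norm_num
    · rw [sq, Int.add_emod, Int.mul_emod, h]; norm_num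
  have e4 : (xl ⟨1 - 2 * k + 4 * m, 2 * k⟩ : ℤ) % 2 = m % 2 := by
    unfold xl
    simp only
    rw [e1, Int.toNat_of_nonneg (Int.emod_nonneg _ (by norm_num))]
    omega
  have e5 : (xl ⟨1 - 2 * k + 4 * m, 2 * k⟩ : ZMod 2) = ((m % 2 : ℤ) : ZMod 2) := by
    rw [← e4]
    have : ((((xl ⟨1 - 2 * k + 4 * m, 2 * k⟩ : ℕ) : ℤ) % 2 : ℤ) : ZMod 2) =
        (((xl ⟨1 - 2 * k + 4 * m, 2 * k⟩ : ℕ) : ℤ) : ZMod 2) :=
      ZMod.intCast_mod _ 2
    rw [this]
    norm_cast
  rw [e5]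
  rcases Int.emod_two_eq_zero_or_one m with h | h
  · rw [h, if_pos (by omega)]; rfl
  · rw [h, if_neg (by omega)]; rfl

variable {ι : Type} [DecidableEq ι] {pr : ι → ZI}

lemma wt_mod (hp : PF pr) (j : ι) : wt pr j = if (pr j).im % 4 = 0 then 0 else 1 := by
  have h := (hp.pp j).prm
  obtain ⟨h1, h2⟩ := prim_odd h
  have h3 : wt pr j = if (pr j).norm % 8 = 5 then 1 else 0 := rfl
  rw [h3, Pool.Agent.H304R2.EC.A1.norm_def']
  generalize (pr j).re = x at *
  generalize (pr j).im = y at *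
  obtain ⟨k, rfl⟩ : ∃ k, y = 2 * k := ⟨y / 2, by omega⟩
  have hx : x ^ 2 % 8 = 1 := by
    have h8 : x % 8 = 1 ∨ x % 8 = 3 ∨ x % 8 = 5 ∨ x % 8 = 7 := by omega
    rcases h8 with h8 | h8 | h8 | h8 <;> rw [sq, Int.mul_emod, h8] <;> rfl
  have e1 : (2 * k) ^ 2 = 4 * k ^ 2 := by ring
  have e2 : (4 * k ^ 2) % 8 = 4 * (k % 2) := by
    rcases Int.emod_two_eq_zero_or_one k with h | h
    · obtain ⟨l, rfl⟩ : ∃ l, k = 2 * l := ⟨k / 2, by omega⟩
      have : 4 * (2 * l) ^ 2 = 8 * (2 * l ^ 2) := by ring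
      rw [this]
      omega
    · obtain ⟨l, rfl⟩ : ∃ l, k = 2 * l + 1 := ⟨k / 2, by omega⟩
      have : 4 * (2 * l + 1) ^ 2 = 8 * (2 * l ^ 2 + 2 * l) + 4 := by ring
      rw [this]
      omega
  rw [e1]
  by_cases hk : k % 2 = 0
  · rw [if_neg (by omega), if_pos (by omega)]
  · rw [if_pos (by omega), if_neg (by omega)]

/-- the residue of the product modulo `4 (1 + i)` -/
lemma res_DD (hp : PF pr) (S : Finset ι) :
    ((∑ j ∈ S, wt pr j = 0 ∧ (DD pr S).im % 4 = 0) ∨ (∑ j ∈ S, wt pr j = 1 ∧ (DD pr S).im % 4 = 2)) ∧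
    ((∑ j ∈ S, sl pr j = 0 ∧ ((DD pr S).re + (DD pr S).im) % 8 = 1) ∨
      (∑ j ∈ S, sl pr j = 1 ∧ ((DD pr S).re + (DD pr S).im) % 8 = 5)) := by
  unfold DD
  induction S using Finset.induction_on with
  | empty =>
    rw [Finset.sum_empty, Finset.sum_empty, Finset.prod_empty]
    exact ⟨Or.inl ⟨rfl, rfl⟩, Or.inl ⟨rfl, rfl⟩⟩
  | insert j S hj ih =>
    rw [Finset.sum_insert hj, Finset.sum_insert hj, Finset.prod_insert hj]
    have h1 : wt pr j = if (pr j).im % 4 = 0 then 0 else 1 := wt_mod hp j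
    have h2 : sl pr j = if ((pr j).re + (pr j).im) % 8 = 1 then 0 else 1 := xl_mod (hp.pp j).prm
    obtain ⟨p1, p2⟩ := prim_odd (hp.pp j).prm
    have hS : prim (∏ i ∈ S, pr i) := DD_prim hp S
    obtain ⟨q1, q2⟩ := prim_odd hS
    rw [h1, h2, Zsqrtd.re_mul, Zsqrtd.im_mul]
    generalize (pr j).re = a at *
    generalize (pr j).im = b at *
    generalize (∏ i ∈ S, pr i).re = c at *
    generalize (∏ i ∈ S, pr i).im = d at *
    obtain ⟨b', rfl⟩ : ∃ b', b = 2 * b' := ⟨b / 2, by omega⟩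
    obtain ⟨d', rfl⟩ : ∃ d', d = 2 * d' := ⟨d / 2, by omega⟩
    obtain ⟨m, hm⟩ : ∃ m, a = 1 - 2 * b' + 4 * m := ⟨(a + 2 * b') / 4, by omega⟩
    obtain ⟨n, hn⟩ : ∃ n, c = 1 - 2 * d' + 4 * n := ⟨(c + 2 * d') / 4, by omega⟩
    subst hm hn
    have e1 : (1 - 2 * b' + 4 * m) * (2 * d') + 2 * b' * (1 - 2 * d' + 4 * n) =
        2 * (b' + d') + 4 * (2 * m * d' + 2 * b' * n - 2 * b' * d') := by ring
    have e2 : (1 - 2 * b' + 4 * m) * (1 - 2 * d' + 4 * n) + -1 * (2 * b') * (2 * d') +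
        ((1 - 2 * b' + 4 * m) * (2 * d') + 2 * b' * (1 - 2 * d' + 4 * n)) =
        1 + 4 * (m + n) + 8 * (2 * m * n - b' * d') := by ring
    rw [e2, e1]
    obtain ⟨ih1, ih2⟩ := ih
    constructor
    · rcases ih1 with ⟨c1, c2⟩ | ⟨c1, c2⟩ <;> rw [c1] <;> split_ifs with h5
      · left; exact ⟨by decide, by omega⟩
      · right; exact ⟨by decide, by omega⟩
      · right; exact ⟨by decide, by omega⟩
      · left; exact ⟨by decide, by omega⟩
    · rcases ih2 with ⟨c1, c2⟩ | ⟨c1, c2⟩ <;> rw [c1] <;> split_ifs with h5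
      · left; exact ⟨by decide, by omega⟩
      · right; exact ⟨by decide, by omega⟩
      · right; exact ⟨by decide, by omega⟩
      · left; exact ⟨by decide, by omega⟩

end Pool.Agent.D0H76.Q4.Two
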