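import Pool.Agent.D0H76.Q4.Convo
import Pool.Agent.D0H49.Q4.Loc

/-!
Project Q4, block D3, module SELO: the place `1 + i`.
-/

set_option autoImplicit false
set_option linter.unusedSectionVars false

open NumberField IsDedekindDomain

namespace Pool.Agent.D0H76.Q4.Two

open Pool.Agent.Y682 (S1 S2 vv vv_coe exists_sqrt)
open Pool.Agent.Y699
open Pool.Agent.D0H43.Q4 (MB dO cO hO sl xl l1 cst S_SELO)
open Pool.Agent.H304R2.EC.A1 (prim prim_mul)
open Pool.Agent.Y715.Z (em0 ph val_z val_one val_lt val_le em0_ne em0_inj em0_apply exp_sq)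
open Pool.Agent.D0H49.Q4 (exists_exp approx dvd_of_val loc_bad')
open H385 (ZI RQ im1 nrm)

lemma pow_four {a : ZI} (ha : (a.re + a.im) % 2 = 1) : ∃ y : ZI, a ^ 4 = 1 + 4 * y := by
  obtain ⟨p, q⟩ := a
  simp only at ha
  rcases Int.emod_two_eq_zero_or_one p with hp | hp
  · obtain ⟨P, rfl⟩ : ∃ P, p = 2 * P := ⟨p / 2, by omega⟩
    obtain ⟨Q, rfl⟩ : ∃ Q, q = 2 * Q + 1 := ⟨q / 2, by omega⟩
    refine ⟨⟨4 * P ^ 4 - 6 * P ^ 2 * (2 * Q + 1) ^ 2 + 4 * Q ^ 4 + 8 * Q ^ 3 + 6 * Q ^ 2 + 2 * Q,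
      8 * P ^ 3 * (2 * Q + 1) - 2 * P * (2 * Q + 1) ^ 3⟩, ?_⟩
    ext
    · simp [pow_succ]; ring
    · simp [pow_succ]; ring
  · obtain ⟨P, rfl⟩ : ∃ P, p = 2 * P + 1 := ⟨p / 2, by omega⟩
    obtain ⟨Q, rfl⟩ : ∃ Q, q = 2 * Q := ⟨q / 2, by omega⟩
    refine ⟨⟨4 * Q ^ 4 - 6 * Q ^ 2 * (2 * P + 1) ^ 2 + 4 * P ^ 4 + 8 * P ^ 3 + 6 * P ^ 2 + 2 * P,
      2 * Q * (2 * P + 1) ^ 3 - 8 * Q ^ 3 * (2 * P + 1)⟩, ?_⟩
    ext
    · simp [pow_succ]; ring
    · simp [pow_succ]; ring

lemma dvd_five {x : ZI} (h : pi1 ^ 5 ∣ x) : x.im % 4 = 0 ∧ (x.re + x.im) % 8 = 0 := by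
  obtain ⟨⟨p, q⟩, rfl⟩ := h
  have h5 : (pi1 ^ 5 : ZI) = ⟨-4, -4⟩ := by decide
  rw [h5]
  simp only [Zsqrtd.re_mul, Zsqrtd.im_mul]
  constructor <;> omega

lemma sq_res {s : ZI} (h : ¬ pi1 ∣ s) :
    (s ^ 2).im % 4 = 0 ∧ (((s ^ 2).re + (s ^ 2).im) % 8 = 1 ∨ ((s ^ 2).re + (s ^ 2).im) % 8 = 7) := by
  rw [odd_iff] at h
  obtain ⟨p, q⟩ := s
  simp only at h
  rw [sq]
  simp only [Zsqrtd.re_mul, Zsqrtd.im_mul]
  rcases Int.emod_two_eq_zero_or_one p with hp | hp
  · obtain ⟨P, rfl⟩ : ∃ P, p = 2 * P := ⟨p / 2, by omega⟩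
    obtain ⟨Q, rfl⟩ : ∃ Q, q = 2 * Q + 1 := ⟨q / 2, by omega⟩
    have e1 : 2 * P * (2 * Q + 1) + (2 * Q + 1) * (2 * P) = 4 * (2 * P * Q + P) := by ring
    obtain ⟨w, hw⟩ : ∃ w, P * P = P + 2 * w := by
      rcases Int.emod_two_eq_zero_or_one P with h5 | h5
      · obtain ⟨l, rfl⟩ : ∃ l, P = 2 * l := ⟨P / 2, by omega⟩
        exact ⟨2 * l ^ 2 - l, by ring⟩
      · obtain ⟨l, rfl⟩ : ∃ l, P = 2 * l + 1 := ⟨P / 2, by omega⟩
        exact ⟨2 * l ^ 2 + l, by ring⟩
    obtain ⟨z, hz⟩ : ∃ z, Q * Q = Q + 2 * z := by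
      rcases Int.emod_two_eq_zero_or_one Q with h5 | h5
      · obtain ⟨l, rfl⟩ : ∃ l, Q = 2 * l := ⟨Q / 2, by omega⟩
        exact ⟨2 * l ^ 2 - l, by ring⟩
      · obtain ⟨l, rfl⟩ : ∃ l, Q = 2 * l + 1 := ⟨Q / 2, by omega⟩
        exact ⟨2 * l ^ 2 + l, by ring⟩
    have e2 : 2 * P * (2 * P) + -1 * (2 * Q + 1) * (2 * Q + 1) +
        (2 * P * (2 * Q + 1) + (2 * Q + 1) * (2 * P)) =
        -1 + 8 * (P + w - Q - z + P * Q) := by
      linear_combination 4 * hw - 4 * hz
    rw [e2, e1]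
    constructor
    · omega
    · right; omega
  · obtain ⟨P, rfl⟩ : ∃ P, p = 2 * P + 1 := ⟨p / 2, by omega⟩
    obtain ⟨Q, rfl⟩ : ∃ Q, q = 2 * Q := ⟨q / 2, by omega⟩
    have e1 : (2 * P + 1) * (2 * Q) + 2 * Q * (2 * P + 1) = 4 * (2 * P * Q + Q) := by ring
    obtain ⟨w, hw⟩ : ∃ w, P * P = P + 2 * w := by
      rcases Int.emod_two_eq_zero_or_one P with h5 | h5
      · obtain ⟨l, rfl⟩ : ∃ l, P = 2 * l := ⟨P / 2, by omega⟩
        exact ⟨2 * l ^ 2 - l, by ring⟩
      · obtain ⟨l, rfl⟩ : ∃ l, P = 2 * l + 1 := ⟨P / 2, by omega⟩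
        exact ⟨2 * l ^ 2 + l, by ring⟩
    obtain ⟨z, hz⟩ : ∃ z, Q * Q = Q + 2 * z := by
      rcases Int.emod_two_eq_zero_or_one Q with h5 | h5
      · obtain ⟨l, rfl⟩ : ∃ l, Q = 2 * l := ⟨Q / 2, by omega⟩
        exact ⟨2 * l ^ 2 - l, by ring⟩
      · obtain ⟨l, rfl⟩ : ∃ l, Q = 2 * l + 1 := ⟨Q / 2, by omega⟩
        exact ⟨2 * l ^ 2 + l, by ring⟩
    have e2 : (2 * P + 1) * (2 * P + 1) + -1 * (2 * Q) * (2 * Q) +
        ((2 * P + 1) * (2 * Q) + 2 * Q * (2 * P + 1)) =
        1 + 8 * (P + w - z + P * Q) := by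
      linear_combination 4 * hw - 4 * hz
    rw [e2, e1]
    constructor
    · omega
    · left; omega

section

variable {K : Type} [Field K] [NumberField K] (e : ZI ≃+* 𝓞 K)

/-- squares of units -/
lemma apx {N : (plc (K := K) e pi1_prime).adicCompletion K} (hN : vv (plc (K := K) e pi1_prime) N = 1) :
    ∃ s : ZI, ¬ pi1 ∣ s ∧ vv (plc (K := K) e pi1_prime) (ph e pi1_prime (em0 e s) ^ 2 - N ^ 2) ≤
      WithZero.exp (-(5 : ℤ)) := by
  obtain ⟨s, hs⟩ := approx e pi1_prime N hN.le 5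
  have hle1 : WithZero.exp (-((5 : ℕ) : ℤ)) < (1 : WithZero (Multiplicative ℤ)) := by
    rw [← WithZero.exp_zero, WithZero.exp_lt_exp]; norm_num
  have hva : ∀ a' : ZI, vv (plc (K := K) e pi1_prime) (ph e pi1_prime (em0 e a')) ≤ 1 := fun a' => by
    rw [vv_coe]; exact val_le e _ a'
  refine ⟨s, ?_, ?_⟩
  · intro h3
    have h4 : vv (plc (K := K) e pi1_prime) (ph e pi1_prime (em0 e s)) < 1 := by
      rw [vv_coe]; exact (val_lt e _ _).2 h3
    have h5 : vv (plc (K := K) e pi1_prime) N < 1 := by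
      have : N = ph e pi1_prime (em0 e s) - (ph e pi1_prime (em0 e s) - N) := by ring
      rw [this]
      exact (Valuation.map_sub _ _ _).trans_lt (max_lt h4 (hs.trans_lt hle1))
    rw [hN] at h5
    exact lt_irrefl _ h5
  · have e1 : ph (K := K) e pi1_prime (em0 e s) ^ 2 - N ^ 2 =
        (ph (K := K) e pi1_prime (em0 e s) - N) * (ph (K := K) e pi1_prime (em0 e s) + N) := by ring
    rw [e1, map_mul]
    refine (mul_le_of_le_one_right zero_le ?_).trans hs
    exact (Valuation.map_add _ _ _).trans (max_le (hva s) hN.le)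

/-- the local condition at `1 + i` -/
lemma loc_pi {d B' B1 : ZI} (hd : ¬ pi1 ∣ d) (hB' : B' = pi1 * B1) (hB1 : ¬ pi1 ∣ B1)
    {b w : K} (hw : w ≠ 0) (hb : b = em0 e d * w ^ 2)
    (h : ∃ y m : (plc e pi1_prime).adicCompletion K, y ≠ 0 ∧ ph e pi1_prime b * y ^ 2 = m ∧
      S1 0 (ph e pi1_prime (em0 e (d * B'))) m) :
    ∃ s : ZI, ¬ pi1 ∣ s ∧ (pi1 ^ 5 ∣ s ^ 2 - d ∨ pi1 ^ 5 ∣ s ^ 2 - (d + B')) := by
  obtain ⟨y, m, hy, hym, hm⟩ := h
  set V := vv (plc e pi1_prime) with hV
  set f := ph e pi1_prime with hf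
  have hpw : f w ≠ 0 := (map_ne_zero _).2 hw
  set g := f w * y with hg
  have hg0 : g ≠ 0 := mul_ne_zero hpw hy
  have hl : V (f (em0 e pi1)) = WithZero.exp (-1 : ℤ) := by rw [hV, vv_coe, val_z]
  have hd1 : V (f (em0 e d)) = 1 := by
    rw [hV, vv_coe]
    exact val_one e _ hd
  have hB11 : V (f (em0 e B1)) = 1 := by
    rw [hV, vv_coe]
    exact val_one e _ hB1
  have hBv : V (f (em0 e B')) = WithZero.exp (-1 : ℤ) := by
    rw [hB', map_mul, map_mul, map_mul, hl, hB11, mul_one]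
  have hD : V (f (em0 e (d * B'))) = WithZero.exp (-1 : ℤ) := by
    rw [map_mul, map_mul, map_mul, hd1, hBv, one_mul]
  have hfd : f (em0 e d) ≠ 0 := by
    intro h0
    rw [h0, map_zero] at hd1
    exact zero_ne_one hd1
  obtain ⟨n, hn⟩ := exists_exp V hg0
  have hmg : m = f (em0 e d) * g ^ 2 := by
    rw [← hym, hb, hg, map_mul, map_pow]; ring
  have hmv : V m = WithZero.exp (2 * n) := by
    rw [hmg, map_mul, map_pow, hd1, hn, ← WithZero.exp_nsmul, one_mul]
    congr 1
  have hva : ∀ a' : ZI, V (f (em0 e a')) ≤ 1 := fun a' => by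
    rw [hV, vv_coe]; exact val_le e _ a'
  rcases hm with hm | hm | ⟨hm, Y, hY⟩
  · -- the class of the origin
    rw [hm, map_one, ← WithZero.exp_zero] at hmv
    have h1 := WithZero.exp_injective hmv
    have hn0 : n = 0 := by omega
    have hN : V (1 / g) = 1 := by
      rw [map_div₀, map_one, hn, hn0, WithZero.exp_zero, div_one]
    obtain ⟨s, hs, hs2⟩ := apx e hN
    refine ⟨s, hs, Or.inl ?_⟩
    apply dvd_of_val e pi1_prime
    have e1 : f (em0 e (s ^ 2 - d)) = f (em0 e s) ^ 2 - (1 / g) ^ 2 := by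
      rw [map_sub, map_sub, map_pow, map_pow]
      congr 1
      rw [div_pow, one_pow, eq_div_iff (pow_ne_zero 2 hg0), ← hmg, hm]
    change V (f (em0 e (s ^ 2 - d))) ≤ _
    rw [e1]
    exact hs2
  · exfalso
    rw [hm, hD] at hmv
    have := WithZero.exp_injective hmv
    omega
  · rw [zero_mul, add_zero] at hY
    have hm2 : V (m ^ 2) = WithZero.exp (4 * n) := by
      rw [map_pow, hmv, ← WithZero.exp_nsmul]
      congr 1
      simp
      ring
    rcases lt_or_ge n 0 with h1 | h1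
    · exfalso
      have h2 : V (m ^ 2 + f (em0 e (d * B'))) = WithZero.exp (-1 : ℤ) := by
        rw [Valuation.map_add_eq_of_lt_right, hD]
        rw [hm2, hD, WithZero.exp_lt_exp]
        omega
      have h0 : m ^ 2 + f (em0 e (d * B')) ≠ 0 := by
        intro h0
        rw [h0, map_zero] at h2
        exact WithZero.exp_ne_zero h2.symm
      have hY0 : Y ≠ 0 := by
        rintro rfl
        rw [zero_pow two_ne_zero] at hY
        exact mul_ne_zero hm h0 hY.symm
      obtain ⟨r, hr⟩ := exists_exp V hY0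
      have h3 := congrArg V hY
      rw [map_pow, map_mul, hr, hmv, h2, ← WithZero.exp_nsmul, ← WithZero.exp_add] at h3
      have h4 := WithZero.exp_injective h3
      simp at h4
      omega
    · -- the points of negative or zero valuation
      have hE : V (1 / g) = WithZero.exp (-n) := by
        rw [map_div₀, map_one, hn, ← WithZero.exp_zero, ← WithZero.exp_sub, zero_sub]
      have hE1 : V (1 / g) ≤ 1 := by
        rw [hE, ← WithZero.exp_zero, WithZero.exp_le_exp]; omega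
      set E := 1 / g with hEd
      set N := Y / (f (em0 e d) * g ^ 3) with hN
      have hN2 : N ^ 2 = f (em0 e d) + f (em0 e B') * E ^ 4 := by
        rw [hN, div_pow, hY, hmg, hEd, map_mul, map_mul]
        field_simp
      have hBE : V (f (em0 e B') * E ^ 4) = WithZero.exp (-1 - 4 * n) := by
        rw [map_mul, map_pow, hBv, hE, ← WithZero.exp_nsmul, ← WithZero.exp_add]
        congr 1
        simp
        ring
      have hNv2 : V (N ^ 2) = 1 := by
        rw [hN2, Valuation.map_add_eq_of_lt_left, hd1]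
        rw [hd1, hBE, ← WithZero.exp_zero, WithZero.exp_lt_exp]
        omega
      have hNv : V N = 1 := by
        have hN0 : N ≠ 0 := by
          intro h0
          rw [h0, zero_pow two_ne_zero, map_zero] at hNv2
          exact zero_ne_one hNv2
        obtain ⟨r, hr⟩ := exists_exp V hN0
        rw [map_pow, hr, ← WithZero.exp_nsmul, ← WithZero.exp_zero] at hNv2
        have h4 := WithZero.exp_injective hNv2
        simp at h4
        rw [hr, h4, WithZero.exp_zero]
      obtain ⟨s, hs, hs2⟩ := apx e hNv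
      refine ⟨s, hs, ?_⟩
      rcases lt_or_ge 0 n with h2 | h2
      · left
        apply dvd_of_val e pi1_prime
        change V (f (em0 e (s ^ 2 - d))) ≤ _
        have e1 : f (em0 e (s ^ 2 - d)) = (f (em0 e s) ^ 2 - N ^ 2) + f (em0 e B') * E ^ 4 := by
          rw [hN2, map_sub, map_sub, map_pow, map_pow]
          ring
        rw [e1]
        refine (Valuation.map_add _ _ _).trans (max_le hs2 ?_)
        rw [hBE, WithZero.exp_le_exp]
        push_cast
        omega
      · have hn0 : n = 0 := le_antisymm h2 h1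
        rw [hn0, neg_zero, WithZero.exp_zero] at hE
        right
        apply dvd_of_val e pi1_prime
        change V (f (em0 e (s ^ 2 - (d + B')))) ≤ _
        have e1 : f (em0 e (s ^ 2 - (d + B'))) =
            (f (em0 e s) ^ 2 - N ^ 2) + f (em0 e B') * (E ^ 4 - 1) := by
          rw [hN2, map_sub, map_sub, map_pow, map_pow, map_add, map_add]
          ring
        rw [e1]
        refine (Valuation.map_add _ _ _).trans (max_le hs2 ?_)
        -- the fourth power
        obtain ⟨a, ha⟩ := approx e pi1_prime E hE1 4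
        have hle1 : WithZero.exp (-((4 : ℕ) : ℤ)) < (1 : WithZero (Multiplicative ℤ)) := by
          rw [← WithZero.exp_zero, WithZero.exp_lt_exp]; norm_num
        have hao : ¬ pi1 ∣ a := by
          intro h3
          have h4 : V (f (em0 e a)) < 1 := by
            rw [hV, vv_coe]; exact (val_lt e _ _).2 h3
          have h5 : V E < 1 := by
            have : E = f (em0 e a) - (f (em0 e a) - E) := by ring
            rw [this]
            exact (Valuation.map_sub _ _ _).trans_lt (max_lt h4 (ha.trans_lt hle1))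
          rw [hE] at h5
          exact lt_irrefl _ h5
        obtain ⟨z, hz⟩ := pow_four ((odd_iff _).1 hao)
        have h44 : V (f (em0 e 4)) = WithZero.exp (-((4 : ℕ) : ℤ)) := by
          have h4 : (4 : ZI) = pi1 ^ 4 * (-1) := by decide
          have h41 : V (f (em0 e (-1))) = 1 := by
            rw [map_neg, map_neg, Valuation.map_neg, map_one, map_one, map_one]
          rw [h4, map_mul, map_mul, map_mul, h41, map_pow, map_pow, map_pow, hl, mul_one,
            ← WithZero.exp_nsmul]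
          congr 1
        have h4E : V (E ^ 4 - 1) ≤ WithZero.exp (-((4 : ℕ) : ℤ)) := by
          have e2 : E ^ 4 - 1 = f (em0 e (4 * z)) -
              ((f (em0 e a) - E) * ((f (em0 e a) + E) * (f (em0 e a) ^ 2 + E ^ 2))) := by
            have e3 : f (em0 e (4 * z)) = f (em0 e a) ^ 4 - 1 := by
              have : 4 * z = a ^ 4 - 1 := by rw [hz]; ring
              rw [this, map_sub, map_sub, map_pow, map_pow, map_one, map_one]
            rw [e3]; ring
          rw [e2]
          refine (Valuation.map_sub _ _ _).trans (max_le ?_ ?_)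
          · rw [map_mul, map_mul, map_mul, h44]
            exact mul_le_of_le_one_right zero_le (hva z)
          · rw [map_mul]
            refine (mul_le_of_le_one_right zero_le ?_).trans ha
            rw [map_mul]
            refine mul_le_one' ((Valuation.map_add _ _ _).trans (max_le (hva a) hE.le)) ?_
            refine (Valuation.map_add _ _ _).trans (max_le ?_ ?_)
            · rw [map_pow]; exact pow_le_one₀ zero_le (hva a)
            · rw [map_pow]; exact pow_le_one₀ zero_le hE.le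
        rw [map_mul, hBv]
        calc WithZero.exp (-1 : ℤ) * V (E ^ 4 - 1)
            ≤ WithZero.exp (-1 : ℤ) * WithZero.exp (-((4 : ℕ) : ℤ)) := mul_le_mul_right h4E _
          _ = WithZero.exp (-((5 : ℕ) : ℤ)) := by
              rw [← WithZero.exp_add]
              congr 1

end

end Pool.Agent.D0H76.Q4.Two
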